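import Pool.Agent.Lib.MP_bf4c7f_lp.Defs

/-! ROW ABEL: partial summation with a monotone weight. -/

set_option autoImplicit false

namespace Pool.Agent.Lib.MP_bf4c7f_lp

open Finset

private theorem ABEL_aux (w z : ℕ → ℝ) (s t : ℕ) (S : ℝ)
    (hmono : ∀ l, s < l → l < t → w l ≤ w (l + 1))
    (htail : ∀ r, s ≤ r → |∑ l ∈ Ioc r t, z l| ≤ S) :
    ∀ n r, s ≤ r → r + 1 + n = t →
      |∑ l ∈ Ioc r t, w l * z l - w (r + 1) * ∑ l ∈ Ioc r t, z l| ≤ (w t - w (r + 1)) * S := by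
  intro n
  induction n with
  | zero =>
    intro r _ hr
    have ht : t = r + 1 := by omega
    subst ht
    rw [Nat.Ioc_succ_singleton, Finset.sum_singleton, Finset.sum_singleton]
    simp
  | succ n ih =>
    intro r hsr hr
    have h1 := ih (r + 1) (by omega) (by omega)
    have h2 : Ioc r t = insert (r + 1) (Ioc (r + 1) t) := by
      ext l
      simp only [mem_Ioc, mem_insert]
      omega
    have h3 : (r + 1) ∉ Ioc (r + 1) t := by simp
    rw [h2, Finset.sum_insert h3, Finset.sum_insert h3]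
    have h4 := htail (r + 1) (by omega)
    have h5 := hmono (r + 1) (by omega) (by omega)
    have h6 : |(w (r + 1 + 1) - w (r + 1)) * ∑ l ∈ Ioc (r + 1) t, z l|
        ≤ (w (r + 1 + 1) - w (r + 1)) * S := by
      rw [abs_mul, abs_of_nonneg (sub_nonneg.2 h5)]
      exact mul_le_mul_of_nonneg_left h4 (sub_nonneg.2 h5)
    have h7 : w (r + 1) * z (r + 1) + ∑ l ∈ Ioc (r + 1) t, w l * z l
        - w (r + 1) * (z (r + 1) + ∑ l ∈ Ioc (r + 1) t, z l)
        = (∑ l ∈ Ioc (r + 1) t, w l * z l - w (r + 1 + 1) * ∑ l ∈ Ioc (r + 1) t, z l)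
          + (w (r + 1 + 1) - w (r + 1)) * ∑ l ∈ Ioc (r + 1) t, z l := by ring
    rw [h7]
    refine (abs_add_le _ _).trans ?_
    nlinarith [h1, h6]

/-- partial summation: nonnegative nondecreasing weights bounded by `V`, all tail sums at most
`S`. -/
theorem abel_mono (w z : ℕ → ℝ) (s t : ℕ) (V S : ℝ) (hV : 0 ≤ V) (hS : 0 ≤ S)
    (hw0 : ∀ l ∈ Ioc s t, 0 ≤ w l) (hwV : ∀ l ∈ Ioc s t, w l ≤ V)
    (hmono : ∀ l, s < l → l < t → w l ≤ w (l + 1))
    (htail : ∀ r, s ≤ r → |∑ l ∈ Ioc r t, z l| ≤ S) :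
    |∑ l ∈ Ioc s t, w l * z l| ≤ V * S := by
  rcases Nat.lt_or_ge s t with hst | hst
  · have h1 := ABEL_aux w z s t S hmono htail (t - (s + 1)) s le_rfl (by omega)
    have h2 : |w (s + 1) * ∑ l ∈ Ioc s t, z l| ≤ w (s + 1) * S := by
      have h0 := hw0 (s + 1) (mem_Ioc.2 ⟨by omega, by omega⟩)
      rw [abs_mul, abs_of_nonneg h0]
      exact mul_le_mul_of_nonneg_left (htail s le_rfl) h0
    have h3 : ∑ l ∈ Ioc s t, w l * z l
        = (∑ l ∈ Ioc s t, w l * z l - w (s + 1) * ∑ l ∈ Ioc s t, z l)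
          + w (s + 1) * ∑ l ∈ Ioc s t, z l := by ring
    have h4 : w t * S ≤ V * S :=
      mul_le_mul_of_nonneg_right (hwV t (mem_Ioc.2 ⟨hst, le_rfl⟩)) hS
    rw [h3]
    refine (abs_add_le _ _).trans ?_
    nlinarith [h1, h2, h4]
  · rw [Finset.Ioc_eq_empty (by omega), Finset.sum_empty, abs_zero]
    exact mul_nonneg hV hS

/-- `sin v / v` is nonincreasing on `(0, π]` -/
theorem sin_div_anti (u v : ℝ) (hu : 0 < u) (huv : u ≤ v) (hv : v ≤ Real.pi) :
    Real.sin v / v ≤ Real.sin u / u := by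
  have hv0 : 0 < v := hu.trans_le huv
  have hconc : ConcaveOn ℝ (Set.Icc 0 Real.pi) Real.sin := strictConcaveOn_sin_Icc.concaveOn
  have hmem : v ∈ Set.Icc 0 Real.pi := ⟨hv0.le, hv⟩
  have hmem0 : (0 : ℝ) ∈ Set.Icc 0 Real.pi := ⟨le_rfl, Real.pi_pos.le⟩
  have ha : 0 ≤ u / v := by positivity
  have hb : 0 ≤ 1 - u / v := sub_nonneg.2 ((div_le_one hv0).2 huv)
  have h1 := hconc.2 hmem hmem0 ha hb (by ring)
  have h2 : u / v * Real.sin v ≤ Real.sin u := by
    have h3 : u / v * v = u := div_mul_cancel₀ _ hv0.ne'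
    simpa [smul_eq_mul, h3] using h1
  rw [div_le_div_iff₀ hv0 hu]
  rw [div_mul_eq_mul_div, div_le_iff₀ hv0] at h2
  linarith

end Pool.Agent.Lib.MP_bf4c7f_lp
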