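import Pool.Agent.Lib.MP_bf4c7f_lp.Defs

/-! ROW BINOMA: lower bound for the binomial coefficient. -/

set_option autoImplicit false

namespace Pool.Agent.Lib.MP_bf4c7f_lp

open Finset

/-- `log k! ≤ (k+1) log k - k + 1` -/
private lemma log_fact_le (k : ℕ) (hk : 1 ≤ k) :
    Real.log (k.factorial : ℝ) ≤ ((k : ℝ) + 1) * Real.log k - k + 1 := by
  induction k, hk using Nat.le_induction with
  | base => simp
  | succ n hn ih =>
    have hn0 : (0 : ℝ) < n := by exact_mod_cast hn
    have h1 : Real.log ((n + 1).factorial : ℝ) =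
        Real.log ((n : ℝ) + 1) + Real.log (n.factorial : ℝ) := by
      rw [Nat.factorial_succ, Nat.cast_mul, Real.log_mul (by positivity) (by positivity)]
      push_cast
      ring
    rw [h1]
    have h2 : 1 ≤ ((n : ℝ) + 1) * (Real.log ((n : ℝ) + 1) - Real.log n) := by
      have h3 := Real.one_sub_inv_le_log_of_pos (x := ((n : ℝ) + 1) / n) (by positivity)
      rw [Real.log_div (by positivity) (by positivity)] at h3
      have h4 : 1 - (((n : ℝ) + 1) / n)⁻¹ = 1 / ((n : ℝ) + 1) := by
        field_simp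
        ring
      rw [h4] at h3
      have h5 := mul_le_mul_of_nonneg_left h3 (by positivity : (0 : ℝ) ≤ (n : ℝ) + 1)
      rwa [mul_one_div_cancel (by positivity)] at h5
    push_cast
    nlinarith [h2, ih]

/-- ROW BINOMA.  With `k = x - 1`: `C(a+k, k) = ∏_{i=1}^k (a+i)/i ≥ a^k/k!`, `a ≥ x k`,
`log k! ≤ (k+1) log k - k + 1` (induction on `k ≥ 1`), so
`log C ≥ k (log x + 1) - log k - 1 ≥ (x - 2) (log x + 1)`. -/
theorem log_choose_ge (a x : ℕ) (hx : 3 ≤ x) (ha : x ^ 2 - x ≤ a) :
    ((x : ℝ) - 2) * (Real.log x + 1) ≤ Real.log ((a + x - 1).choose (x - 1)) := by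
  obtain ⟨k, rfl⟩ : ∃ k, x = k + 1 := ⟨x - 1, by omega⟩
  have hk : 2 ≤ k := by omega
  have hk0 : (0 : ℝ) < k := by exact_mod_cast (by omega : 0 < k)
  have hak : (k + 1) * k ≤ a := by
    have : (k + 1) ^ 2 - (k + 1) = (k + 1) * k := by
      rw [pow_two, Nat.mul_succ]; omega
    omega
  have ha0 : 0 < a := lt_of_lt_of_le (by positivity) hak
  have hch : (a : ℝ) ^ k / (k.factorial : ℝ) ≤ ((a + k).choose k : ℝ) := by
    rw [div_le_iff₀ (by positivity)]
    have h1 : (a + k).descFactorial k = k.factorial * (a + k).choose k :=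
      Nat.descFactorial_eq_factorial_mul_choose _ _
    have h2 : a ^ k ≤ (a + k).descFactorial k := by
      have h3 := Nat.pow_sub_le_descFactorial (a + k) k
      refine le_trans (Nat.pow_le_pow_left ?_ k) h3
      omega
    have h4 : (a ^ k : ℕ) ≤ (a + k).choose k * k.factorial := by
      rw [mul_comm, ← h1]; exact h2
    exact_mod_cast h4
  have h1 : (a + (k + 1) - 1).choose (k + 1 - 1) = (a + k).choose k := by
    congr 1
  rw [h1]
  have h2 : Real.log ((a : ℝ) ^ k / (k.factorial : ℝ)) ≤ Real.log ((a + k).choose k : ℝ) :=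
    Real.log_le_log (by positivity) hch
  rw [Real.log_div (by positivity) (by positivity), Real.log_pow] at h2
  have h3 : Real.log (((k : ℝ) + 1) * k) ≤ Real.log a :=
    Real.log_le_log (by positivity) (by exact_mod_cast hak)
  rw [Real.log_mul (by positivity) (by positivity)] at h3
  have h4 := log_fact_le k (by omega)
  have h5 : Real.log k ≤ Real.log ((k : ℝ) + 1) :=
    Real.log_le_log hk0 (by linarith)
  have h6 : (k : ℝ) * (Real.log ((k : ℝ) + 1) + Real.log k) ≤ k * Real.log a :=
    mul_le_mul_of_nonneg_left h3 hk0.le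
  push_cast
  nlinarith
end Pool.Agent.Lib.MP_bf4c7f_lp
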