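import Pool.Agent.Lib.MP_bf4c7f_lp.Defs

/-! ROW BINOMB: upper bound for the binomial coefficient. -/

set_option autoImplicit false

namespace Pool.Agent.Lib.MP_bf4c7f_lp

open Finset

/-- Chebyshev's function -/
noncomputable def th (n : ℕ) : ℝ := ∑ p ∈ (Icc 1 n).filter Nat.Prime, Real.log p

private lemma binomB_hit (a x p : ℕ) (hx : 3 ≤ x) (hp : p.Prime)
    (h : p ∣ (a + x - 1).choose (x - 1)) : Hit a x p := by
  have h1 : p ∣ (a + x - 1).descFactorial (x - 1) := by
    rw [Nat.descFactorial_eq_factorial_mul_choose]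
    exact h.mul_left _
  rw [Nat.descFactorial_eq_prod_range] at h1
  obtain ⟨i, hi, hd⟩ := (hp.prime.dvd_finset_prod_iff _).1 h1
  have hi' := mem_range.1 hi
  exact ⟨a + x - 1 - i, by omega, by omega, hd⟩

private lemma binomB_sum (S : Finset ℕ) (hS : ∀ p ∈ S, p.Prime) (n : ℕ) :
    ∑ p ∈ S, (if p ≤ n then Real.log (p : ℝ) else 0) ≤ th n := by
  rw [← Finset.sum_filter, th]
  apply Finset.sum_le_sum_of_subset_of_nonneg
  · intro p hp
    rw [mem_filter] at hp
    have := (hS p hp.1).one_lt
    exact mem_filter.2 ⟨mem_Icc.2 ⟨by omega, hp.2⟩, hS p hp.1⟩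
  · intro p _ _
    exact Real.log_natCast_nonneg p

/-- ROW BINOMB.  `N = a+x-1 ≤ x^2+3x-1`, `C = C(N, x-1)`, `log C = ∑_p v_p(C) log p`
(`Nat.factorization`).  `p^{v_p} ≤ N` (`Nat.pow_factorization_choose_le`), so `v_p ≤ 2` if
`p^3 > N`; the primes with `p^3 ≤ N` are `≤ m`.  So the primes `p ≤ x+1` contribute at most
`2 th(x+1) + m log(x^2+3x)`.  A prime `p ≥ x+2` has `p^2 > N`, so `v_p ≤ 1`
(`Nat.factorization_choose_le_one`), it does not divide `(x-1)!`, and if it divides `C` it divides
one of `a+1, ..., a+x-1`: `Hit a x p`, so `p ≤ y`; those in `(x+1, K1]` contribute at most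
`th K1 - th (x+1)`, those in `(K1, y]` at most `log y` each. -/
theorem log_choose_le (a x y K1 m : ℕ) (hx : 3 ≤ x) (ha : x ^ 2 - x ≤ a) (ha' : a ≤ x ^ 2 + 2 * x)
    (hK1 : x + 1 ≤ K1) (hm : x ^ 2 + 3 * x < (m + 1) ^ 3)
    (hy : ∀ p, Nat.Prime p → Hit a x p → p ≤ y) :
    Real.log ((a + x - 1).choose (x - 1)) ≤ th (x + 1) + th K1 +
      m * Real.log ((x : ℝ) ^ 2 + 3 * x) +
      Real.log y * ((Ioc K1 y).filter (fun p => Nat.Prime p ∧ Hit a x p)).card := by
  set N := a + x - 1 with hNdef
  set C := N.choose (x - 1) with hCdef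
  have hN : N < x ^ 2 + 3 * x := by omega
  have hN0 : 0 < N := by omega
  have hL0 : (0 : ℝ) ≤ Real.log ((x : ℝ) ^ 2 + 3 * x) := by
    apply Real.log_nonneg
    have : (3 : ℝ) ≤ x := by exact_mod_cast hx
    nlinarith
  set L := Real.log ((x : ℝ) ^ 2 + 3 * x) with hL
  have hS : ∀ p ∈ C.primeFactors, p.Prime := fun p hp => Nat.prime_of_mem_primeFactors hp
  have hlog : Real.log (C : ℝ) = ∑ p ∈ C.primeFactors, (C.factorization p : ℝ) * Real.log p := by
    rw [Real.log_nat_eq_sum_factorization]
    rfl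
  -- pointwise bound
  have hpt : ∀ p ∈ C.primeFactors, (C.factorization p : ℝ) * Real.log p ≤
      (if p ≤ m then L else 0) + (if p ≤ x + 1 then Real.log (p : ℝ) else 0) +
      (if p ≤ K1 then Real.log (p : ℝ) else 0) +
      (if K1 < p ∧ p ≤ y ∧ Hit a x p then Real.log (y : ℝ) else 0) := by
    intro p hp
    have hpp := hS p hp
    have hlogp : 0 ≤ Real.log (p : ℝ) := Real.log_natCast_nonneg p
    have hlogy : 0 ≤ Real.log (y : ℝ) := Real.log_natCast_nonneg y
    have hpow : p ^ C.factorization p ≤ N := Nat.pow_factorization_choose_le hN0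
    have hA : (0 : ℝ) ≤ (if p ≤ m then L else 0) := by split_ifs <;> simp [hL0]
    have hB : (0 : ℝ) ≤ (if p ≤ x + 1 then Real.log (p : ℝ) else 0) := by
      split_ifs <;> simp [hlogp]
    have hB' : (0 : ℝ) ≤ (if p ≤ K1 then Real.log (p : ℝ) else 0) := by
      split_ifs <;> simp [hlogp]
    have hE : (0 : ℝ) ≤ (if K1 < p ∧ p ≤ y ∧ Hit a x p then Real.log (y : ℝ) else 0) := by
      split_ifs <;> simp [hlogy]
    by_cases h1 : p ≤ m
    · have : (C.factorization p : ℝ) * Real.log p ≤ L := by
        rw [← Real.log_pow]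
        apply Real.log_le_log
        · have := hpp.pos
          positivity
        · have h2 : p ^ C.factorization p ≤ x ^ 2 + 3 * x := hpow.trans hN.le
          exact_mod_cast h2
      rw [if_pos h1]
      linarith
    · push Not at h1
      by_cases h2 : p ≤ x + 1
      · have h3 : C.factorization p ≤ 2 := by
          by_contra hcon
          push Not at hcon
          have h4 : p ^ 3 ≤ p ^ C.factorization p := Nat.pow_le_pow_right hpp.pos hcon
          have h5 : (m + 1) ^ 3 ≤ p ^ 3 := Nat.pow_le_pow_left h1 3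
          omega
        have h3' : (C.factorization p : ℝ) ≤ 2 := by exact_mod_cast h3
        have h6 : p ≤ K1 := h2.trans hK1
        rw [if_pos h2, if_pos h6]
        nlinarith
      · push Not at h2
        have h3 : C.factorization p ≤ 1 := by
          by_contra hcon
          push Not at hcon
          have h4 : p ^ 2 ≤ p ^ C.factorization p := Nat.pow_le_pow_right hpp.pos hcon
          have h5 : (x + 2) ^ 2 ≤ p ^ 2 := Nat.pow_le_pow_left h2 2
          nlinarith
        have h3' : (C.factorization p : ℝ) ≤ 1 := by exact_mod_cast h3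
        have h7 : (C.factorization p : ℝ) * Real.log p ≤ Real.log p := by nlinarith
        by_cases h6 : p ≤ K1
        · rw [if_pos h6]
          linarith
        · push Not at h6
          have hhit : Hit a x p := binomB_hit a x p hx hpp (Nat.dvd_of_mem_primeFactors hp)
          have hpy := hy p hpp hhit
          rw [if_pos (show K1 < p ∧ p ≤ y ∧ Hit a x p from ⟨h6, hpy, hhit⟩)]
          have : Real.log (p : ℝ) ≤ Real.log y :=
            Real.log_le_log (by exact_mod_cast hpp.pos) (by exact_mod_cast hpy)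
          linarith
  have hsum := Finset.sum_le_sum hpt
  rw [← hlog, Finset.sum_add_distrib, Finset.sum_add_distrib, Finset.sum_add_distrib] at hsum
  have hA : ∑ p ∈ C.primeFactors, (if p ≤ m then L else 0) ≤ m * L := by
    rw [← Finset.sum_filter, Finset.sum_const, nsmul_eq_mul]
    apply mul_le_mul_of_nonneg_right _ hL0
    have : (C.primeFactors.filter (fun p => p ≤ m)).card ≤ (Icc 1 m).card := by
      apply Finset.card_le_card
      intro p hp
      rw [mem_filter] at hp
      exact mem_Icc.2 ⟨(hS p hp.1).one_lt.le, hp.2⟩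
    rw [Nat.card_Icc] at this
    exact_mod_cast (by omega : (C.primeFactors.filter (fun p => p ≤ m)).card ≤ m)
  have hB := binomB_sum C.primeFactors hS (x + 1)
  have hB' := binomB_sum C.primeFactors hS K1
  have hE : ∑ p ∈ C.primeFactors, (if K1 < p ∧ p ≤ y ∧ Hit a x p then Real.log (y : ℝ) else 0) ≤
      Real.log y * ((Ioc K1 y).filter (fun p => Nat.Prime p ∧ Hit a x p)).card := by
    rw [← Finset.sum_filter, Finset.sum_const, nsmul_eq_mul, mul_comm]
    apply mul_le_mul_of_nonneg_left _ (Real.log_natCast_nonneg y)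
    have : (C.primeFactors.filter (fun p => K1 < p ∧ p ≤ y ∧ Hit a x p)).card ≤
        ((Ioc K1 y).filter (fun p => Nat.Prime p ∧ Hit a x p)).card := by
      apply Finset.card_le_card
      intro p hp
      rw [mem_filter] at hp
      exact mem_filter.2 ⟨mem_Ioc.2 ⟨hp.2.1, hp.2.2.1⟩, hS p hp.1, hp.2.2.2⟩
    exact_mod_cast this
  linarith

end Pool.Agent.Lib.MP_bf4c7f_lp
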