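import Pool.Agent.Lib.MP_bf4c7f_lp.Harm

/-! ROW BLOCK: sum over the frequencies. -/

set_option autoImplicit false

namespace Pool.Agent.Lib.MP_bf4c7f_lp

open Finset

private theorem blk_hasSum (b : Blk) :
    HasSum b.T (∑ l ∈ Ioc b.s b.t,
      ((b.e : ℝ) * l / (2 * b.ε * b.x)) * comb b.a b.x b.ε (b.e * l)) := by
  have h : ∀ l ∈ Ioc b.s b.t, HasSum (fun h : ℕ => ((b.e : ℝ) * l / (2 * b.ε * b.x)) *
    ((Real.cos (2 * Real.pi * h * ((b.a + b.x) / ((b.e * l : ℕ) : ℝ)))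
      + Real.cos (2 * Real.pi * h * (b.a / ((b.e * l : ℕ) : ℝ)))
      - Real.cos (2 * Real.pi * h * ((b.a + b.x + b.ε * b.x) / ((b.e * l : ℕ) : ℝ)))
      - Real.cos (2 * Real.pi * h * ((b.a - b.ε * b.x) / ((b.e * l : ℕ) : ℝ))))
      / (Real.pi ^ 2 * h ^ 2)))
      (((b.e : ℝ) * l / (2 * b.ε * b.x)) * comb b.a b.x b.ε (b.e * l)) := by
    intro l _
    apply HasSum.mul_left
    have h1 := hasSum_bet ((b.a + b.x) / ((b.e * l : ℕ) : ℝ))
    have h2 := hasSum_bet (b.a / ((b.e * l : ℕ) : ℝ))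
    have h3 := hasSum_bet ((b.a + b.x + b.ε * b.x) / ((b.e * l : ℕ) : ℝ))
    have h4 := hasSum_bet ((b.a - b.ε * b.x) / ((b.e * l : ℕ) : ℝ))
    have h5 := ((h1.add h2).sub h3).sub h4
    unfold comb
    have e : (fun h : ℕ => ((Real.cos (2 * Real.pi * h * ((b.a + b.x) / ((b.e * l : ℕ) : ℝ)))
      + Real.cos (2 * Real.pi * h * (b.a / ((b.e * l : ℕ) : ℝ)))
      - Real.cos (2 * Real.pi * h * ((b.a + b.x + b.ε * b.x) / ((b.e * l : ℕ) : ℝ)))
      - Real.cos (2 * Real.pi * h * ((b.a - b.ε * b.x) / ((b.e * l : ℕ) : ℝ))))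
      / (Real.pi ^ 2 * h ^ 2))) = fun h : ℕ =>
        Real.cos (2 * Real.pi * h * ((b.a + b.x) / ((b.e * l : ℕ) : ℝ))) / (Real.pi ^ 2 * h ^ 2)
        + Real.cos (2 * Real.pi * h * (b.a / ((b.e * l : ℕ) : ℝ))) / (Real.pi ^ 2 * h ^ 2)
        - Real.cos (2 * Real.pi * h * ((b.a + b.x + b.ε * b.x) / ((b.e * l : ℕ) : ℝ)))
          / (Real.pi ^ 2 * h ^ 2)
        - Real.cos (2 * Real.pi * h * ((b.a - b.ε * b.x) / ((b.e * l : ℕ) : ℝ)))
          / (Real.pi ^ 2 * h ^ 2) := by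
      funext h
      ring
    rw [e]
    exact h5
  exact hasSum_sum h

private theorem blk_inv_sqrt_step (n : ℕ) (hn : 1 ≤ n) :
    1 / √((n : ℝ)) + 2 * √((n : ℝ) - 1) ≤ 2 * √(n : ℝ) := by
  have hn1 : (1 : ℝ) ≤ n := by exact_mod_cast hn
  have hs : 0 < √(n : ℝ) := Real.sqrt_pos.2 (by linarith)
  have h1 : √(n : ℝ) * √(n : ℝ) = n := Real.mul_self_sqrt (by linarith)
  have h2 : √((n : ℝ) - 1) * √((n : ℝ) - 1) = n - 1 := Real.mul_self_sqrt (by linarith)
  have h3 : 0 ≤ √((n : ℝ) - 1) := Real.sqrt_nonneg _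
  have h4 : 1 / √(n : ℝ) ≤ 2 * (√(n : ℝ) - √((n : ℝ) - 1)) := by
    rw [div_le_iff₀ hs]
    nlinarith [sq_nonneg (√(n : ℝ) - √((n : ℝ) - 1))]
  linarith

private theorem blk_sum_inv_sqrt (N : ℕ) :
    ∑ h ∈ range (N + 1), 1 / √(h : ℝ) ≤ 2 * √(N : ℝ) := by
  induction N with
  | zero => simp
  | succ n ih =>
    rw [sum_range_succ]
    have h := blk_inv_sqrt_step (n + 1) (by omega)
    push_cast at h ⊢
    rw [add_sub_cancel_right] at h
    linarith

private theorem blk_three_half (n : ℕ) (hn : 1 ≤ n) :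
    1 / (((n : ℝ) + 1) * √((n : ℝ) + 1)) ≤ 2 / √(n : ℝ) - 2 / √((n : ℝ) + 1) := by
  have hn1 : (1 : ℝ) ≤ n := by exact_mod_cast hn
  have hs : 0 < √(n : ℝ) := Real.sqrt_pos.2 (by linarith)
  have ht : 0 < √((n : ℝ) + 1) := Real.sqrt_pos.2 (by linarith)
  have h1 : √(n : ℝ) * √(n : ℝ) = n := Real.mul_self_sqrt (by linarith)
  have h2 : √((n : ℝ) + 1) * √((n : ℝ) + 1) = n + 1 := Real.mul_self_sqrt (by linarith)
  have hst : √(n : ℝ) ≤ √((n : ℝ) + 1) := Real.sqrt_le_sqrt (by linarith)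
  rw [div_sub_div _ _ hs.ne' ht.ne', div_le_div_iff₀ (by positivity) (by positivity)]
  set s := √(n : ℝ)
  set t := √((n : ℝ) + 1)
  have h3 : t * t - s * s = 1 := by rw [h1, h2]; ring
  have h4 : (n : ℝ) + 1 = t * t := h2.symm
  rw [h4]
  -- `1 * (s * t) ≤ (2 * t - s * 2) * (t * t * t)`
  have h5 : (t - s) * (t + s) = 1 := by linarith
  have h6 : 0 ≤ t - s := by linarith
  have h7 : s * t ≤ (t - s) * ((t + s) * (s * t)) := by
    rw [← mul_assoc, h5, one_mul]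
  have h8 : (t - s) * ((t + s) * (s * t)) ≤ (t - s) * (2 * (t * t * t)) := by
    apply mul_le_mul_of_nonneg_left _ h6
    nlinarith [mul_nonneg hs.le ht.le, mul_nonneg ht.le h6]
  nlinarith

/-- ROW BLOCK.  By `hasSum_bet` the left hand side is `|∑' h, T h|` (`T 0 = 0`).  Put
`Q = K/(εx) ≥ 30`, `H = ⌊Q⌋`.  For `1 ≤ h ≤ H` use `T_small`, for `h > H` use `T_large`
(`4K/(π²εxh²) = 4Q/(π²h²)`).  First part of `S`: `(19/π)√(a1/K) ∑_{h≤H} h^(-1/2) ≤
(38/π)√(a1/K)√H`, and `(38Q/π²)√(a1/K) ∑_{h>H} h^(-3/2) ≤ (76/π²) Q/√H √(a1/K)`, together at most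
`(12.096 + 7.833) √(Q a1/K) = 19.93 √(a1/(εx))`.  Second part: amplitude `≤ 2/(πh)` for all `h`, so
`(16/π²) K²/(e a0) ∑ 1/h² = 8/3 K²/(e a0)`. -/
theorem block_bound (b : Blk) (hQ : 30 * (b.ε * b.x) ≤ b.K) :
    |∑ l ∈ Ioc b.s b.t, ((b.e : ℝ) * l / (2 * b.ε * b.x)) * comb b.a b.x b.ε (b.e * l)| ≤
      19.95 * √(b.a1 / (b.ε * b.x)) + 8 / 3 * b.K ^ 2 / b.a0 := by
  have hε := b.hε
  have hx := b.hx
  have hex : 0 < b.ε * b.x := mul_pos hε hx
  have hK : 0 < b.K := by linarith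
  have hπ := Real.pi_pos
  have hπ3 : 3.1415 < Real.pi := Real.pi_gt_d4
  have ha0 := b.ha0
  have ha1 : 0 ≤ b.a1 := by linarith [b.h0, b.h1]
  have he : (1 : ℝ) ≤ b.e := by exact_mod_cast b.he
  have he0 : (0 : ℝ) < b.e := by linarith
  set Q : ℝ := b.K / (b.ε * b.x) with hQdef
  have hQ30 : 30 ≤ Q := by rw [hQdef, le_div_iff₀ hex]; exact hQ
  have hQ0 : 0 < Q := by linarith
  set H : ℕ := ⌊Q⌋₊ with hHdef
  have hHQ : (H : ℝ) ≤ Q := Nat.floor_le hQ0.le
  have hQH : Q < H + 1 := Nat.lt_floor_add_one Q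
  have hH30 : 30 ≤ H := Nat.le_floor (by exact_mod_cast hQ30)
  have hH30' : (30 : ℝ) ≤ H := by exact_mod_cast hH30
  set r : ℝ := √(b.a1 / b.K) with hr
  have hr0 : 0 ≤ r := Real.sqrt_nonneg _
  set c1 : ℝ := 19 / Real.pi * r with hc1
  set c3 : ℝ := 38 * Q / Real.pi ^ 2 * r with hc3
  set c2 : ℝ := 16 * b.K ^ 2 / (Real.pi ^ 2 * (b.e * b.a0)) with hc2
  have hc10 : 0 ≤ c1 := by positivity
  have hc30 : 0 ≤ c3 := by positivity
  have hc20 : 0 ≤ c2 := by positivity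
  have hS : ∀ h : ℕ, b.S h = 9.5 * (√(h : ℝ) * r)
      + 8 * b.K ^ 2 / (Real.pi * (h * b.e * b.a0)) := by
    intro h
    unfold Blk.S
    rw [hr, mul_div_assoc, Real.sqrt_mul (Nat.cast_nonneg h)]
  -- the bound of the frequency `h`
  set f : ℕ → ℝ := fun h => if h ≤ H then c1 * (1 / √(h : ℝ)) else
    c3 * (1 / ((h : ℝ) * √(h : ℝ))) with hf
  have hT0 : b.T 0 = 0 := by
    unfold Blk.T
    simp
  have hTf : ∀ h : ℕ, |b.T h| ≤ f h + c2 * (1 / (h : ℝ) ^ 2) := by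
    intro h
    rcases Nat.eq_zero_or_pos h with h0 | h0
    · subst h0
      rw [hT0]
      simp [hf]
    · have hh : (1 : ℝ) ≤ h := by exact_mod_cast h0
      have hh0 : (0 : ℝ) < h := by linarith
      have hsq : 0 < √(h : ℝ) := Real.sqrt_pos.2 hh0
      have hss : √(h : ℝ) * √(h : ℝ) = h := Real.mul_self_sqrt hh0.le
      by_cases hH : h ≤ H
      · have hle : (h : ℝ) * (b.ε * b.x) ≤ b.K := by
          have h1 : (h : ℝ) ≤ Q := le_trans (by exact_mod_cast hH) hHQ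
          rwa [hQdef, le_div_iff₀ hex] at h1
        have h2 := b.T_small h h0 hle
        rw [hS] at h2
        have hfh : f h = c1 * (1 / √(h : ℝ)) := by simp only [hf, if_pos hH]
        rw [hfh]
        refine h2.trans (le_of_eq ?_)
        have e1 : √(h : ℝ) / h = 1 / √(h : ℝ) := by
          rw [div_eq_div_iff hh0.ne' hsq.ne', one_mul, hss]
        have e2 : 2 / (Real.pi * h) * (9.5 * (√(h : ℝ) * r)
            + 8 * b.K ^ 2 / (Real.pi * (h * b.e * b.a0)))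
            = 19 / Real.pi * r * (√(h : ℝ) / h)
              + 16 * b.K ^ 2 / (Real.pi ^ 2 * (b.e * b.a0)) * (1 / (h : ℝ) ^ 2) := by
          field_simp
          ring
        rw [e2, e1]
      · have h2 := b.T_large h h0
        rw [hS] at h2
        have hfh : f h = c3 * (1 / ((h : ℝ) * √(h : ℝ))) := by simp only [hf, if_neg hH]
        rw [hfh]
        have hQh : Q ≤ h := by
          have : ((H + 1 : ℕ) : ℝ) ≤ h := by exact_mod_cast (by omega : H + 1 ≤ h)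
          push_cast at this
          linarith
        have hKQ : b.K = Q * (b.ε * b.x) := by rw [hQdef]; field_simp
        refine h2.trans ?_
        have e1 : √(h : ℝ) / h = 1 / √(h : ℝ) := by
          rw [div_eq_div_iff hh0.ne' hsq.ne', one_mul, hss]
        have e2 : 4 * b.K / (Real.pi ^ 2 * b.ε * b.x * h ^ 2) = 4 * Q / (Real.pi ^ 2 * h ^ 2) := by
          rw [hQdef]
          field_simp
        rw [e2, mul_add]
        apply add_le_add
        · apply le_of_eq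
          have e3 : 4 * Q / (Real.pi ^ 2 * h ^ 2) * (9.5 * (√(h : ℝ) * r))
              = 38 * Q / Real.pi ^ 2 * r * (1 / (h : ℝ) * (√(h : ℝ) / h)) := by
            field_simp
            ring
          rw [e3, e1, one_div_mul_one_div]
        · have e4 : 4 * Q / (Real.pi ^ 2 * h ^ 2)
              * (8 * b.K ^ 2 / (Real.pi * (h * b.e * b.a0)))
              = c2 * (1 / (h : ℝ) ^ 2) * (2 * Q / (Real.pi * h)) := by
            rw [hc2]
            field_simp
            ring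
          rw [e4]
          apply mul_le_of_le_one_right (by positivity)
          rw [div_le_one (by positivity)]
          nlinarith
  -- partial sums of `f`
  have hfH : ∑ h ∈ range (H + 1), f h ≤ c1 * (2 * √(H : ℝ)) := by
    have : ∑ h ∈ range (H + 1), f h = c1 * ∑ h ∈ range (H + 1), 1 / √(h : ℝ) := by
      rw [mul_sum]
      apply sum_congr rfl
      intro h hh
      have : h ≤ H := by rw [mem_range] at hh; omega
      simp only [hf, if_pos this]
    rw [this]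
    exact mul_le_mul_of_nonneg_left (blk_sum_inv_sqrt H) hc10
  have hfN : ∀ N, H ≤ N → ∑ h ∈ range (N + 1), f h ≤
      c1 * (2 * √(H : ℝ)) + c3 * (2 / √(H : ℝ) - 2 / √(N : ℝ)) := by
    intro N hN
    induction N, hN using Nat.le_induction with
    | base => simpa using hfH
    | succ n hn ih =>
      rw [sum_range_succ]
      have h1 : f (n + 1) = c3 * (1 / (((n : ℝ) + 1) * √((n : ℝ) + 1))) := by
        have : ¬ (n + 1 ≤ H) := by omega
        simp only [hf, if_neg this]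
        push_cast
        rfl
      have h2 := mul_le_mul_of_nonneg_left (blk_three_half n (by omega)) hc30
      rw [h1]
      push_cast
      rw [mul_sub] at ih h2 ⊢
      linarith
  set C : ℝ := c1 * (2 * √(H : ℝ)) + c3 * (2 / √(H : ℝ)) + c2 * (Real.pi ^ 2 / 6) with hC
  have hpart : ∀ N, |∑ h ∈ range N, b.T h| ≤ C := by
    intro N
    have h1 : |∑ h ∈ range N, b.T h| ≤ ∑ h ∈ range N, |b.T h| := abs_sum_le_sum_abs _ _
    have h2 : ∑ h ∈ range N, |b.T h| ≤ ∑ h ∈ range (max N H + 1), |b.T h| := by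
      apply sum_le_sum_of_subset_of_nonneg
      · intro h hh
        rw [mem_range] at hh ⊢
        have := le_max_left N H
        omega
      · intros; positivity
    have h3 : ∑ h ∈ range (max N H + 1), |b.T h| ≤
        ∑ h ∈ range (max N H + 1), (f h + c2 * (1 / (h : ℝ) ^ 2)) :=
      sum_le_sum fun h _ => hTf h
    have h4 : ∑ h ∈ range (max N H + 1), (1 / (h : ℝ) ^ 2) ≤ Real.pi ^ 2 / 6 :=
      sum_le_hasSum _ (fun _ _ => by positivity) hasSum_zeta_two
    have h5 := hfN (max N H) (le_max_right _ _)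
    have h6 : 0 ≤ 2 / √((max N H : ℕ) : ℝ) := by positivity
    rw [sum_add_distrib, ← mul_sum] at h3
    have h7 := mul_le_mul_of_nonneg_left h4 hc20
    have h8 := mul_nonneg hc30 h6
    rw [hC]
    rw [mul_sub] at h5
    linarith
  have hsum := blk_hasSum b
  have hlim := hsum.tendsto_sum_nat
  have hmain := le_of_tendsto' hlim.abs hpart
  refine hmain.trans ?_
  rw [hC]
  -- first part
  have hX : √(b.a1 / (b.ε * b.x)) = √Q * r := by
    rw [hr, ← Real.sqrt_mul hQ0.le]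
    congr 1
    rw [hQdef]
    field_simp
  have hsH : √(H : ℝ) ≤ √Q := Real.sqrt_le_sqrt hHQ
  have hsH0 : 0 < √(H : ℝ) := Real.sqrt_pos.2 (by linarith)
  have hsQ0 : 0 < √Q := Real.sqrt_pos.2 hQ0
  have hHH : √(H : ℝ) * √(H : ℝ) = H := Real.mul_self_sqrt (by linarith)
  have hQQ : √Q * √Q = Q := Real.mul_self_sqrt hQ0.le
  have hQs : Q / √(H : ℝ) ≤ 1.0166 * √Q := by
    rw [div_le_iff₀ hsH0]
    have h1 : √Q ≤ 1.0166 * √(H : ℝ) := by
      apply Real.sqrt_le_iff.2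
      constructor
      · positivity
      · rw [mul_pow, Real.sq_sqrt (by linarith)]
        nlinarith
    calc Q = √Q * √Q := hQQ.symm
      _ ≤ √Q * (1.0166 * √(H : ℝ)) := mul_le_mul_of_nonneg_left h1 hsQ0.le
      _ = _ := by ring
  have p1 : c1 * (2 * √(H : ℝ)) ≤ 12.0965 * (√Q * r) := by
    have h1 : c1 * (2 * √(H : ℝ)) = 38 / Real.pi * (√(H : ℝ) * r) := by rw [hc1]; ring
    rw [h1]
    have h2 : 38 / Real.pi ≤ 12.0965 := by
      rw [div_le_iff₀ hπ]; linarith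
    exact mul_le_mul h2 (mul_le_mul_of_nonneg_right hsH hr0) (by positivity) (by norm_num)
  have p2 : c3 * (2 / √(H : ℝ)) ≤ 7.83 * (√Q * r) := by
    have h1 : c3 * (2 / √(H : ℝ)) = 76 / Real.pi ^ 2 * ((Q / √(H : ℝ)) * r) := by
      rw [hc3]; field_simp; ring
    rw [h1]
    have h2 : 76 / Real.pi ^ 2 ≤ 7.701 := by
      rw [div_le_iff₀ (by positivity)]
      nlinarith
    have h3 : (Q / √(H : ℝ)) * r ≤ 1.0166 * (√Q * r) := by
      rw [← mul_assoc]
      exact mul_le_mul_of_nonneg_right hQs hr0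
    have h4 : 0 ≤ √Q * r := by positivity
    calc 76 / Real.pi ^ 2 * ((Q / √(H : ℝ)) * r) ≤ 7.701 * (1.0166 * (√Q * r)) :=
          mul_le_mul h2 h3 (by positivity) (by norm_num)
      _ ≤ 7.83 * (√Q * r) := by nlinarith
  have p3 : c2 * (Real.pi ^ 2 / 6) ≤ 8 / 3 * b.K ^ 2 / b.a0 := by
    have h1 : c2 * (Real.pi ^ 2 / 6) = 8 / 3 * b.K ^ 2 / (b.e * b.a0) := by
      rw [hc2]
      field_simp
      ring
    rw [h1]
    apply div_le_div_of_nonneg_left (by positivity) ha0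
    nlinarith
  rw [hX]
  have p4 : 0 ≤ √Q * r := by positivity
  linarith

end Pool.Agent.Lib.MP_bf4c7f_lp
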