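import Pool.Agent.Lib.MP_bf4c7f_lp.NumReg

/-! ROW NF1: the regimes up to `36.5`. -/

set_option autoImplicit false

namespace Pool.Agent.Lib.MP_bf4c7f_lp

open Finset Pool.Agent.Lib.MP_bf4c7f

lemma nf_expq (n : ℕ) : (1.284 : ℝ) ^ n ≤ Real.exp ((n : ℝ) / 4) := by
  have h1 : (1.284 : ℝ) ≤ Real.exp (1 / 4) := by
    by_contra h
    have h' := not_le.1 h
    have h2 : Real.exp (1 / 4) ^ 4 < (1.284 : ℝ) ^ 4 :=
      pow_lt_pow_left₀ h' (Real.exp_pos _).le (by norm_num)
    have h3 : Real.exp (1 / 4) ^ 4 = Real.exp 1 := by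
      rw [← Real.exp_nat_mul]; norm_num
    rw [h3] at h2
    have h4 := Real.exp_one_gt_d9
    norm_num at h2 h4
    linarith
  have h2 : Real.exp ((n : ℝ) / 4) = Real.exp (1 / 4) ^ n := by
    rw [← Real.exp_nat_mul]; congr 1; ring
  rw [h2]
  exact pow_le_pow_left₀ (by norm_num) h1 n

lemma nf_log3 : 1.0986 ≤ Real.log 3 := by
  -- 3 ^ 12 ≥ 2 ^ 19 * (1 + 0.0136)
  have h1 : (531441 : ℝ) = 2 ^ 19 * (531441 / 524288) := by norm_num
  have h2 : 12 * Real.log 3 = 19 * Real.log 2 + Real.log (531441 / 524288) := by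
    have : Real.log ((3 : ℝ) ^ 12) = Real.log (2 ^ 19 * (531441 / 524288)) := by
      congr 1; norm_num
    rw [Real.log_pow, Real.log_mul (by norm_num) (by norm_num), Real.log_pow] at this
    push_cast at this
    exact this
  have h3 : 1 - (531441 / 524288 : ℝ)⁻¹ ≤ Real.log (531441 / 524288) :=
    Real.one_sub_inv_le_log_of_pos (by norm_num)
  have h4 := Real.log_two_gt_d9
  norm_num at h3 h4
  linarith

lemma nf_log6 : 1.7917 ≤ Real.log ((6 : ℕ) : ℝ) := by
  have h4 : Real.log ((6 : ℕ) : ℝ) = Real.log 2 + Real.log 3 := by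
    rw [show ((6 : ℕ) : ℝ) = 2 * 3 by norm_num, Real.log_mul (by norm_num) (by norm_num)]
  have h5 := nf_log3
  have h6 := Real.log_two_gt_d9
  rw [h4]
  norm_num at h5 h6 ⊢
  linarith

lemma nf_log7 : 1.9457 ≤ Real.log ((7 : ℕ) : ℝ) := by
  have h2 : 2 * Real.log 7 = 4 * Real.log 2 + Real.log 3 + Real.log (49 / 48) := by
    have : Real.log ((7 : ℝ) ^ 2) = Real.log (2 ^ 4 * 3 * (49 / 48)) := by
      congr 1; norm_num
    rw [Real.log_pow, Real.log_mul (by norm_num) (by norm_num),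
      Real.log_mul (by norm_num) (by norm_num), Real.log_pow] at this
    push_cast at this
    exact this
  have h3 : 1 - (49 / 48 : ℝ)⁻¹ ≤ Real.log (49 / 48) :=
    Real.one_sub_inv_le_log_of_pos (by norm_num)
  have h4 := Real.log_two_gt_d9
  have h5 := nf_log3
  norm_num at h3 h4 h5 ⊢
  linarith

lemma nf_reg (La Lb : ℝ) (κ R nb : ℕ) (ε g lk E s : ℝ) (n : ℕ) (hn : La = (n : ℝ) / 2)
    (h1 : 6 ≤ κ) (h2 : κ ≤ 8)
    (h3 : 1 ≤ R) (h4 : 1 ≤ nb) (h5 : 0 < ε) (h6 : ε ≤ 1 / 5) (h7 : 0 < g) (h8 : g ≤ GG R)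
    (hLa : 17 ≤ La) (hR : 90 * (R : ℝ) ^ 2 ≤ κ * 1.284 ^ (2 * n))
    (hlk : lk ≤ Real.log κ)
    (hnb : 2 / 13 * Lb + 0.000001 ≤ lk + nb * 0.693147)
    (hs0 : 0 < s) (hs : s ^ 2 ≤ ε)
    (hE : 164 * (nb : ℝ) * ((4 * (R : ℝ) + 14) / 15) ^ 2 ≤ E * s * 1.284 ^ n)
    (ha : 1.1056 * (1 + (κ : ℝ)) + 0.12 + 15 / 13 * (La + 0.000001) *
      (4 / 15 * (1 + ε) * (2 / 13 * La - lk + 0.000001) / g + E) ≤ La + 1)
    (hb : 1.1056 * (1 + (κ : ℝ)) + 0.12 + 15 / 13 * (Lb + 0.000001) *
      (4 / 15 * (1 + ε) * (2 / 13 * Lb - lk + 0.000001) / g) + 15 / 13 * (La + 0.000001) * E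
        ≤ Lb + 1) :
    ∀ L, La ≤ L → L ≤ Lb → Good L κ R nb ε g := by
  have hse : s ≤ √ε := Real.le_sqrt_of_sq_le hs
  have e1 : (1.284 : ℝ) ^ n ≤ Real.exp (La / 2) := by
    have := nf_expq n
    rw [hn]
    refine this.trans (le_of_eq ?_)
    congr 1; ring
  have e2 : (1.284 : ℝ) ^ (2 * n) ≤ Real.exp La := by
    have := nf_expq (2 * n)
    rw [hn]
    refine this.trans (le_of_eq ?_)
    congr 1
    push_cast
    ring
  refine good_regime La Lb κ R nb ε g lk E h1 h2 h3 h4 h5 h6 h7 h8 hLa ?_ hlk ?_ ?_ ha hb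
  · exact hR.trans (mul_le_mul_of_nonneg_left e2 (by positivity))
  · have := Real.log_two_gt_d9
    have h9 : (0.693147 : ℝ) ≤ Real.log 2 := by norm_num at this ⊢; linarith
    have := mul_le_mul_of_nonneg_left h9 (by positivity : (0 : ℝ) ≤ nb)
    linarith
  · have hp : (0 : ℝ) < 1.284 ^ n := by positivity
    have hX : 0 ≤ 164 * (nb : ℝ) * ((4 * (R : ℝ) + 14) / 15) ^ 2 := by positivity
    have hE0 : 0 ≤ E := by
      by_contra hneg
      have hneg' := not_le.1 hneg
      have h10 : E * s * 1.284 ^ n < 0 := by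
        have := mul_neg_of_neg_of_pos hneg' hs0
        exact mul_neg_of_neg_of_pos this hp
      linarith
    have e3 : -La / 2 = -(La / 2) := by ring
    rw [e3, Real.exp_neg, ← div_eq_mul_inv, div_div, div_le_iff₀ (by positivity)]
    refine hE.trans ?_
    have e4 : s * 1.284 ^ n ≤ Real.exp (La / 2) * √ε := by
      rw [mul_comm]
      exact mul_le_mul e1 hse hs0.le (Real.exp_pos _).le
    calc E * s * 1.284 ^ n = E * (s * 1.284 ^ n) := by ring
      _ ≤ E * (Real.exp (La / 2) * √ε) := mul_le_mul_of_nonneg_left e4 hE0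

private lemma nf_gg (R : ℕ) (S : Finset ℕ) (hS : (Icc 1 R).filter (fun k => SC k) = S) :
    GG R = ∑ k ∈ S, (1 / (Nat.totient k : ℝ)) := by
  unfold GG
  rw [hS]

private lemma nf_t7 : Nat.totient 7 = 6 := by decide
private lemma nf_t11 : Nat.totient 11 = 10 := by decide
private lemma nf_t13 : Nat.totient 13 = 12 := by decide
private lemma nf_t17 : Nat.totient 17 = 16 := by decide
private lemma nf_t19 : Nat.totient 19 = 18 := by decide
private lemma nf_t23 : Nat.totient 23 = 22 := by decide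
private lemma nf_t29 : Nat.totient 29 = 28 := by decide

private lemma nf_gg1 : (1 : ℝ) ≤ GG 1 := by
  rw [nf_gg 1 {1} (by decide +kernel)]
  simp

private lemma nf_gg13 : (1.35 : ℝ) ≤ GG 13 := by
  rw [nf_gg 13 {1, 7, 11, 13} (by decide +kernel)]
  rw [sum_insert (by decide), sum_insert (by decide), sum_insert (by decide), sum_singleton,
    nf_t7, nf_t11, nf_t13]
  norm_num

private lemma nf_gg19 : (1.468 : ℝ) ≤ GG 19 := by
  rw [nf_gg 19 {1, 7, 11, 13, 17, 19} (by decide +kernel)]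
  rw [sum_insert (by decide), sum_insert (by decide), sum_insert (by decide),
    sum_insert (by decide), sum_insert (by decide), sum_singleton,
    nf_t7, nf_t11, nf_t13, nf_t17, nf_t19]
  norm_num

private lemma nf_gg23 : (1.5135 : ℝ) ≤ GG 23 := by
  rw [nf_gg 23 {1, 7, 11, 13, 17, 19, 23} (by decide +kernel)]
  rw [sum_insert (by decide), sum_insert (by decide), sum_insert (by decide),
    sum_insert (by decide), sum_insert (by decide), sum_insert (by decide), sum_singleton,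
    nf_t7, nf_t11, nf_t13, nf_t17, nf_t19, nf_t23]
  norm_num

private lemma nf_gg29 : (1.5492 : ℝ) ≤ GG 29 := by
  rw [nf_gg 29 {1, 7, 11, 13, 17, 19, 23, 29} (by decide +kernel)]
  rw [sum_insert (by decide), sum_insert (by decide), sum_insert (by decide),
    sum_insert (by decide), sum_insert (by decide), sum_insert (by decide),
    sum_insert (by decide), sum_singleton,
    nf_t7, nf_t11, nf_t13, nf_t17, nf_t19, nf_t23, nf_t29]
  norm_num

/-- ROW NF1: `good_regime` on seven intervals `(La, Lb, κ, R, nb, ε)`: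
`(17.5, 20, 7, 1, 2, 0.2)`, `(20, 23, 7, 1, 3, 0.1)`, `(23, 25.5, 7, 1, 3, 0.03)`,
`(25.5, 27.5, 6, 13, 4, 0.1)`, `(27.5, 30.5, 7, 19, 4, 0.07)`, `(30.5, 34, 7, 23, 5, 0.04)`,
`(34, 36.5, 7, 29, 6, 0.02)`.  `g = GG R` exactly: `GG 1 = 1`, `GG 13 = 1.35`,
`GG 19 = 1.468..`, `GG 23 = 1.5135..`, `GG 29 = GG 23 + 1/28`.  The margins are at least `0.29`. -/
theorem good_finite1 (L : ℝ) (h1 : 17.5 ≤ L) (h2 : L ≤ 36.5) :
    ∃ (κ R nb : ℕ) (ε g : ℝ), Good L κ R nb ε g := by
  rcases le_or_gt L 20 with h | h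
  · refine ⟨7, 1, 2, 0.2, 1, nf_reg 17.5 20 7 1 2 0.2 1 1.9457 0.169 0.447 35 (by norm_num)
      (by norm_num) (by norm_num) (by norm_num) (by norm_num) (by norm_num) (by norm_num)
      (by norm_num) nf_gg1 (by norm_num) (by norm_num) nf_log7 (by norm_num) (by norm_num)
      (by norm_num) (by norm_num) (by norm_num) (by norm_num) L h1 h⟩
  rcases le_or_gt L 23 with h' | h'
  · refine ⟨7, 1, 3, 0.1, 1, nf_reg 20 23 7 1 3 0.1 1 1.9457 0.103 0.316 40 (by norm_num)
      (by norm_num) (by norm_num) (by norm_num) (by norm_num) (by norm_num) (by norm_num)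
      (by norm_num) nf_gg1 (by norm_num) (by norm_num) nf_log7 (by norm_num) (by norm_num)
      (by norm_num) (by norm_num) (by norm_num) (by norm_num) L h.le h'⟩
  rcases le_or_gt L 25.5 with h3 | h3
  · refine ⟨7, 1, 3, 0.03, 1, nf_reg 23 25.5 7 1 3 0.03 1 1.9457 0.042 0.173 46 (by norm_num)
      (by norm_num) (by norm_num) (by norm_num) (by norm_num) (by norm_num) (by norm_num)
      (by norm_num) nf_gg1 (by norm_num) (by norm_num) nf_log7 (by norm_num) (by norm_num)
      (by norm_num) (by norm_num) (by norm_num) (by norm_num) L h'.le h3⟩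
  rcases le_or_gt L 27.5 with h4 | h4
  · refine ⟨6, 13, 4, 0.1, 1.35, nf_reg 25.5 27.5 6 13 4 0.1 1.35 1.7917 0.118 0.316 51
      (by norm_num)
      (by norm_num) (by norm_num) (by norm_num) (by norm_num) (by norm_num) (by norm_num)
      (by norm_num) nf_gg13 (by norm_num) (by norm_num) nf_log6 (by norm_num) (by norm_num)
      (by norm_num) (by norm_num) (by norm_num) (by norm_num) L h3.le h4⟩
  rcases le_or_gt L 30.5 with h5 | h5
  · refine ⟨7, 19, 4, 0.07, 1.468, nf_reg 27.5 30.5 7 19 4 0.07 1.468 1.9457 0.096 0.2645 55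
      (by norm_num)
      (by norm_num) (by norm_num) (by norm_num) (by norm_num) (by norm_num) (by norm_num)
      (by norm_num) nf_gg19 (by norm_num) (by norm_num) nf_log7 (by norm_num) (by norm_num)
      (by norm_num) (by norm_num) (by norm_num) (by norm_num) L h4.le h5⟩
  rcases le_or_gt L 34 with h6 | h6
  · refine ⟨7, 23, 5, 0.04, 1.5135, nf_reg 30.5 34 7 23 5 0.04 1.5135 1.9457 0.049 0.2 61
      (by norm_num)
      (by norm_num) (by norm_num) (by norm_num) (by norm_num) (by norm_num) (by norm_num)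
      (by norm_num) nf_gg23 (by norm_num) (by norm_num) nf_log7 (by norm_num) (by norm_num)
      (by norm_num) (by norm_num) (by norm_num) (by norm_num) L h5.le h6⟩
  · refine ⟨7, 29, 6, 0.02, 1.5492, nf_reg 34 36.5 7 29 6 0.02 1.5492 1.9457 0.022 0.1414 68
      (by norm_num)
      (by norm_num) (by norm_num) (by norm_num) (by norm_num) (by norm_num) (by norm_num)
      (by norm_num) nf_gg29 (by norm_num) (by norm_num) nf_log7 (by norm_num) (by norm_num)
      (by norm_num) (by norm_num) (by norm_num) (by norm_num) L h6.le h2⟩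

end Pool.Agent.Lib.MP_bf4c7f_lp
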