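import Pool.Agent.Lib.MP_bf4c7f_lp.NumReg

/-! ROW NF2: the regimes from `36.5` to `84.5`. -/

set_option autoImplicit false

namespace Pool.Agent.Lib.MP_bf4c7f_lp

open Finset Pool.Agent.Lib.MP_bf4c7f

private lemma ng_expq (n : ℕ) : (1.284 : ℝ) ^ n ≤ Real.exp ((n : ℝ) / 4) := by
  have h1 : (1.284 : ℝ) ≤ Real.exp (1 / 4) := by
    by_contra h
    have h' := not_le.1 h
    have h2 : Real.exp (1 / 4) ^ 4 < (1.284 : ℝ) ^ 4 :=
      pow_lt_pow_left₀ h' (Real.exp_pos _).le (by norm_num)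
    have h3 : Real.exp (1 / 4) ^ 4 = Real.exp 1 := by
      rw [← Real.exp_nat_mul]; norm_num
    rw [h3] at h2
    have h4 := Real.exp_one_gt_d9
    norm_num at h2 h4
    linarith
  have h2 : Real.exp ((n : ℝ) / 4) = Real.exp (1 / 4) ^ n := by
    rw [← Real.exp_nat_mul]; congr 1; ring
  rw [h2]
  exact pow_le_pow_left₀ (by norm_num) h1 n

private lemma ng_log3 : 1.0986 ≤ Real.log 3 := by
  have h2 : 12 * Real.log 3 = 19 * Real.log 2 + Real.log (531441 / 524288) := by
    have : Real.log ((3 : ℝ) ^ 12) = Real.log (2 ^ 19 * (531441 / 524288)) := by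
      congr 1; norm_num
    rw [Real.log_pow, Real.log_mul (by norm_num) (by norm_num), Real.log_pow] at this
    push_cast at this
    exact this
  have h3 : 1 - (531441 / 524288 : ℝ)⁻¹ ≤ Real.log (531441 / 524288) :=
    Real.one_sub_inv_le_log_of_pos (by norm_num)
  have h4 := Real.log_two_gt_d9
  norm_num at h3 h4
  linarith

private lemma ng_log5 : 1.6093 ≤ Real.log 5 := by
  have h2 : 3 * Real.log 5 = 7 * Real.log 2 + Real.log (125 / 128) := by
    have : Real.log ((5 : ℝ) ^ 3) = Real.log (2 ^ 7 * (125 / 128)) := by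
      congr 1; norm_num
    rw [Real.log_pow, Real.log_mul (by norm_num) (by norm_num), Real.log_pow] at this
    push_cast at this
    exact this
  have h3 : 1 - (125 / 128 : ℝ)⁻¹ ≤ Real.log (125 / 128) :=
    Real.one_sub_inv_le_log_of_pos (by norm_num)
  have h4 := Real.log_two_gt_d9
  norm_num at h3 h4 ⊢
  linarith

private lemma ng_log6 : 1.7917 ≤ Real.log ((6 : ℕ) : ℝ) := by
  have h4 : Real.log ((6 : ℕ) : ℝ) = Real.log 2 + Real.log 3 := by
    rw [show ((6 : ℕ) : ℝ) = 2 * 3 by norm_num, Real.log_mul (by norm_num) (by norm_num)]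
  have h5 := ng_log3
  have h6 := Real.log_two_gt_d9
  rw [h4]
  norm_num at h5 h6 ⊢
  linarith

private lemma ng_log7 : 1.9457 ≤ Real.log ((7 : ℕ) : ℝ) := by
  have h2 : 2 * Real.log 7 = 4 * Real.log 2 + Real.log 3 + Real.log (49 / 48) := by
    have : Real.log ((7 : ℝ) ^ 2) = Real.log (2 ^ 4 * 3 * (49 / 48)) := by
      congr 1; norm_num
    rw [Real.log_pow, Real.log_mul (by norm_num) (by norm_num),
      Real.log_mul (by norm_num) (by norm_num), Real.log_pow] at this
    push_cast at this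
    exact this
  have h3 : 1 - (49 / 48 : ℝ)⁻¹ ≤ Real.log (49 / 48) :=
    Real.one_sub_inv_le_log_of_pos (by norm_num)
  have h4 := Real.log_two_gt_d9
  have h5 := ng_log3
  norm_num at h3 h4 h5 ⊢
  linarith

private lemma ng_reg (La Lb : ℝ) (κ R nb : ℕ) (ε g lk E s : ℝ) (n : ℕ) (hn : La = (n : ℝ) / 2)
    (h1 : 6 ≤ κ) (h2 : κ ≤ 8)
    (h3 : 1 ≤ R) (h4 : 1 ≤ nb) (h5 : 0 < ε) (h6 : ε ≤ 1 / 5) (h7 : 0 < g) (h8 : g ≤ GG R)
    (hLa : 17 ≤ La) (hR : 90 * (R : ℝ) ^ 2 ≤ κ * 1.284 ^ (2 * n))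
    (hlk : lk ≤ Real.log κ)
    (hnb : 2 / 13 * Lb + 0.000001 ≤ lk + nb * 0.693147)
    (hs0 : 0 < s) (hs : s ^ 2 ≤ ε)
    (hE : 164 * (nb : ℝ) * ((4 * (R : ℝ) + 14) / 15) ^ 2 ≤ E * s * 1.284 ^ n)
    (ha : 1.1056 * (1 + (κ : ℝ)) + 0.12 + 15 / 13 * (La + 0.000001) *
      (4 / 15 * (1 + ε) * (2 / 13 * La - lk + 0.000001) / g + E) ≤ La + 1)
    (hb : 1.1056 * (1 + (κ : ℝ)) + 0.12 + 15 / 13 * (Lb + 0.000001) *
      (4 / 15 * (1 + ε) * (2 / 13 * Lb - lk + 0.000001) / g) + 15 / 13 * (La + 0.000001) * E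
        ≤ Lb + 1) :
    ∀ L, La ≤ L → L ≤ Lb → Good L κ R nb ε g := by
  have hse : s ≤ √ε := Real.le_sqrt_of_sq_le hs
  have e1 : (1.284 : ℝ) ^ n ≤ Real.exp (La / 2) := by
    have := ng_expq n
    rw [hn]
    refine this.trans (le_of_eq ?_)
    congr 1; ring
  have e2 : (1.284 : ℝ) ^ (2 * n) ≤ Real.exp La := by
    have := ng_expq (2 * n)
    rw [hn]
    refine this.trans (le_of_eq ?_)
    congr 1
    push_cast
    ring
  refine good_regime La Lb κ R nb ε g lk E h1 h2 h3 h4 h5 h6 h7 h8 hLa ?_ hlk ?_ ?_ ha hb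
  · exact hR.trans (mul_le_mul_of_nonneg_left e2 (by positivity))
  · have := Real.log_two_gt_d9
    have h9 : (0.693147 : ℝ) ≤ Real.log 2 := by norm_num at this ⊢; linarith
    have := mul_le_mul_of_nonneg_left h9 (by positivity : (0 : ℝ) ≤ nb)
    linarith
  · have hp : (0 : ℝ) < 1.284 ^ n := by positivity
    have hX : 0 ≤ 164 * (nb : ℝ) * ((4 * (R : ℝ) + 14) / 15) ^ 2 := by positivity
    have hE0 : 0 ≤ E := by
      by_contra hneg
      have hneg' := not_le.1 hneg
      have h10 : E * s * 1.284 ^ n < 0 := by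
        have := mul_neg_of_neg_of_pos hneg' hs0
        exact mul_neg_of_neg_of_pos this hp
      linarith
    have e3 : -La / 2 = -(La / 2) := by ring
    rw [e3, Real.exp_neg, ← div_eq_mul_inv, div_div, div_le_iff₀ (by positivity)]
    refine hE.trans ?_
    have e4 : s * 1.284 ^ n ≤ Real.exp (La / 2) * √ε := by
      rw [mul_comm]
      exact mul_le_mul e1 hse hs0.le (Real.exp_pos _).le
    calc E * s * 1.284 ^ n = E * (s * 1.284 ^ n) := by ring
      _ ≤ E * (Real.exp (La / 2) * √ε) := mul_le_mul_of_nonneg_left e4 hE0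

/-- `log R` for `R = 2 ^ a * 3 ^ b * 5 ^ c` -/
private lemma ng_g (R a b c : ℕ) (g : ℝ) (hR : R = 2 ^ a * 3 ^ b * 5 ^ c) (h31 : 31 ≤ R)
    (hg : g ≤ 4 / 15 * (a * 0.693147 + b * 1.0986 + c * 1.6093) + 0.56) : g ≤ GG R := by
  have h1 := (H_lower R h31).trans (sum_le_GG R)
  have h2 : Real.log (R : ℝ) = a * Real.log 2 + b * Real.log 3 + c * Real.log 5 := by
    rw [hR]
    push_cast
    rw [Real.log_mul (by positivity) (by positivity), Real.log_mul (by positivity) (by positivity),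
      Real.log_pow, Real.log_pow, Real.log_pow]
  have h3 := ng_log3
  have h5 := ng_log5
  have h4 := Real.log_two_gt_d9
  have h4' : (0.693147 : ℝ) ≤ Real.log 2 := by norm_num at h4 ⊢; linarith
  have i1 := mul_le_mul_of_nonneg_left h4' (by positivity : (0 : ℝ) ≤ a)
  have i2 := mul_le_mul_of_nonneg_left h3 (by positivity : (0 : ℝ) ≤ b)
  have i3 := mul_le_mul_of_nonneg_left h5 (by positivity : (0 : ℝ) ≤ c)
  rw [h2] at h1
  linarith

private lemma ng_pow (R κ m : ℕ) (hm : 200 ≤ m)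
    (h : 90 * (R : ℝ) ^ 2 ≤ κ * 1.284 ^ 200) : 90 * (R : ℝ) ^ 2 ≤ κ * 1.284 ^ m :=
  h.trans (mul_le_mul_of_nonneg_left (pow_le_pow_right₀ (by norm_num) hm) (by positivity))

/-- ROW NF2: `good_regime` on eight intervals `(La, Lb, κ, R, nb, ε)`:
`(36.5, 39.5, 7, 100, 6, 0.04)`, `(39.5, 43, 6, 200, 7, 0.03)`, `(43, 47, 6, 400, 8, 0.03)`,
`(47, 52, 6, 1000, 9, 0.03)`, `(52, 57.5, 7, 3000, 10, 0.02)`, `(57.5, 64.5, 6, 10000, 12, 0.02)`,
`(64.5, 73.5, 6, 50000, 14, 0.02)`, `(73.5, 84.5, 7, 500000, 16, 0.02)`.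
`g = 4/15 log R + 0.56 ≤ GG R` by `H_lower`, `sum_le_GG` of
`Pool.Agent.Lib.MP_bf4c7f_nt.Consts` (rational lower bounds for `log R`).
The margins are at least `0.46`. -/
theorem good_finite2 (L : ℝ) (h1 : 36.5 ≤ L) (h2 : L ≤ 84.5) :
    ∃ (κ R nb : ℕ) (ε g : ℝ), Good L κ R nb ε g := by
  rcases le_or_gt L 39.5 with h | h
  · refine ⟨7, 100, 6, 0.04, 1.787, ng_reg 36.5 39.5 7 100 6 0.04 1.787 1.9457 0.045 0.2 73
      (by norm_num)
      (by norm_num) (by norm_num) (by norm_num) (by norm_num) (by norm_num) (by norm_num)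
      (by norm_num) (ng_g 100 2 0 2 1.787 (by norm_num) (by norm_num) (by norm_num))
      (by norm_num) (by norm_num) ng_log7 (by norm_num) (by norm_num)
      (by norm_num) (by norm_num) (by norm_num) (by norm_num) L h1 h⟩
  rcases le_or_gt L 43 with h' | h'
  · refine ⟨6, 200, 7, 0.03, 1.972, ng_reg 39.5 43 6 200 7 0.03 1.972 1.7917 0.053 0.173 79
      (by norm_num)
      (by norm_num) (by norm_num) (by norm_num) (by norm_num) (by norm_num) (by norm_num)
      (by norm_num) (ng_g 200 3 0 2 1.972 (by norm_num) (by norm_num) (by norm_num))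
      (by norm_num) (by norm_num) ng_log6 (by norm_num) (by norm_num)
      (by norm_num) (by norm_num) (by norm_num) (by norm_num) L h.le h'⟩
  rcases le_or_gt L 47 with h3 | h3
  · refine ⟨6, 400, 8, 0.03, 2.157, ng_reg 43 47 6 400 8 0.03 2.157 1.7917 0.041 0.173 86
      (by norm_num)
      (by norm_num) (by norm_num) (by norm_num) (by norm_num) (by norm_num) (by norm_num)
      (by norm_num) (ng_g 400 4 0 2 2.157 (by norm_num) (by norm_num) (by norm_num))
      (by norm_num) (by norm_num) ng_log6 (by norm_num) (by norm_num)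
      (by norm_num) (by norm_num) (by norm_num) (by norm_num) L h'.le h3⟩
  rcases le_or_gt L 52 with h4 | h4
  · refine ⟨6, 1000, 9, 0.03, 2.401, ng_reg 47 52 6 1000 9 0.03 2.401 1.7917 0.039 0.173 94
      (by norm_num)
      (by norm_num) (by norm_num) (by norm_num) (by norm_num) (by norm_num) (by norm_num)
      (by norm_num) (ng_g 1000 3 0 3 2.401 (by norm_num) (by norm_num) (by norm_num))
      (by norm_num) (by norm_num) ng_log6 (by norm_num) (by norm_num)
      (by norm_num) (by norm_num) (by norm_num) (by norm_num) L h3.le h4⟩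
  rcases le_or_gt L 57.5 with h5 | h5
  · refine ⟨7, 3000, 10, 0.02, 2.69, ng_reg 52 57.5 7 3000 10 0.02 2.69 1.9457 0.039 0.1414 104
      (by norm_num)
      (by norm_num) (by norm_num) (by norm_num) (by norm_num) (by norm_num) (by norm_num)
      (by norm_num) (ng_g 3000 3 1 3 2.69 (by norm_num) (by norm_num) (by norm_num))
      (by norm_num) (by norm_num) ng_log7 (by norm_num) (by norm_num)
      (by norm_num) (by norm_num) (by norm_num) (by norm_num) L h4.le h5⟩
  rcases le_or_gt L 64.5 with h6 | h6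
  · refine ⟨6, 10000, 12, 0.02, 3.01, ng_reg 57.5 64.5 6 10000 12 0.02 3.01 1.7917 0.034 0.1414
      115 (by norm_num)
      (by norm_num) (by norm_num) (by norm_num) (by norm_num) (by norm_num) (by norm_num)
      (by norm_num) (ng_g 10000 4 0 4 3.01 (by norm_num) (by norm_num) (by norm_num))
      (by norm_num) (by norm_num) ng_log6 (by norm_num) (by norm_num)
      (by norm_num) (by norm_num) (by norm_num) (by norm_num) L h5.le h6⟩
  rcases le_or_gt L 73.5 with h7 | h7
  · refine ⟨6, 50000, 14, 0.02, 3.44, ng_reg 64.5 73.5 6 50000 14 0.02 3.44 1.7917 0.03 0.1414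
      129 (by norm_num)
      (by norm_num) (by norm_num) (by norm_num) (by norm_num) (by norm_num) (by norm_num)
      (by norm_num) (ng_g 50000 4 0 5 3.44 (by norm_num) (by norm_num) (by norm_num))
      (by norm_num) (ng_pow 50000 6 (2 * 129) (by norm_num) (by norm_num)) ng_log6 (by norm_num) (by norm_num)
      (by norm_num) (by norm_num) (by norm_num) (by norm_num) L h6.le h7⟩
  · refine ⟨7, 500000, 16, 0.02, 4.05, ng_reg 73.5 84.5 7 500000 16 0.02 4.05 1.9457 0.038 0.1414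
      147 (by norm_num)
      (by norm_num) (by norm_num) (by norm_num) (by norm_num) (by norm_num) (by norm_num)
      (by norm_num) (ng_g 500000 5 0 6 4.05 (by norm_num) (by norm_num) (by norm_num))
      (by norm_num) (ng_pow 500000 7 (2 * 147) (by norm_num) (by norm_num)) ng_log7 (by norm_num) (by norm_num)
      (by norm_num) (by norm_num) (by norm_num) (by norm_num) L h7.le h2⟩

end Pool.Agent.Lib.MP_bf4c7f_lp
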