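import Pool.Agent.Lib.MP_bf4c7f_lp.NumDefs

/-! ROW NINF: the infinite regime. -/

set_option autoImplicit false

namespace Pool.Agent.Lib.MP_bf4c7f_lp

open Finset Pool.Agent.Lib.MP_bf4c7f

private lemma ni_log6 : 1.79 ≤ Real.log 6 := by
  have h2 : 12 * Real.log 3 = 19 * Real.log 2 + Real.log (531441 / 524288) := by
    have : Real.log ((3 : ℝ) ^ 12) = Real.log (2 ^ 19 * (531441 / 524288)) := by
      congr 1; norm_num
    rw [Real.log_pow, Real.log_mul (by norm_num) (by norm_num), Real.log_pow] at this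
    push_cast at this
    exact this
  have h3 : 1 - (531441 / 524288 : ℝ)⁻¹ ≤ Real.log (531441 / 524288) :=
    Real.one_sub_inv_le_log_of_pos (by norm_num)
  have h5 : Real.log 6 = Real.log 2 + Real.log 3 := by
    rw [show (6 : ℝ) = 2 * 3 by norm_num, Real.log_mul (by norm_num) (by norm_num)]
  have h4 := Real.log_two_gt_d9
  rw [h5]
  norm_num at h3 h4 ⊢
  linarith

private lemma ni_exp (n : ℕ) : (2.7 : ℝ) ^ n ≤ Real.exp n := by
  have h1 : Real.exp (n : ℝ) = Real.exp 1 ^ n := by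
    rw [← Real.exp_nat_mul, mul_one]
  rw [h1]
  have := Real.exp_one_gt_d9
  exact pow_le_pow_left₀ (by norm_num) (by norm_num at this ⊢; linarith) n

private lemma ni_dec (L : ℝ) (h1 : 84 ≤ L) : L ^ 2 * Real.exp (-(0.12 * L)) ≤ 0.35 := by
  have e1 : Real.exp (0.12 * L) = Real.exp 10.08 * Real.exp (0.06 * (L - 84)) ^ 2 := by
    rw [← Real.exp_nat_mul, ← Real.exp_add]
    congr 1
    push_cast
    ring
  have e2 : L / 84 ≤ Real.exp (0.06 * (L - 84)) := by
    have := Real.add_one_le_exp (0.06 * (L - 84))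
    have h3 : L / 84 = 1 + (L - 84) / 84 := by ring
    rw [h3]
    have h4 : (L - 84) / 84 ≤ 0.06 * (L - 84) := by
      rw [div_le_iff₀ (by norm_num)]
      nlinarith
    linarith
  have e3 : (2.7 : ℝ) ^ 10 ≤ Real.exp 10.08 := by
    refine (ni_exp 10).trans (Real.exp_le_exp.2 (by norm_num))
  have e4 : (L / 84) ^ 2 ≤ Real.exp (0.06 * (L - 84)) ^ 2 :=
    pow_le_pow_left₀ (by positivity) e2 2
  rw [Real.exp_neg, ← div_eq_mul_inv, div_le_iff₀ (Real.exp_pos _), e1]
  have e5 : (2.7 : ℝ) ^ 10 * (L / 84) ^ 2 ≤ Real.exp 10.08 * Real.exp (0.06 * (L - 84)) ^ 2 :=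
    mul_le_mul e3 e4 (by positivity) (by positivity)
  have e6 : L ^ 2 ≤ 0.35 * ((2.7 : ℝ) ^ 10 * (L / 84) ^ 2) := by
    have : 0.35 * ((2.7 : ℝ) ^ 10 * (L / 84) ^ 2) = (0.35 * 2.7 ^ 10 / 84 ^ 2) * L ^ 2 := by ring
    rw [this]
    have h7 : (1 : ℝ) ≤ 0.35 * 2.7 ^ 10 / 84 ^ 2 := by norm_num
    nlinarith [sq_nonneg L]
  linarith

/-- ROW NINF: `κ = 6`, `ε = 1/50`, `R = ⌊exp (0.19 L)⌋`, `g = 4/15 log R + 0.56` (`H_lower`,
`sum_le_GG` of `Pool.Agent.Lib.MP_bf4c7f_nt.Consts`; `log R ≥ 0.19 L - 0.001`),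
`nb = ⌈(2/13 L + 0.000001 - log 6)/log 2⌉`.  At `L = 84` the margin is about `10`, and it grows
like `L/15`; error term at most `C L^2 exp(-0.12 L)`. -/
theorem good_infinite (L : ℝ) (h1 : 84 ≤ L) :
    ∃ (κ R nb : ℕ) (ε g : ℝ), Good L κ R nb ε g := by
  set X : ℝ := Real.exp (0.19 * L) with hX
  set R : ℕ := ⌊X⌋₊ with hR
  have hX0 : 0 < X := Real.exp_pos _
  have hX1 : (7000 : ℝ) ≤ X := by
    have h2 : (2.7 : ℝ) ^ 10 ≤ X := by
      refine (ni_exp 10).trans (Real.exp_le_exp.2 ?_)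
      push_cast
      linarith
    exact le_trans (by norm_num) h2
  have hRX : (R : ℝ) ≤ X := Nat.floor_le hX0.le
  have hRX' : X - 1 < R := by
    have := Nat.lt_floor_add_one X
    linarith
  have hR31 : 31 ≤ R := by
    have : (31 : ℝ) < R := by linarith
    exact_mod_cast this.le
  have hlogR : 0.19 * L - 0.001 ≤ Real.log R := by
    have h2 : Real.log (X * (1 - 1 / X)) ≤ Real.log R := by
      apply Real.log_le_log
      · apply mul_pos hX0
        have : 1 / X ≤ 1 / 7000 := one_div_le_one_div_of_le (by norm_num) hX1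
        linarith
      · have : X * (1 - 1 / X) = X - 1 := by field_simp
        rw [this]
        exact hRX'.le
    have h3 : 1 / X ≤ 1 / 7000 := one_div_le_one_div_of_le (by norm_num) hX1
    have h3' : 0 < 1 / X := by positivity
    have h4 : 0 < 1 - 1 / X := by linarith
    rw [Real.log_mul hX0.ne' h4.ne', hX, Real.log_exp, ← hX] at h2
    have h5 := Real.one_sub_inv_le_log_of_pos h4
    have h6 : (1 - 1 / X)⁻¹ ≤ 1.001 := by
      rw [inv_le_comm₀ h4 (by norm_num)]
      norm_num at h3 ⊢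
      linarith
    norm_num at h2 h5 h6 ⊢
    linarith
  set g : ℝ := 4 / 15 * Real.log R + 0.56 with hg
  have hgG : g ≤ GG R := GG_lower R hR31
  have hg0 : 0.0506666 * L + 0.5597 ≤ g := by
    rw [hg]
    linarith
  have hgpos : 0 < g := by linarith
  have hl2 := Real.log_two_gt_d9
  have hl2' : (0.6931 : ℝ) ≤ Real.log 2 := by norm_num at hl2 ⊢; linarith
  have hl6 := ni_log6
  set T : ℝ := (2 / 13 * L + 0.000001 - Real.log 6) / Real.log 2 with hT
  set nb : ℕ := ⌈T⌉₊ with hnb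
  have hT0 : 0 < T := by
    apply div_pos _ (by linarith)
    have h2 := Real.log_two_lt_d9
    have h3 : Real.log 6 ≤ 3 * Real.log 2 := by
      have : Real.log 6 ≤ Real.log (2 ^ 3) := Real.log_le_log (by norm_num) (by norm_num)
      rwa [Real.log_pow] at this
    linarith
  have hTnb : T ≤ nb := Nat.le_ceil T
  have hnb1 : 1 ≤ nb := Nat.ceil_pos.2 hT0
  have hnbT : (nb : ℝ) < T + 1 := Nat.ceil_lt_add_one hT0.le
  have hnbL : (nb : ℝ) ≤ 0.222 * L := by
    have h2 : T ≤ 0.222 * L - 1 := by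
      rw [hT, div_le_iff₀ (by linarith)]
      have h3 : (0.222 * L - 1) * 0.6931 ≤ (0.222 * L - 1) * Real.log 2 :=
        mul_le_mul_of_nonneg_left hl2' (by linarith)
      linarith
    linarith
  have hse : (0.1414 : ℝ) ≤ √(1 / 50) := Real.le_sqrt_of_sq_le (by norm_num)
  refine ⟨6, R, nb, 1 / 50, g, le_rfl, by norm_num, by omega, hnb1, by norm_num, by norm_num,
    hgpos, hgG, ?_, ?_, ?_⟩
  · have h2 : (R : ℝ) ^ 2 ≤ X ^ 2 := pow_le_pow_left₀ (by positivity) hRX 2
    have h3 : X ^ 2 * Real.exp (0.62 * L) = Real.exp L := by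
      rw [hX, ← Real.exp_nat_mul, ← Real.exp_add]
      congr 1
      push_cast
      ring
    have h4 : (15 : ℝ) ≤ Real.exp (0.62 * L) := by
      have : (2.7 : ℝ) ^ 10 ≤ Real.exp (0.62 * L) := by
        refine (ni_exp 10).trans (Real.exp_le_exp.2 ?_)
        push_cast
        linarith
      exact le_trans (by norm_num) this
    rw [← h3]
    push_cast
    have h5 : 15 * X ^ 2 ≤ X ^ 2 * Real.exp (0.62 * L) := by
      nlinarith [sq_nonneg X]
    linarith
  · rw [hT, div_le_iff₀ (by linarith)] at hTnb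
    push_cast
    linarith
  · have hc : ((6 : ℕ) : ℝ) = 6 := by norm_num
    rw [hc]
    -- error term
    have e1 : ((4 * (R : ℝ) + 14) / 15) ^ 2 ≤ 0.0712 * X ^ 2 := by
      have h2 : (4 * (R : ℝ) + 14) / 15 ≤ 0.2668 * X := by
        rw [div_le_iff₀ (by norm_num)]
        linarith
      have h3 : ((4 * (R : ℝ) + 14) / 15) ^ 2 ≤ (0.2668 * X) ^ 2 :=
        pow_le_pow_left₀ (by positivity) h2 2
      refine h3.trans ?_
      nlinarith [sq_nonneg X]
    have e2 : X ^ 2 * Real.exp (-L / 2) = Real.exp (-(0.12 * L)) := by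
      rw [hX, ← Real.exp_nat_mul, ← Real.exp_add]
      congr 1
      push_cast
      ring
    have e3 : 164 * (nb : ℝ) * ((4 * (R : ℝ) + 14) / 15) ^ 2 * Real.exp (-L / 2) / √(1 / 50) ≤
        164 * 0.222 * 0.0712 / 0.1414 * (L * Real.exp (-(0.12 * L))) := by
      rw [div_le_iff₀ (by linarith)]
      have h3 : 164 * (nb : ℝ) * ((4 * (R : ℝ) + 14) / 15) ^ 2 * Real.exp (-L / 2) ≤
          164 * (0.222 * L) * (0.0712 * X ^ 2) * Real.exp (-L / 2) := by
        apply mul_le_mul_of_nonneg_right _ (Real.exp_pos _).le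
        apply mul_le_mul _ e1 (by positivity) (by positivity)
        exact mul_le_mul_of_nonneg_left hnbL (by norm_num)
      have h4 : 164 * (0.222 * L) * (0.0712 * X ^ 2) * Real.exp (-L / 2) =
          164 * 0.222 * 0.0712 * (L * Real.exp (-(0.12 * L))) := by
        rw [← e2]; ring
      rw [h4] at h3
      refine h3.trans ?_
      have h5 : 0 ≤ L * Real.exp (-(0.12 * L)) := by positivity
      have h6 : 164 * 0.222 * 0.0712 / 0.1414 * (L * Real.exp (-(0.12 * L))) * 0.1414 ≤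
          164 * 0.222 * 0.0712 / 0.1414 * (L * Real.exp (-(0.12 * L))) * √(1 / 50) :=
        mul_le_mul_of_nonneg_left hse (by positivity)
      refine le_trans (le_of_eq ?_) h6
      ring
    have e4 := ni_dec L h1
    have e5 : (L + 0.000001) * (164 * (nb : ℝ) * ((4 * (R : ℝ) + 14) / 15) ^ 2 *
        Real.exp (-L / 2) / √(1 / 50)) ≤ 6.6 := by
      have h3 : (L + 0.000001) * (164 * (nb : ℝ) * ((4 * (R : ℝ) + 14) / 15) ^ 2 *
          Real.exp (-L / 2) / √(1 / 50)) ≤ (1.0001 * L) *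
          (164 * 0.222 * 0.0712 / 0.1414 * (L * Real.exp (-(0.12 * L)))) :=
        mul_le_mul (by linarith) e3 (by positivity) (by positivity)
      refine h3.trans ?_
      have h4 : (1.0001 * L) * (164 * 0.222 * 0.0712 / 0.1414 * (L * Real.exp (-(0.12 * L)))) =
          (1.0001 * (164 * 0.222 * 0.0712 / 0.1414)) * (L ^ 2 * Real.exp (-(0.12 * L))) := by ring
      rw [h4]
      refine (mul_le_mul_of_nonneg_left e4 (by positivity)).trans ?_
      norm_num
    -- main term
    have e6 : (L + 0.000001) * (4 / 15 * (1 + 1 / 50) * (2 / 13 * L - Real.log 6 + 0.000001) / g)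
        ≤ 13 / 15 * (L - 15.5) := by
      rw [mul_div_assoc', div_le_iff₀ hgpos]
      have h3 : 2 / 13 * L - Real.log 6 + 0.000001 ≤ 2 / 13 * L - 1.7899 := by linarith
      have h4 : (L + 0.000001) * (4 / 15 * (1 + 1 / 50) * (2 / 13 * L - Real.log 6 + 0.000001)) ≤
          (L + 0.000001) * (4 / 15 * (1 + 1 / 50) * (2 / 13 * L - 1.7899)) := by
        apply mul_le_mul_of_nonneg_left _ (by linarith)
        apply mul_le_mul_of_nonneg_left h3 (by norm_num)
      have h5 : 13 / 15 * (L - 15.5) * (0.0506666 * L + 0.5597) ≤ 13 / 15 * (L - 15.5) * g :=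
        mul_le_mul_of_nonneg_left hg0 (by linarith)
      refine h4.trans (le_trans ?_ h5)
      nlinarith
    have e7 : 15 / 13 * (L + 0.000001) * (4 / 15 * (1 + 1 / 50) *
        (2 / 13 * L - Real.log 6 + 0.000001) / g +
        164 * (nb : ℝ) * ((4 * (R : ℝ) + 14) / 15) ^ 2 * Real.exp (-L / 2) / √(1 / 50)) =
        15 / 13 * ((L + 0.000001) * (4 / 15 * (1 + 1 / 50) *
          (2 / 13 * L - Real.log 6 + 0.000001) / g)) +
        15 / 13 * ((L + 0.000001) * (164 * (nb : ℝ) * ((4 * (R : ℝ) + 14) / 15) ^ 2 *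
          Real.exp (-L / 2) / √(1 / 50))) := by
      ring
    rw [e7]
    norm_num at e5 e6 ⊢
    linarith

end Pool.Agent.Lib.MP_bf4c7f_lp
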