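import Pool.Agent.Lib.MP_bf4c7f_lp.NumDefs

/-! ROW NS: from the numerical condition to the final inequality. -/

set_option autoImplicit false

namespace Pool.Agent.Lib.MP_bf4c7f_lp

open Finset Pool.Agent.Lib.MP_bf4c7f

private lemma ns_exp35 : (1.58e15 : ℝ) ≤ Real.exp 35 := by
  have h := Real.exp_one_gt_d9
  have h2 : Real.exp 35 = Real.exp 1 ^ 35 := by
    rw [← Real.exp_nat_mul]; norm_num
  rw [h2]
  calc (1.58e15 : ℝ) ≤ 2.7182818283 ^ 35 := by norm_num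
    _ ≤ Real.exp 1 ^ 35 := pow_le_pow_left₀ (by norm_num) h.le 35

private lemma ns_exp175 (L : ℝ) (hL : 17.5 ≤ L) : (3.9e7 : ℝ) ≤ Real.exp L := by
  have h1 : (3.9e7 : ℝ) ^ 2 ≤ Real.exp 17.5 ^ 2 := by
    rw [← Real.exp_nat_mul]
    have h : ((2 : ℕ) : ℝ) * 17.5 = 35 := by norm_num
    rw [h]
    exact le_trans (by norm_num) ns_exp35
  have h2 : (3.9e7 : ℝ) ≤ Real.exp 17.5 :=
    le_of_sq_le_sq h1 (Real.exp_pos _).le
  exact h2.trans (Real.exp_le_exp.2 hL)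

/-- `exp (L/3) ≥ 341 (1 + (L - 17.5)/3)` -/
private lemma ns_exp3 (L : ℝ) (hL : 17.5 ≤ L) :
    341 * (1 + (L - 17.5) / 3) ≤ Real.exp (L / 3) := by
  have h1 : (341 : ℝ) ^ 6 ≤ Real.exp (17.5 / 3) ^ 6 := by
    rw [← Real.exp_nat_mul]
    have h : ((6 : ℕ) : ℝ) * (17.5 / 3) = 35 := by norm_num
    rw [h]
    exact le_trans (by norm_num) ns_exp35
  have h2 : (341 : ℝ) ≤ Real.exp (17.5 / 3) :=
    le_of_pow_le_pow_left₀ (by norm_num) (Real.exp_pos _).le h1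
  have h3 : 1 + (L - 17.5) / 3 ≤ Real.exp ((L - 17.5) / 3) := by
    have := Real.add_one_le_exp ((L - 17.5) / 3)
    linarith
  have h4 : Real.exp (L / 3) = Real.exp (17.5 / 3) * Real.exp ((L - 17.5) / 3) := by
    rw [← Real.exp_add]; congr 1; ring
  rw [h4]
  exact mul_le_mul h2 h3 (by linarith) (Real.exp_pos _).le

/-- `exp (5/26 L) ≥ 20` -/
private lemma ns_exp5 (L : ℝ) (hL : 17.5 ≤ L) : (28 : ℝ) ≤ Real.exp (5 / 26 * L) := by
  have h1 : (28 : ℝ) ^ 52 ≤ Real.exp (5 / 26 * 17.5) ^ 52 := by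
    rw [← Real.exp_nat_mul]
    have h : ((52 : ℕ) : ℝ) * (5 / 26 * 17.5) = ((5 : ℕ) : ℝ) * 35 := by norm_num
    rw [h, Real.exp_nat_mul]
    exact le_trans (by norm_num) (pow_le_pow_left₀ (by norm_num) ns_exp35 5)
  have h2 : (28 : ℝ) ≤ Real.exp (5 / 26 * 17.5) :=
    le_of_pow_le_pow_left₀ (by norm_num) (Real.exp_pos _).le h1
  exact h2.trans (Real.exp_le_exp.2 (by linarith))

/-- `exp (2/13 L) ≥ 8` -/
private lemma ns_exp2 (L : ℝ) (hL : 17.5 ≤ L) : (8.1 : ℝ) ≤ Real.exp (2 / 13 * L) := by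
  have h1 : (8.1 : ℝ) ^ 13 ≤ Real.exp (2 / 13 * 17.5) ^ 13 := by
    rw [← Real.exp_nat_mul]
    have h : ((13 : ℕ) : ℝ) * (2 / 13 * 17.5) = 35 := by norm_num
    rw [h]
    exact le_trans (by norm_num) ns_exp35
  have h2 : (8.1 : ℝ) ≤ Real.exp (2 / 13 * 17.5) :=
    le_of_pow_le_pow_left₀ (by norm_num) (Real.exp_pos _).le h1
  exact h2.trans (Real.exp_le_exp.2 (by linarith))

/-- ROW NS. `L = log x ≥ 17.5`, `1/x ≤ 2.6e-8`.  `log (YY x) ≤ 15/13 log(x+1) ≤ 15/13 (L + 1/x)`;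
`κ x ≤ 8 x ≤ YY x` since `x^(2/13) ≥ 14.7`; `log(YY/(κx)) ≤ 2/13 L - log κ + 15/13/x`;
`mm x * log(x^2+3x)/x ≤ 0.103` (at `L = 17.5` it is `exp(-L/3) 2L` up to `1e-6`, decreasing);
`3.7 YY^2/x^2 + 1 ≤ 0.3 nb √(x/ε)` (`YY^2/x^2 ≤ (x+1)^(30/13)/x^2`, about `x^(4/13) = 218` at
`L = 17.5`, against `0.3 √(5x) ≥ 4200`), so the second bracket is `≤ 20.5 nb √(x/ε)`, and
`8 * 20.5 = 164`, `√(x/ε)/x = exp(-L/2)/√ε`. -/
theorem sieve_num (x : ℕ) (hL : 17.5 ≤ Real.log x) (κ R nb : ℕ) (ε g : ℝ)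
    (hG : Good (Real.log x) κ R nb ε g) :
    κ * x ≤ YY x ∧ YY x ≤ κ * x * 2 ^ nb ∧ 90 * R ^ 2 ≤ κ * x ∧
    1.1056 * ((x : ℝ) + 1) + 1.1056 * (κ * x) + mm x * Real.log ((x : ℝ) ^ 2 + 3 * x) +
      Real.log (YY x) *
       (4 / 15 * ((1 + ε) * x * Real.log ((YY x : ℝ) / ((κ * x : ℕ) : ℝ))) / GG R +
      8 * (nb * (20.2 * √((x : ℝ) / ε)) + 3.7 * (YY x : ℝ) ^ 2 / (x : ℝ) ^ 2 + 1) *
        ((4 * (R : ℝ) + 14) / 15) ^ 2) <
      ((x : ℝ) - 2) * (Real.log x + 1) := by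
  obtain ⟨g1, g2, g3, g4, g5, g6, g7, g8, g9, g10, g11⟩ := hG
  set L := Real.log x with hLdef
  have hx0 : (0 : ℝ) < x := by
    rcases Nat.eq_zero_or_pos x with h | h
    · rw [h] at hLdef
      simp at hLdef
      rw [hLdef] at hL
      norm_num at hL
    · exact_mod_cast h
  have hexp : Real.exp L = x := Real.exp_log hx0
  have hX : (3.9e7 : ℝ) ≤ x := by rw [← hexp]; exact ns_exp175 L hL
  have hinv : 1 / (x : ℝ) ≤ 2.6e-8 := by
    rw [div_le_iff₀ hx0]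
    nlinarith
  have hinv0 : 0 < 1 / (x : ℝ) := by positivity
  -- the real power
  set P : ℝ := ((x : ℝ) + 1) ^ ((15 : ℝ) / 13) with hP
  have hPpos : 0 < P := by positivity
  have hlogx1 : Real.log ((x : ℝ) + 1) ≤ L + 1 / x := by
    have h1 : (x : ℝ) + 1 = x * (1 + 1 / x) := by field_simp
    rw [h1, Real.log_mul hx0.ne' (by positivity)]
    have h2 := Real.log_le_sub_one_of_pos (show (0 : ℝ) < 1 + 1 / x by positivity)
    linarith
  have hlogx0 : L ≤ Real.log ((x : ℝ) + 1) := Real.log_le_log hx0 (by linarith)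
  have hlogP : Real.log P = 15 / 13 * Real.log ((x : ℝ) + 1) :=
    Real.log_rpow (by positivity) _
  have hlogPle : Real.log P ≤ 15 / 13 * (L + 1 / x) := by rw [hlogP]; linarith
  have hlogPge : 15 / 13 * L ≤ Real.log P := by rw [hlogP]; linarith
  have hYle : (YY x : ℝ) ≤ P := Nat.floor_le hPpos.le
  have hκ1 : (6 : ℝ) ≤ κ := by exact_mod_cast g1
  have hκ2 : (κ : ℝ) ≤ 8 := by exact_mod_cast g2
  have hκ0 : (0 : ℝ) < κ := by linarith
  -- (1)
  have hone : κ * x ≤ YY x := by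
    apply Nat.le_floor
    push_cast
    have h1 : (8.1 : ℝ) * x ≤ P := by
      have h2 : P = Real.exp (Real.log P) := (Real.exp_log hPpos).symm
      rw [h2]
      calc (8.1 : ℝ) * x ≤ Real.exp (2 / 13 * L) * Real.exp L := by
            rw [hexp]; exact mul_le_mul_of_nonneg_right (ns_exp2 L hL) hx0.le
        _ = Real.exp (15 / 13 * L) := by rw [← Real.exp_add]; congr 1; ring
        _ ≤ _ := Real.exp_le_exp.2 hlogPge
    nlinarith
  have hYge : (κ : ℝ) * x ≤ YY x := by exact_mod_cast hone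
  have hY0 : (0 : ℝ) < YY x := lt_of_lt_of_le (by positivity) hYge
  have hlogY : Real.log (YY x) ≤ 15 / 13 * (L + 1 / x) :=
    (Real.log_le_log hY0 hYle).trans hlogPle
  have hlogY0 : 0 ≤ Real.log (YY x) := Real.log_natCast_nonneg _
  have hsmall : (15 : ℝ) / 13 * (1 / x) ≤ 0.0000001 := by linarith
  -- (2)
  have htwo : YY x ≤ κ * x * 2 ^ nb := by
    have h1 : (YY x : ℝ) ≤ κ * x * 2 ^ nb := by
      have h2 : Real.log (YY x) ≤ Real.log (κ * x * 2 ^ nb) := by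
        rw [Real.log_mul (by positivity) (by positivity), Real.log_mul hκ0.ne' hx0.ne',
          Real.log_pow, ← hLdef]
        linarith
      exact (Real.log_le_log_iff hY0 (by positivity)).1 h2
    exact_mod_cast h1
  -- (3)
  have hthree : 90 * R ^ 2 ≤ κ * x := by
    rw [hexp] at g9
    exact_mod_cast g9
  refine ⟨hone, htwo, hthree, ?_⟩
  -- (4)
  have hGG : 0 < GG R := lt_of_lt_of_le g7 g8
  -- the first bracket
  have hlogq : Real.log ((YY x : ℝ) / ((κ * x : ℕ) : ℝ)) ≤ 2 / 13 * L - Real.log κ + 0.000001 := by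
    push_cast
    rw [Real.log_div hY0.ne' (by positivity), Real.log_mul hκ0.ne' hx0.ne', ← hLdef]
    linarith
  have hlogq0 : 0 ≤ Real.log ((YY x : ℝ) / ((κ * x : ℕ) : ℝ)) := by
    apply Real.log_nonneg
    push_cast
    rw [le_div_iff₀ (by positivity)]
    linarith
  have hA : 4 / 15 * ((1 + ε) * x * Real.log ((YY x : ℝ) / ((κ * x : ℕ) : ℝ))) / GG R ≤
      x * (4 / 15 * (1 + ε) * (2 / 13 * L - Real.log κ + 0.000001) / g) := by
    have h1 : 4 / 15 * ((1 + ε) * x * Real.log ((YY x : ℝ) / ((κ * x : ℕ) : ℝ))) / GG R ≤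
        4 / 15 * ((1 + ε) * x * Real.log ((YY x : ℝ) / ((κ * x : ℕ) : ℝ))) / g := by
      apply div_le_div_of_nonneg_left _ g7 g8
      positivity
    refine h1.trans ?_
    have h2 : x * (4 / 15 * (1 + ε) * (2 / 13 * L - Real.log κ + 0.000001) / g) =
        4 / 15 * ((1 + ε) * x * (2 / 13 * L - Real.log κ + 0.000001)) / g := by ring
    rw [h2]
    apply div_le_div_of_nonneg_right _ g7.le
    apply mul_le_mul_of_nonneg_left _ (by norm_num)
    exact mul_le_mul_of_nonneg_left hlogq (by positivity)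
  -- the second bracket
  have hnb : (1 : ℝ) ≤ nb := by exact_mod_cast g4
  have hsq : √((x : ℝ) / ε) = x * (Real.exp (-L / 2) / √ε) := by
    rw [Real.sqrt_div hx0.le]
    have h1 : √(x : ℝ) = Real.exp (L / 2) := by
      rw [← hexp, ← Real.exp_half] 
    rw [h1]
    have h2 : Real.exp (L / 2) = x * Real.exp (-L / 2) := by
      rw [← hexp, ← Real.exp_add]; congr 1; ring
    rw [h2]; ring
  have hYY : 3.7 * (YY x : ℝ) ^ 2 / (x : ℝ) ^ 2 + 1 ≤ 0.3 * √((x : ℝ) / ε) := by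
    have h1 : (YY x : ℝ) ^ 2 / (x : ℝ) ^ 2 ≤ Real.exp (4 / 13 * L + 0.000001) := by
      have h2 : (YY x : ℝ) ^ 2 / (x : ℝ) ^ 2 = Real.exp (2 * Real.log (YY x) - 2 * L) := by
        rw [Real.exp_sub, two_mul, two_mul, Real.exp_add, Real.exp_add, hexp, Real.exp_log hY0]
        ring
      rw [h2]
      exact Real.exp_le_exp.2 (by linarith)
    have h3 : Real.exp (4 / 13 * L + 0.000001) ≤ 1.00001 * Real.exp (4 / 13 * L) := by
      rw [Real.exp_add, mul_comm]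
      apply mul_le_mul_of_nonneg_right _ (Real.exp_pos _).le
      have h4 := Real.exp_bound_div_one_sub_of_interval (x := 0.000001) (by norm_num) (by norm_num)
      refine h4.trans (by norm_num)
    have h5 : √(5 * (x : ℝ)) ≤ √((x : ℝ) / ε) := by
      apply Real.sqrt_le_sqrt
      rw [le_div_iff₀ g5]
      nlinarith
    have h6 : √(5 * (x : ℝ)) = √5 * Real.exp (L / 2) := by
      rw [Real.sqrt_mul (by norm_num), ← hexp, ← Real.exp_half]
    have h7 : (2.2 : ℝ) ≤ √5 := by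
      apply Real.le_sqrt_of_sq_le
      norm_num
    have h8 : Real.exp (L / 2) = Real.exp (4 / 13 * L) * Real.exp (5 / 26 * L) := by
      rw [← Real.exp_add]; congr 1; ring
    have h9 := ns_exp5 L hL
    have h10 : (1 : ℝ) ≤ Real.exp (4 / 13 * L) := Real.one_le_exp (by linarith)
    have h11 : 2.2 * (28 * Real.exp (4 / 13 * L)) ≤ √5 * Real.exp (L / 2) := by
      apply mul_le_mul h7 _ (by positivity) (by positivity)
      rw [h8, mul_comm]
      exact mul_le_mul_of_nonneg_left h9 (Real.exp_pos _).le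
    have h12 : 3.7 * (YY x : ℝ) ^ 2 / (x : ℝ) ^ 2 = 3.7 * ((YY x : ℝ) ^ 2 / (x : ℝ) ^ 2) := by ring
    rw [h12]
    linarith
  have hB : 8 * (nb * (20.2 * √((x : ℝ) / ε)) + 3.7 * (YY x : ℝ) ^ 2 / (x : ℝ) ^ 2 + 1) *
        ((4 * (R : ℝ) + 14) / 15) ^ 2 ≤
      x * (164 * (nb : ℝ) * ((4 * (R : ℝ) + 14) / 15) ^ 2 * Real.exp (-L / 2) / √ε) := by
    have h1 : x * (164 * (nb : ℝ) * ((4 * (R : ℝ) + 14) / 15) ^ 2 * Real.exp (-L / 2) / √ε) =
        164 * (nb : ℝ) * √((x : ℝ) / ε) * ((4 * (R : ℝ) + 14) / 15) ^ 2 := by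
      rw [hsq]; ring
    rw [h1]
    apply mul_le_mul_of_nonneg_right _ (by positivity)
    have h2 : √((x : ℝ) / ε) ≤ nb * √((x : ℝ) / ε) :=
      le_mul_of_one_le_left (Real.sqrt_nonneg _) hnb
    linarith
  -- the cube root term
  have hM : mm x * Real.log ((x : ℝ) ^ 2 + 3 * x) ≤ 0.11 * x := by
    have hpos : (0 : ℝ) < (x : ℝ) ^ 2 + 3 * x := by positivity
    have h1 : (mm x : ℝ) ≤ ((x : ℝ) ^ 2 + 3 * x) ^ ((1 : ℝ) / 3) := Nat.floor_le (by positivity)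
    have h2 : Real.log ((x : ℝ) ^ 2 + 3 * x) ≤ 2 * L + 0.0000001 := by
      have h3 : (x : ℝ) ^ 2 + 3 * x = x * x * (1 + 3 * (1 / x)) := by field_simp
      rw [h3, Real.log_mul (by positivity) (by positivity), Real.log_mul hx0.ne' hx0.ne', ← hLdef]
      have h4 := Real.log_le_sub_one_of_pos (show (0 : ℝ) < 1 + 3 * (1 / x) by positivity)
      linarith
    have h2' : 0 ≤ Real.log ((x : ℝ) ^ 2 + 3 * x) := by
      apply Real.log_nonneg
      nlinarith
    have h5 : ((x : ℝ) ^ 2 + 3 * x) ^ ((1 : ℝ) / 3) ≤ Real.exp (2 * L / 3 + 0.0000001) := by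
      rw [Real.rpow_def_of_pos hpos]
      exact Real.exp_le_exp.2 (by linarith)
    have h6 : Real.exp (2 * L / 3 + 0.0000001) ≤ 1.00001 * Real.exp (2 * L / 3) := by
      rw [Real.exp_add, mul_comm]
      apply mul_le_mul_of_nonneg_right _ (Real.exp_pos _).le
      have h4 := Real.exp_bound_div_one_sub_of_interval (x := 0.0000001)
        (by norm_num) (by norm_num)
      refine h4.trans (by norm_num)
    have h7 : mm x * Real.log ((x : ℝ) ^ 2 + 3 * x) ≤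
        1.00001 * Real.exp (2 * L / 3) * (2 * L + 0.0000001) :=
      mul_le_mul (h1.trans (h5.trans h6)) h2 h2' (by positivity)
    have h8 : (x : ℝ) = Real.exp (2 * L / 3) * Real.exp (L / 3) := by
      rw [← hexp, ← Real.exp_add]; congr 1; ring
    have h9 := ns_exp3 L hL
    have h10 : 1.00001 * (2 * L + 0.0000001) ≤ 0.11 * Real.exp (L / 3) := by linarith
    have h11 : 0.11 * (x : ℝ) = Real.exp (2 * L / 3) * (0.11 * Real.exp (L / 3)) := by
      rw [h8]; ring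
    rw [h11]
    refine h7.trans ?_
    have h12 : 1.00001 * Real.exp (2 * L / 3) * (2 * L + 0.0000001) =
        Real.exp (2 * L / 3) * (1.00001 * (2 * L + 0.0000001)) := by ring
    rw [h12]
    exact mul_le_mul_of_nonneg_left h10 (Real.exp_pos _).le
  -- combine
  set A : ℝ := 4 / 15 * (1 + ε) * (2 / 13 * L - Real.log κ + 0.000001) / g with hAdef
  set B : ℝ := 164 * (nb : ℝ) * ((4 * (R : ℝ) + 14) / 15) ^ 2 * Real.exp (-L / 2) / √ε with hBdef
  have hAB0 : 0 ≤ 4 / 15 * ((1 + ε) * x * Real.log ((YY x : ℝ) / ((κ * x : ℕ) : ℝ))) / GG R +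
      8 * (nb * (20.2 * √((x : ℝ) / ε)) + 3.7 * (YY x : ℝ) ^ 2 / (x : ℝ) ^ 2 + 1) *
        ((4 * (R : ℝ) + 14) / 15) ^ 2 := by positivity
  have hC : Real.log (YY x) *
       (4 / 15 * ((1 + ε) * x * Real.log ((YY x : ℝ) / ((κ * x : ℕ) : ℝ))) / GG R +
      8 * (nb * (20.2 * √((x : ℝ) / ε)) + 3.7 * (YY x : ℝ) ^ 2 / (x : ℝ) ^ 2 + 1) *
        ((4 * (R : ℝ) + 14) / 15) ^ 2) ≤ x * (15 / 13 * (L + 0.000001) * (A + B)) := by
    have h1 : x * (15 / 13 * (L + 0.000001) * (A + B)) =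
        (15 / 13 * (L + 0.000001)) * (x * A + x * B) := by ring
    rw [h1]
    apply mul_le_mul _ (add_le_add hA hB) hAB0 (by linarith)
    linarith
  have hxL : L ≤ 0.001 * x := by
    have h1 := Real.add_one_le_exp (L / 2)
    have h2 : (x : ℝ) = Real.exp (L / 2) * Real.exp (L / 2) := by
      rw [← hexp, ← Real.exp_add]; congr 1; ring
    have h3 : (3.9e7 : ℝ) ≤ Real.exp (L / 2) * Real.exp (L / 2) := by rw [← h2]; exact hX
    have h4 : (6000 : ℝ) ≤ Real.exp (L / 2) := by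
      by_contra hcon
      push Not at hcon
      have := Real.exp_pos (L / 2)
      nlinarith
    have h5 : L ≤ 2 * Real.exp (L / 2) := by linarith
    rw [h2]
    nlinarith
  have h1 := mul_le_mul_of_nonneg_left g11 hx0.le
  have h2 : (x : ℝ) * (1.1056 * (1 + (κ : ℝ)) + 0.12 + 15 / 13 * (L + 0.000001) * (A + B)) =
      1.1056 * x + 1.1056 * (κ * x) + 0.12 * x + x * (15 / 13 * (L + 0.000001) * (A + B)) := by
    ring
  rw [h2] at h1
  have h3 : ((x : ℝ) - 2) * (L + 1) = x * (L + 1) - 2 * (L + 1) := by ring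
  rw [h3]
  linarith

end Pool.Agent.Lib.MP_bf4c7f_lp
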