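import Pool.Agent.Lib.MP_bf4c7f_lp.NumDefs

/-! ROW NT: the range `200 ≤ x ≤ exp 17.5`. -/

set_option autoImplicit false

namespace Pool.Agent.Lib.MP_bf4c7f_lp

open Finset

private theorem NT_exp_le (p q : ℕ) (hq : q ≠ 0) (E : ℝ) (hE : 0 ≤ E)
    (h : (2.7182818286 : ℝ) ^ p ≤ E ^ q) : Real.exp ((p : ℝ) / q) ≤ E := by
  have hq' : (q : ℝ) ≠ 0 := by exact_mod_cast hq
  rw [← pow_le_pow_iff_left₀ (Real.exp_pos _).le hE hq, ← Real.exp_nat_mul]
  have h1 : (q : ℝ) * ((p : ℝ) / q) = p * 1 := by field_simp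
  rw [h1, Real.exp_nat_mul]
  exact (pow_le_pow_left₀ (Real.exp_pos _).le Real.exp_one_lt_d9.le p).trans h

private theorem NT_exp_neg (p q : ℕ) (hq : q ≠ 0) (D : ℝ) (hD : 0 < D)
    (h : 1 ≤ (2.7182818283 : ℝ) ^ p * D ^ q) : Real.exp (-((p : ℝ) / q)) ≤ D := by
  have hq' : (q : ℝ) ≠ 0 := by exact_mod_cast hq
  rw [Real.exp_neg, inv_le_comm₀ (Real.exp_pos _) hD,
    ← pow_le_pow_iff_left₀ (inv_nonneg.2 hD.le) (Real.exp_pos _).le hq, ← Real.exp_nat_mul]
  have h1 : (q : ℝ) * ((p : ℝ) / q) = p * 1 := by field_simp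
  rw [h1, Real.exp_nat_mul, inv_pow, inv_le_iff_one_le_mul₀ (pow_pos hD q)]
  refine h.trans ?_
  exact mul_le_mul_of_nonneg_right
    (pow_le_pow_left₀ (by norm_num) Real.exp_one_gt_d9.le p) (pow_pos hD q).le

private theorem NT_reg (L a b Ea Eb D : ℝ) (hab : a < b) (ha : a ≤ L) (hb : L ≤ b)
    (ha0 : 0 ≤ a)
    (h1 : Real.exp (2 * a / 13) ≤ Ea) (h2 : Real.exp (2 * b / 13) ≤ Eb)
    (h3 : Real.exp (-(a / 3)) ≤ D)
    (ca : 1.111128 * (1 + 1.0008 * Ea) + 1.0051 * D * (2 * b + 0.015) < 0.99 * (a + 1))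
    (cb : 1.111128 * (1 + 1.0008 * Eb) + 1.0051 * D * (2 * b + 0.015) < 0.99 * (b + 1)) :
    1.111128 * (1 + 1.0008 * Real.exp (2 * L / 13))
      + 1.0051 * Real.exp (-(L / 3)) * (2 * L + 0.015) < 0.99 * (L + 1) := by
  have hba : 0 < b - a := sub_pos.2 hab
  obtain ⟨u, v, hu, hv, huv, hL⟩ : ∃ u v : ℝ, 0 ≤ u ∧ 0 ≤ v ∧ u + v = 1 ∧ L = u * a + v * b := by
    refine ⟨(b - L) / (b - a), (L - a) / (b - a), div_nonneg (by linarith) hba.le,
      div_nonneg (by linarith) hba.le, ?_, ?_⟩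
    · field_simp
      ring
    · field_simp
      ring
  have hc := convexOn_exp.2 (Set.mem_univ (2 * a / 13)) (Set.mem_univ (2 * b / 13)) hu hv huv
  simp only [smul_eq_mul] at hc
  have e1 : u * (2 * a / 13) + v * (2 * b / 13) = 2 * L / 13 := by
    rw [hL]
    ring
  rw [e1] at hc
  have hE : Real.exp (2 * L / 13) ≤ u * Ea + v * Eb :=
    hc.trans (add_le_add (mul_le_mul_of_nonneg_left h1 hu) (mul_le_mul_of_nonneg_left h2 hv))
  have hD : Real.exp (-(L / 3)) ≤ D :=
    (Real.exp_le_exp.2 (by linarith)).trans h3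
  have hX : 1.0051 * Real.exp (-(L / 3)) * (2 * L + 0.015) ≤ 1.0051 * D * (2 * b + 0.015) := by
    have hD0 : 0 ≤ D := (Real.exp_pos _).le.trans hD
    have hL0 : 0 ≤ 2 * L + 0.015 := by linarith
    have s1 : 1.0051 * Real.exp (-(L / 3)) ≤ 1.0051 * D :=
      mul_le_mul_of_nonneg_left hD (by norm_num)
    exact mul_le_mul s1 (by linarith) hL0 (by positivity)
  set X := 1.0051 * D * (2 * b + 0.015) with hXd
  have key : 0 < u * (0.99 * (a + 1) - (1.111128 * (1 + 1.0008 * Ea) + X))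
      + v * (0.99 * (b + 1) - (1.111128 * (1 + 1.0008 * Eb) + X)) := by
    rcases eq_or_lt_of_le hu with h | h
    · have hv1 : v = 1 := by linarith
      rw [← h, hv1]
      linarith
    · have s1 := mul_pos h (sub_pos.2 ca)
      have s2 := mul_nonneg hv (sub_pos.2 cb).le
      linarith
  have key2 : u * (0.99 * (a + 1) - (1.111128 * (1 + 1.0008 * Ea) + X))
      + v * (0.99 * (b + 1) - (1.111128 * (1 + 1.0008 * Eb) + X))
      = 0.99 * (L + 1) - (1.111128 * (1 + 1.0008 * (u * Ea + v * Eb)) + X) := by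
    rw [hL]
    have : v = 1 - u := by linarith
    rw [this]
    ring
  linarith

private theorem NT_all (L : ℝ) (h0 : 21 / 4 ≤ L) (h1 : L ≤ 17.5) :
    1.111128 * (1 + 1.0008 * Real.exp (2 * L / 13))
      + 1.0051 * Real.exp (-(L / 3)) * (2 * L + 0.015) < 0.99 * (L + 1) := by
  have eA : Real.exp (2 * (21 / 4) / 13) ≤ 2.243 := by
    have := NT_exp_le 21 26 (by norm_num) 2.243 (by norm_num) (by norm_num)
    convert this using 2
    norm_num
  have e6 : Real.exp (2 * 6 / 13) ≤ 2.518 := by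
    have := NT_exp_le 12 13 (by norm_num) 2.518 (by norm_num) (by norm_num)
    convert this using 2
    norm_num
  have e7 : Real.exp (2 * 7 / 13) ≤ 2.936 := by
    have := NT_exp_le 14 13 (by norm_num) 2.936 (by norm_num) (by norm_num)
    convert this using 2
    norm_num
  have e9 : Real.exp (2 * 9 / 13) ≤ 3.994 := by
    have := NT_exp_le 18 13 (by norm_num) 3.994 (by norm_num) (by norm_num)
    convert this using 2
    norm_num
  have e12 : Real.exp (2 * 12 / 13) ≤ 6.336 := by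
    have := NT_exp_le 24 13 (by norm_num) 6.336 (by norm_num) (by norm_num)
    convert this using 2
    norm_num
  have e15 : Real.exp (2 * 15 / 13) ≤ 10.06 := by
    have := NT_exp_le 30 13 (by norm_num) 10.06 (by norm_num) (by norm_num)
    convert this using 2
    norm_num
  have eB : Real.exp (2 * 17.5 / 13) ≤ 14.78 := by
    have := NT_exp_le 35 13 (by norm_num) 14.78 (by norm_num) (by norm_num)
    convert this using 2
    norm_num
  have dA : Real.exp (-(21 / 4 / 3)) ≤ 0.174 := by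
    have := NT_exp_neg 7 4 (by norm_num) 0.174 (by norm_num) (by norm_num)
    convert this using 2
    norm_num
  have d6 : Real.exp (-(6 / 3)) ≤ 0.136 := by
    have := NT_exp_neg 2 1 (by norm_num) 0.136 (by norm_num) (by norm_num)
    convert this using 2
    norm_num
  have d7 : Real.exp (-(7 / 3)) ≤ 0.097 := by
    have := NT_exp_neg 7 3 (by norm_num) 0.097 (by norm_num) (by norm_num)
    convert this using 2
    norm_num
  have d9 : Real.exp (-(9 / 3)) ≤ 0.05 := by
    have := NT_exp_neg 3 1 (by norm_num) 0.05 (by norm_num) (by norm_num)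
    convert this using 2
    norm_num
  have d12 : Real.exp (-(12 / 3)) ≤ 0.019 := by
    have := NT_exp_neg 4 1 (by norm_num) 0.019 (by norm_num) (by norm_num)
    convert this using 2
    norm_num
  have d15 : Real.exp (-(15 / 3)) ≤ 0.007 := by
    have := NT_exp_neg 5 1 (by norm_num) 0.007 (by norm_num) (by norm_num)
    convert this using 2
    norm_num
  rcases le_total L 6 with k6 | k6
  · exact NT_reg L (21 / 4) 6 _ _ _ (by norm_num) h0 k6 (by norm_num) eA e6 dA (by norm_num)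
      (by norm_num)
  rcases le_total L 7 with k7 | k7
  · exact NT_reg L 6 7 _ _ _ (by norm_num) k6 k7 (by norm_num) e6 e7 d6 (by norm_num)
      (by norm_num)
  rcases le_total L 9 with k9 | k9
  · exact NT_reg L 7 9 _ _ _ (by norm_num) k7 k9 (by norm_num) e7 e9 d7 (by norm_num)
      (by norm_num)
  rcases le_total L 12 with k12 | k12
  · exact NT_reg L 9 12 _ _ _ (by norm_num) k9 k12 (by norm_num) e9 e12 d9 (by norm_num)
      (by norm_num)
  rcases le_total L 15 with k15 | k15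
  · exact NT_reg L 12 15 _ _ _ (by norm_num) k12 k15 (by norm_num) e12 e15 d12 (by norm_num)
      (by norm_num)
  exact NT_reg L 15 17.5 _ _ _ (by norm_num) k15 h1 (by norm_num) e15 eB d15 (by norm_num)
    (by norm_num)

/-- ROW NT (a) -/
theorem mm_spec (x : ℕ) : x ^ 2 + 3 * x < (mm x + 1) ^ 3 := by
  have h1 : ((x : ℝ) ^ 2 + 3 * x) ^ ((1 : ℝ) / 3) < (mm x : ℝ) + 1 := Nat.lt_floor_add_one _
  have h0 : (0 : ℝ) ≤ (x : ℝ) ^ 2 + 3 * x := by positivity
  have h2 : ((x : ℝ) ^ 2 + 3 * x) = (((x : ℝ) ^ 2 + 3 * x) ^ ((1 : ℝ) / 3)) ^ 3 := by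
    generalize (x : ℝ) ^ 2 + 3 * x = y at h0 ⊢
    rw [← Real.rpow_natCast, ← Real.rpow_mul h0]
    norm_num
  have h3 : ((x : ℝ) ^ 2 + 3 * x) < ((mm x : ℝ) + 1) ^ 3 := by
    rw [h2]
    exact pow_lt_pow_left₀ h1 (Real.rpow_nonneg h0 _) (by norm_num)
  exact_mod_cast h3

private theorem NT_exp_small (y z : ℝ) (hy : y < 1) (hz : 1 ≤ z * (1 - y)) :
    Real.exp y ≤ z := by
  have h1 := Real.add_one_le_exp (-y)
  have h2 : 0 < 1 - y := by linarith
  have h3 : Real.exp y * (1 - y) ≤ 1 := by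
    calc Real.exp y * (1 - y) ≤ Real.exp y * Real.exp (-y) :=
          mul_le_mul_of_nonneg_left (by linarith) (Real.exp_pos _).le
      _ = 1 := by rw [← Real.exp_add, add_neg_cancel, Real.exp_zero]
  have h4 : Real.exp y * (1 - y) ≤ z * (1 - y) := h3.trans hz
  exact le_of_mul_le_mul_right h4 h2

/-- ROW NT (b).  Divide by `x`, `L = log x`: the condition is about
`L + 1 - 1.1056 (1 + exp(2L/13)) - 2 L exp(-L/3) > 0` up to terms `O(L/x)`; the margin is `1.1` at
`x = 200`, at least `2` for `1300 ≤ x ≤ 16000000`, and `0.95` at `L = 17.5`.  Cut `[5.29, 17.5]`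
into a few intervals; on each bound the small terms at the left end point and use the concavity
of `L - 1.1056 exp(2L/13)` (check both end points). -/
theorem triv_num (x : ℕ) (hx : 200 ≤ x) (hL : Real.log x ≤ 17.5) :
    1.1056 * ((x : ℝ) + 1) + 1.1056 * (YY x : ℝ) + mm x * Real.log ((x : ℝ) ^ 2 + 3 * x) <
      ((x : ℝ) - 2) * (Real.log x + 1) := by
  have hxR : (200 : ℝ) ≤ x := by exact_mod_cast hx
  have hx0 : (0 : ℝ) < x := by linarith
  set L := Real.log x with hLd
  have hexpL : Real.exp L = x := Real.exp_log hx0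
  have hL0 : 21 / 4 ≤ L := by
    rw [hLd, Real.le_log_iff_exp_le hx0]
    refine le_trans ?_ hxR
    have e1 : (21 / 4 : ℝ) = ((21 : ℕ) : ℝ) / ((4 : ℕ) : ℝ) := by norm_num
    rw [e1]
    exact NT_exp_le 21 4 (by norm_num) 200 (by norm_num) (by norm_num)
  have hinv : 1 / (x : ℝ) ≤ 1 / 200 := one_div_le_one_div_of_le (by norm_num) hxR
  -- logarithms
  have hlog1 : Real.log ((x : ℝ) + 1) ≤ L + 1 / 200 := by
    have s1 : (x : ℝ) + 1 = x * (1 + 1 / x) := by
      field_simp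
    rw [s1, Real.log_mul hx0.ne' (by positivity)]
    have s2 := Real.log_le_sub_one_of_pos (show (0 : ℝ) < 1 + 1 / x by positivity)
    linarith
  have hlog2 : Real.log ((x : ℝ) ^ 2 + 3 * x) ≤ 2 * L + 0.015 := by
    have s1 : (x : ℝ) ^ 2 + 3 * x = x * x * (1 + 3 * (1 / x)) := by
      field_simp
    rw [s1, Real.log_mul (by positivity) (by positivity), Real.log_mul hx0.ne' hx0.ne']
    have s2 := Real.log_le_sub_one_of_pos (show (0 : ℝ) < 1 + 3 * (1 / x) by positivity)
    linarith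
  have hlog2' : 0 ≤ Real.log ((x : ℝ) ^ 2 + 3 * x) := Real.log_nonneg (by nlinarith)
  -- the floor functions
  have hY : (YY x : ℝ) ≤ (x + 1) * (1.0008 * Real.exp (2 * L / 13)) := by
    have s0 : (0 : ℝ) < (x : ℝ) + 1 := by positivity
    have s1 : (YY x : ℝ) ≤ ((x : ℝ) + 1) ^ ((15 : ℝ) / 13) :=
      Nat.floor_le (Real.rpow_nonneg s0.le _)
    have s2 : ((x : ℝ) + 1) ^ ((15 : ℝ) / 13)
        = ((x : ℝ) + 1) * Real.exp (Real.log ((x : ℝ) + 1) * (2 / 13)) := by
      rw [show (15 : ℝ) / 13 = 1 + 2 / 13 by norm_num, Real.rpow_add s0, Real.rpow_one,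
        Real.rpow_def_of_pos s0]
    have s3 : Real.exp (Real.log ((x : ℝ) + 1) * (2 / 13))
        ≤ 1.0008 * Real.exp (2 * L / 13) := by
      calc Real.exp (Real.log ((x : ℝ) + 1) * (2 / 13))
          ≤ Real.exp (1 / 1300 + 2 * L / 13) := Real.exp_le_exp.2 (by linarith)
        _ = Real.exp (1 / 1300) * Real.exp (2 * L / 13) := Real.exp_add _ _
        _ ≤ 1.0008 * Real.exp (2 * L / 13) :=
          mul_le_mul_of_nonneg_right (NT_exp_small _ _ (by norm_num) (by norm_num))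
            (Real.exp_pos _).le
    rw [s2] at s1
    exact s1.trans (mul_le_mul_of_nonneg_left s3 s0.le)
  have hm : (mm x : ℝ) ≤ x * (1.0051 * Real.exp (-(L / 3))) := by
    have s0 : (0 : ℝ) < (x : ℝ) ^ 2 + 3 * x := by positivity
    have s1 : (mm x : ℝ) ≤ ((x : ℝ) ^ 2 + 3 * x) ^ ((1 : ℝ) / 3) :=
      Nat.floor_le (Real.rpow_nonneg s0.le _)
    rw [Real.rpow_def_of_pos s0] at s1
    refine s1.trans ?_
    calc Real.exp (Real.log ((x : ℝ) ^ 2 + 3 * x) * (1 / 3))
        ≤ Real.exp (L + (0.005 + -(L / 3))) := Real.exp_le_exp.2 (by linarith)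
      _ = x * (Real.exp 0.005 * Real.exp (-(L / 3))) := by
        rw [Real.exp_add, Real.exp_add, hexpL]
      _ ≤ x * (1.0051 * Real.exp (-(L / 3))) :=
        mul_le_mul_of_nonneg_left (mul_le_mul_of_nonneg_right
          (NT_exp_small _ _ (by norm_num) (by norm_num)) (Real.exp_pos _).le) hx0.le
  have hmL : mm x * Real.log ((x : ℝ) ^ 2 + 3 * x)
      ≤ x * (1.0051 * Real.exp (-(L / 3))) * (2 * L + 0.015) :=
    mul_le_mul hm hlog2 hlog2' (by positivity)
  have hmain := NT_all L hL0 hL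
  have hE := Real.exp_pos (2 * L / 13)
  have h5 : 1.1056 * ((x : ℝ) + 1) + 1.1056 * (YY x : ℝ)
      ≤ x * (1.111128 * (1 + 1.0008 * Real.exp (2 * L / 13))) := by
    have s1 : (x : ℝ) + 1 ≤ 1.005 * x := by linarith
    have s2 : 1.1056 * ((x : ℝ) + 1) + 1.1056 * (YY x : ℝ)
        ≤ 1.1056 * (((x : ℝ) + 1) * (1 + 1.0008 * Real.exp (2 * L / 13))) := by
      linarith
    refine s2.trans ?_
    have s3 : ((x : ℝ) + 1) * (1 + 1.0008 * Real.exp (2 * L / 13))
        ≤ 1.005 * x * (1 + 1.0008 * Real.exp (2 * L / 13)) :=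
      mul_le_mul_of_nonneg_right s1 (by positivity)
    linarith
  have h6 : x * (1.111128 * (1 + 1.0008 * Real.exp (2 * L / 13))
      + 1.0051 * Real.exp (-(L / 3)) * (2 * L + 0.015)) < x * (0.99 * (L + 1)) :=
    mul_lt_mul_of_pos_left hmain hx0
  have h7 : x * (0.99 * (L + 1)) ≤ ((x : ℝ) - 2) * (L + 1) := by
    have s1 : 0.99 * (x : ℝ) ≤ x - 2 := by linarith
    have s2 := mul_le_mul_of_nonneg_right s1 (show (0 : ℝ) ≤ L + 1 by linarith)
    linarith
  linarith

end Pool.Agent.Lib.MP_bf4c7f_lp
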