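import Pool.Agent.Lib.MP_bf4c7f_lp.Defs

/-! ROW SMALL: the range `x < 200`, by computation. -/

set_option autoImplicit false

namespace Pool.Agent.Lib.MP_bf4c7f_lp

/-- no divisor `d` of `p` with `2 ≤ d ≤ k`, `d < p` -/
private def noDiv (p : ℕ) : ℕ → Bool
  | 0 => true
  | k + 1 => (decide (k + 1 < 2) || decide (p ≤ k + 1) || decide (p % (k + 1) ≠ 0)) && noDiv p k

private lemma noDiv_spec (p : ℕ) : ∀ k, noDiv p k = true → ∀ d, 2 ≤ d → d ≤ k → d < p → ¬ d ∣ p := by
  intro k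
  induction k with
  | zero => intro _ d h1 h2; omega
  | succ k ih =>
    intro h d h1 h2 h3
    rw [noDiv, Bool.and_eq_true] at h
    rcases Nat.lt_or_ge k d with h4 | h4
    · have h5 : d = k + 1 := by omega
      subst h5
      have h6 := h.1
      simp only [Bool.or_eq_true, decide_eq_true_eq] at h6
      intro h7
      rcases h6 with (h6 | h6) | h6
      · omega
      · omega
      · exact h6 (Nat.mod_eq_zero_of_dvd h7)
    · exact ih h.2 d h1 h4 h3

private def pr (p : ℕ) : Bool := decide (2 ≤ p) && decide (p < 40000) && noDiv p 200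

private lemma pr_spec (p : ℕ) (h : pr p = true) : p.Prime := by
  unfold pr at h
  simp only [Bool.and_eq_true, decide_eq_true_eq] at h
  obtain ⟨⟨h1, h2⟩, h3⟩ := h
  by_contra hnp
  have h4 : 2 ≤ p.minFac := (Nat.minFac_prime (by omega)).two_le
  have h5 : p.minFac ^ 2 ≤ p := Nat.minFac_sq_le_self (by omega) hnp
  have h6 : p.minFac ≤ 200 := by
    by_contra hc
    push Not at hc
    have : 201 ^ 2 ≤ p.minFac ^ 2 := Nat.pow_le_pow_left hc 2
    omega
  have h7 : p.minFac < p := by nlinarith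
  exact noDiv_spec p 200 h3 _ h4 h6 h7 (Nat.minFac_dvd p)

private def chk (x : ℕ) : ℕ → List (ℕ × ℕ) → Bool
  | lo, [] => decide (x ^ 2 + 2 * x < lo)
  | lo, (m, p) :: t => decide (lo < m * p) && decide (m * p < lo + x) && pr p &&
      decide ((x + 1) ^ 15 < p ^ 13) && chk x (m * p) t

private lemma chk_spec (x : ℕ) : ∀ (l : List (ℕ × ℕ)) (lo : ℕ), chk x lo l = true →
    ∀ a, lo ≤ a → a ≤ x ^ 2 + 2 * x → ∃ p, p.Prime ∧ Hit a x p ∧ (x + 1) ^ 15 < p ^ 13 := by
  intro l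
  induction l with
  | nil =>
    intro lo h a h1 h2
    rw [chk, decide_eq_true_eq] at h
    omega
  | cons q t ih =>
    intro lo h a h1 h2
    obtain ⟨m, p⟩ := q
    rw [chk] at h
    simp only [Bool.and_eq_true, decide_eq_true_eq] at h
    obtain ⟨⟨⟨⟨h3, h4⟩, h5⟩, h6⟩, h7⟩ := h
    rcases Nat.lt_or_ge a (m * p) with h8 | h8
    · exact ⟨p, pr_spec p h5, ⟨m * p, h8, by omega, dvd_mul_left p m⟩, h6⟩
    · exact ih (m * p) h7 a h8 h2

/-- for `x = 4, 5, ...`: pairs `(m, p)`, the numbers `m p` form the chain -/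
private def tab : List (List (ℕ × ℕ)) := [
  [(2, 7), (1, 17), (1, 19), (2, 11), (1, 23), (2, 13)],
  [(1, 23), (2, 13), (1, 29), (3, 11), (1, 37)],
  [(2, 17), (3, 13), (4, 11), (1, 47), (4, 13)],
  [(1, 47), (1, 53), (1, 59), (5, 13)],
  [(2, 31), (3, 23), (4, 19), (1, 83)],
  [(1, 79), (3, 29), (5, 19), (1, 103)],
  [(1, 97), (2, 53), (5, 23), (4, 31)],
  [(2, 59), (1, 127), (1, 137), (2, 73)],
  [(2, 71), (1, 151), (7, 23), (4, 43)],
  [(1, 167), (1, 179), (1, 191), (7, 29)],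
  [(2, 97), (9, 23), (3, 73), (8, 29)],
  [(1, 223), (3, 79), (1, 251), (5, 53)],
  [(2, 127), (1, 269), (4, 71), (2, 149)],
  [(7, 41), (3, 101), (11, 29), (5, 67)],
  [(3, 107), (1, 337), (6, 59), (7, 53)],
  [(1, 359), (8, 47), (2, 197), (4, 103)],
  [(2, 199), (3, 139), (4, 109), (2, 227)],
  [(1, 439), (2, 229), (2, 239), (6, 83)],
  [(2, 241), (1, 503), (4, 131), (5, 109)],
  [(2, 263), (4, 137), (1, 569), (3, 197)],
  [(3, 191), (4, 149), (1, 619), (6, 107)],
  [(7, 89), (1, 647), (11, 61), (5, 139)],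
  [(2, 337), (3, 233), (4, 181), (7, 107)],
  [(1, 727), (3, 251), (2, 389), (12, 67)],
  [(11, 71), (8, 101), (5, 167), (2, 431)],
  [(1, 839), (2, 433), (6, 149), (2, 461)],
  [(2, 449), (9, 103), (4, 239), (5, 197)],
  [(7, 137), (5, 197), (1, 1013), (7, 149)],
  [(14, 73), (4, 263), (2, 541), (8, 139)],
  [(1, 1087), (3, 373), (1, 1151), (6, 197)],
  [(2, 577), (1, 1187), (20, 61), (7, 179)],
  [(1, 1223), (3, 419), (1, 1291), (4, 331)],
  [(2, 647), (3, 443), (6, 227), (11, 127)],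
  [(1, 1367), (2, 701), (2, 719), (22, 67)],
  [(14, 103), (2, 739), (15, 101), (16, 97)],
  [(4, 379), (1, 1553), (7, 227), (1, 1627)],
  [(1, 1597), (4, 409), (7, 239), (16, 107)],
  [(2, 839), (2, 859), (6, 293), (3, 599)],
  [(2, 881), (3, 601), (4, 461), (12, 157)],
  [(1, 1847), (1, 1889), (1, 1931), (1, 1973)],
  [(2, 967), (3, 659), (20, 101), (1, 2063)],
  [(6, 337), (2, 1033), (10, 211), (6, 359)],
  [(14, 151), (17, 127), (1, 2203), (8, 281)],
  [(1, 2207), (3, 751), (6, 383), (8, 293)],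
  [(2, 1151), (4, 587), (5, 479), (1, 2441)],
  [(1, 2399), (1, 2447), (5, 499), (1, 2543)],
  [(2, 1249), (9, 283), (15, 173), (4, 661)],
  [(23, 113), (3, 883), (1, 2699), (1, 2749)],
  [(14, 193), (1, 2753), (4, 701), (5, 571)],
  [(7, 401), (3, 953), (1, 2909), (11, 269)],
  [(3, 971), (2, 1483), (1, 3019), (10, 307)],
  [(1, 3023), (17, 181), (10, 313), (16, 199)],
  [(2, 1567), (3, 1063), (4, 811), (1, 3299)],
  [(17, 191), (9, 367), (1, 3359), (5, 683)],
  [(1, 3361), (2, 1709), (25, 139), (4, 883)],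
  [(25, 139), (1, 3533), (10, 359), (7, 521)],
  [(14, 257), (8, 457), (5, 743), (9, 419)],
  [(1, 3719), (1, 3779), (11, 349), (7, 557)],
  [(23, 167), (2, 1951), (3, 1321), (8, 503)],
  [(1, 3967), (1, 4027), (18, 227), (6, 691)],
  [(1, 4093), (4, 1039), (1, 4219), (2, 2141)],
  [(2, 2111), (2, 2143), (1, 4349), (3, 1471)],
  [(14, 311), (9, 491), (1, 4483), (12, 379)],
  [(7, 641), (29, 157), (31, 149), (5, 937)],
  [(2, 2311), (9, 521), (15, 317), (2, 2411)],
  [(1, 4759), (3, 1609), (2, 2447), (6, 827)],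
  [(2, 2447), (7, 709), (10, 503), (1, 5099)],
  [(1, 5039), (4, 1277), (6, 863), (5, 1049)],
  [(2, 2591), (29, 181), (27, 197), (17, 317)],
  [(7, 761), (1, 5399), (1, 5471), (23, 241)],
  [(13, 421), (5, 1109), (5, 1123), (2, 2843)],
  [(1, 5623), (27, 211), (29, 199), (35, 167)],
  [(2, 2887), (1, 5849), (4, 1481), (7, 857)],
  [(1, 5927), (2, 3001), (6, 1013), (34, 181)],
  [(2, 3041), (3, 2053), (4, 1559), (24, 263)],
  [(17, 367), (1, 6317), (5, 1279), (1, 6473)],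
  [(14, 457), (4, 1619), (1, 6553), (8, 829)],
  [(7, 937), (3, 2213), (1, 6719), (13, 523)],
  [(2, 3361), (1, 6803), (4, 1721), (35, 199)],
  [(22, 313), (1, 6967), (8, 881), (1, 7129)],
  [(2, 3527), (32, 223), (1, 7219), (6, 1217)],
  [(31, 233), (1, 7307), (19, 389), (16, 467)],
  [(2, 3697), (27, 277), (3, 2521), (32, 239)],
  [(3, 2521), (1, 7649), (6, 1289), (7, 1117)],
  [(1, 7741), (3, 2609), (6, 1319), (19, 421)],
  [(1, 7919), (2, 4003), (1, 8093), (20, 409)],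
  [(2, 4049), (3, 2729), (4, 2069), (35, 239)],
  [(17, 487), (1, 8369), (11, 769), (4, 2137)],
  [(2, 4231), (3, 2851), (4, 2161), (5, 1747)],
  [(1, 8647), (9, 971), (1, 8831), (1, 8923)],
  [(14, 631), (2, 4463), (29, 311), (3, 3037)],
  [(7, 1289), (9, 1013), (30, 307), (8, 1163)],
  [(34, 271), (41, 227), (6, 1567), (1, 9497)],
  [(23, 409), (2, 4751), (2, 4799), (27, 359)],
  [(2, 4801), (26, 373), (15, 653), (4, 2473)],
  [(41, 239), (3, 3299), (5, 1999), (1, 10093)],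
  [(2, 4999), (23, 439), (4, 2549), (2, 5147)],
  [(2, 5099), (38, 271), (6, 1733), (3, 3499)],
  [(14, 743), (27, 389), (44, 241), (5, 2141)],
  [(1, 10607), (1, 10709), (19, 569), (7, 1559)],
  [(2, 5407), (9, 1213), (3, 3673), (33, 337)],
  [(3, 3673), (49, 227), (6, 1871), (1, 11329)],
  [(47, 239), (2, 5669), (1, 11443), (4, 2887)],
  [(1, 11447), (3, 3851), (1, 11657), (9, 1307)],
  [(1, 11657), (9, 1307), (10, 1187), (24, 499)],
  [(7, 1697), (1, 11987), (2, 6047), (2, 6101)],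
  [(46, 263), (39, 313), (4, 3079), (8, 1553)],
  [(6, 2053), (52, 239), (2, 6269), (1, 12647)],
  [(2, 6271), (1, 12653), (4, 3191), (21, 613)],
  [(17, 751), (21, 613), (24, 541), (8, 1637)],
  [(11, 1181), (1, 13103), (15, 881), (1, 13327)],
  [(7, 1889), (1, 13337), (1, 13451), (5, 2713)],
  [(11, 1223), (1, 13567), (2, 6841), (4, 3449)],
  [(1, 13687), (37, 373), (3, 4639), (1, 14033)],
  [(2, 6961), (2, 7019), (42, 337), (10, 1427)],
  [(1, 14159), (3, 4759), (5, 2879), (23, 631)],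
  [(46, 313), (9, 1613), (4, 3659), (6, 2459)],
  [(1, 14639), (1, 14759), (1, 14879), (53, 283)],
  [(14, 1063), (9, 1667), (2, 7561), (3, 5081)],
  [(7, 2161), (16, 953), (35, 439), (17, 911)],
  [(2, 7687), (1, 15497), (1, 15619), (34, 463)],
  [(17, 919), (2, 7873), (7, 2267), (9, 1777)],
  [(2, 7937), (3, 5333), (23, 701), (24, 677)],
  [(1, 16127), (1, 16253), (11, 1489), (5, 3301)],
  [(2, 8191), (3, 5503), (4, 4159), (1, 16763)],
  [(7, 2377), (35, 479), (9, 1877), (1, 17021)],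
  [(2, 8447), (29, 587), (3, 5717), (37, 467)],
  [(1, 17159), (8, 2161), (6, 2903), (3, 5849)],
  [(3, 5807), (16, 1097), (1, 17683), (6, 2969)],
  [(23, 769), (3, 5939), (28, 641), (1, 18077)],
  [(13, 1381), (2, 9043), (3, 6073), (9, 2039)],
  [(1, 18223), (52, 353), (3, 6163), (11, 1693)],
  [(14, 1321), (13, 1433), (4, 4691), (1, 18899)],
  [(49, 383), (3, 6301), (1, 19037), (4, 4793)],
  [(2, 9521), (9, 2131), (44, 439), (49, 397)],
  [(1, 19319), (1, 19457), (5, 3919), (7, 2819)],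
  [(1, 19597), (8, 2467), (38, 523), (21, 953)],
  [(6, 3313), (2, 10009), (2, 10079), (1, 20297)],
  [(34, 593), (2, 10151), (1, 20443), (9, 2287)],
  [(2, 10223), (4, 5147), (30, 691), (8, 2609)],
  [(14, 1481), (3, 6959), (20, 1051), (1, 21163)],
  [(1, 21023), (61, 347), (10, 2131), (34, 631)],
  [(2, 10657), (2, 10729), (57, 379), (4, 5437)],
  [(44, 491), (4, 5437), (1, 21893), (1, 22039)],
  [(61, 359), (5, 4409), (39, 569), (7, 3191)],
  [(22, 1009), (2, 11173), (4, 5623), (1, 22639)],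
  [(14, 1607), (3, 7549), (23, 991), (2, 11471)],
  [(7, 3257), (53, 433), (1, 23099), (67, 347)],
  [(2, 11551), (69, 337), (4, 5851), (35, 673)],
  [(4, 5851), (35, 673), (54, 439), (1, 23857)],
  [(23, 1031), (2, 11933), (1, 24019), (4, 6043)],
  [(1, 24023), (3, 8059), (29, 839), (4, 6121)],
  [(3, 8111), (8, 3061), (19, 1297), (6, 4133)],
  [(49, 503), (17, 1459), (11, 2269), (5, 5023)],
  [(14, 1783), (9, 2791), (2, 12637), (10, 2543)],
  [(17, 1487), (4, 6359), (57, 449), (11, 2341)],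
  [(2, 12799), (43, 599), (42, 617), (9, 2897)],
  [(1, 25919), (3, 8693), (19, 1381), (1, 26399)],
  [(2, 13121), (39, 677), (1, 26561), (62, 431)],
  [(31, 857), (1, 26729), (1, 26891), (13, 2081)],
  [(1, 26893), (35, 773), (62, 439), (3, 9127)],
  [(7, 3889), (2, 13693), (9, 3061), (64, 433)],
  [(46, 599), (53, 523), (4, 6971), (7, 4007)],
  [(4, 6971), (7, 4007), (2, 14107), (14, 2027)],
  [(69, 409), (1, 28387), (6, 4759), (77, 373)],
  [(1, 28559), (23, 1249), (5, 5779), (1, 29063)],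
  [(2, 14449), (3, 9689), (4, 7309), (5, 5881)],
  [(7, 4177), (3, 9803), (11, 2689), (71, 419)],
  [(14, 2113), (1, 29753), (4, 7481), (65, 463)],
  [(1, 29927), (1, 30097), (1, 30269), (40, 761)],
  [(2, 15137), (26, 1171), (67, 457), (24, 1283)],
  [(20, 1531), (24, 1283), (78, 397), (1, 31139)],
  [(34, 911), (9, 3461), (2, 15661), (3, 10499)],
  [(1, 31327), (3, 10501), (79, 401), (6, 5309)],
  [(13, 2437), (34, 937), (9, 3559), (2, 16103)],
  [(4, 8009), (1, 32213), (49, 661), (29, 1123)],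
  [(3, 10799), (64, 509), (5, 6551), (66, 499)],
  [(22, 1489), (3, 10979), (68, 487), (16, 2081)],
  [(2, 16561), (51, 653), (44, 761), (5, 6733)],
  [(1, 33487), (76, 443), (50, 677), (48, 709)],
  [(2, 16927), (15, 2269), (18, 1901), (3, 11467)],
  [(7, 4889), (9, 3823), (1, 34591), (2, 17387)],
  [(39, 887), (2, 17389), (1, 34963), (7, 5021)],
  [(73, 479), (1, 35153), (1, 35339), (9, 3947)],
  [(82, 431), (39, 911), (4, 8929), (58, 619)],
  [(23, 1553), (3, 11969), (5, 7219), (13, 2791)],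
  [(2, 18049), (2, 18143), (25, 1459), (8, 4583)],
  [(1, 36479), (51, 719), (6, 6143), (2, 18523)],
  [(14, 2633), (1, 37049), (3, 12413), (7, 5347)],
  [(22, 1693), (2, 18719), (6, 6271), (13, 2909)],
  [(62, 607), (81, 467), (20, 1901), (10, 3821)],
  [(47, 809), (3, 12739), (71, 541), (35, 1103)],
  [(2, 19207), (1, 38609), (1, 38803), (63, 619)],
  [(2, 19403), (2, 19501), (19, 2063), (27, 1459)],
  [(34, 1153), (69, 571), (76, 521), (13, 3061)],
  [(7, 5657), (17, 2341), (2, 19997), (3, 13397)]]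

private lemma tab_ok : (List.range 196).all
    (fun i => chk (i + 4) ((i + 4) ^ 2 - (i + 4)) (tab.getD i [])) = true := by
  decide +kernel

/-- ROW SMALL (a).  For each `x` a chain `n_1 < ... < n_r` with `n_1 ≤ x^2 - 1`,
`n_(i+1) - n_i ≤ x - 1`, `n_r > x^2 + 2x` and primes `p_i ∣ n_i` with `(x+1)^15 < p_i^13` is enough
(4 or 5 numbers per `x`); table checked by `decide +kernel`. -/
theorem small_range (x a : ℕ) (hx : 4 ≤ x) (hx' : x < 200) (ha : x ^ 2 - x ≤ a)
    (ha' : a ≤ x ^ 2 + 2 * x) :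
    ∃ p, p.Prime ∧ Hit a x p ∧ (x + 1) ^ 15 < p ^ 13 := by
  have h := tab_ok
  rw [List.all_eq_true] at h
  have h1 := h (x - 4) (List.mem_range.2 (by omega))
  have e : x - 4 + 4 = x := by omega
  rw [e] at h1
  exact chk_spec x _ _ h1 a ha ha'

/-- ROW SMALL (b) -/
theorem oppermann_small (x : ℕ) (hx : 2 ≤ x) (hx' : x ≤ 3) :
    (∃ p, p.Prime ∧ Hit (x ^ 2 - x) x p ∧ x ^ 15 < p ^ 13) ∧
    (∃ p, p.Prime ∧ Hit (x ^ 2) x p ∧ x ^ 15 < p ^ 13) := by
  have hc : x = 2 ∨ x = 3 := by omega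
  rcases hc with rfl | rfl
  · exact ⟨⟨3, by norm_num, ⟨3, by norm_num, by norm_num, by norm_num⟩, by norm_num⟩,
      ⟨5, by norm_num, ⟨5, by norm_num, by norm_num, by norm_num⟩, by norm_num⟩⟩
  · exact ⟨⟨7, by norm_num, ⟨7, by norm_num, by norm_num, by norm_num⟩, by norm_num⟩,
      ⟨11, by norm_num, ⟨11, by norm_num, by norm_num, by norm_num⟩, by norm_num⟩⟩

/-- ROW SMALL (c) -/
theorem sqrt_small (n : ℕ) (hn : 8 ≤ n) (hn' : n < 16) :
    ∃ m p : ℕ, n < m ∧ (m - n) ^ 2 < n ∧ p.Prime ∧ p ∣ m ∧ n ^ 15 < p ^ 26 := by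
  have hc : n = 8 ∨ n = 9 ∨ n = 10 ∨ n = 11 ∨ n = 12 ∨ n = 13 ∨ n = 14 ∨ n = 15 := by omega
  rcases hc with rfl | rfl | rfl | rfl | rfl | rfl | rfl | rfl
  · exact ⟨10, 5, by norm_num, by norm_num, by norm_num, by norm_num, by norm_num⟩
  · exact ⟨11, 11, by norm_num, by norm_num, by norm_num, by norm_num, by norm_num⟩
  · exact ⟨11, 11, by norm_num, by norm_num, by norm_num, by norm_num, by norm_num⟩
  · exact ⟨13, 13, by norm_num, by norm_num, by norm_num, by norm_num, by norm_num⟩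
  · exact ⟨13, 13, by norm_num, by norm_num, by norm_num, by norm_num, by norm_num⟩
  · exact ⟨14, 7, by norm_num, by norm_num, by norm_num, by norm_num, by norm_num⟩
  · exact ⟨17, 17, by norm_num, by norm_num, by norm_num, by norm_num, by norm_num⟩
  · exact ⟨17, 17, by norm_num, by norm_num, by norm_num, by norm_num, by norm_num⟩

end Pool.Agent.Lib.MP_bf4c7f_lp
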