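import Pool.Agent.Lib.MP_bf4c7f_lp.SieveB
import Pool.Agent.Lib.MP_bf4c7f_lp.BinomA
import Pool.Agent.Lib.MP_bf4c7f_lp.BinomB
import Pool.Agent.Lib.MP_bf4c7f_lp.NumF1
import Pool.Agent.Lib.MP_bf4c7f_lp.NumF2
import Pool.Agent.Lib.MP_bf4c7f_lp.NumInf
import Pool.Agent.Lib.MP_bf4c7f_lp.NumT
import Pool.Agent.Lib.MP_bf4c7f_lp.NumS
import Pool.Agent.Lib.MP_bf4c7f_lp.Small

/-! Assembly. -/

set_option autoImplicit false

namespace Pool.Agent.Lib.MP_bf4c7f_lp

open Finset Pool.Agent.Lib.MP_bf4c7f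

lemma th_le (n : ℕ) : th n ≤ 1.1056 * n := theta_le_lin n

lemma le_YY (x p : ℕ) (h : p ^ 13 ≤ (x + 1) ^ 15) : p ≤ YY x := by
  unfold YY
  apply Nat.le_floor
  have h1 : ((p : ℝ)) ^ (13 : ℕ) ≤ ((x : ℝ) + 1) ^ (15 : ℕ) := by exact_mod_cast h
  have h2 : (p : ℝ) = ((p : ℝ) ^ (13 : ℕ)) ^ ((1 : ℝ) / 13) := by
    rw [← Real.rpow_natCast, ← Real.rpow_mul (Nat.cast_nonneg p)]
    norm_num
  have h3 : ((x : ℝ) + 1) ^ ((15 : ℝ) / 13) = (((x : ℝ) + 1) ^ (15 : ℕ)) ^ ((1 : ℝ) / 13) := by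
    rw [← Real.rpow_natCast, ← Real.rpow_mul (by positivity)]
    norm_num
  rw [h2, h3]
  exact Real.rpow_le_rpow (by positivity) h1 (by norm_num)

/-- the core theorem -/
theorem core (x a : ℕ) (hx : 4 ≤ x) (ha : x ^ 2 - x ≤ a) (ha' : a ≤ x ^ 2 + 2 * x) :
    ∃ p, p.Prime ∧ Hit a x p ∧ (x + 1) ^ 15 < p ^ 13 := by
  rcases lt_or_ge x 200 with hlt | hge
  · exact small_range x a hx hlt ha ha'
  by_contra hcon
  push Not at hcon
  have hy : ∀ p, Nat.Prime p → Hit a x p → p ≤ YY x := fun p hp hh => le_YY x p (hcon p hp hh)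
  have hlow := log_choose_ge a x (by omega) ha
  rcases le_total (Real.log x) 17.5 with hL | hL
  · have h1 := triv_num x hge hL
    have hYx : x + 1 ≤ YY x := le_YY x (x + 1) (Nat.pow_le_pow_right (by omega) (by norm_num))
    have h2 := log_choose_le a x (YY x) (YY x) (mm x) (by omega) ha ha' hYx (mm_spec x) hy
    have h3 := th_le (x + 1)
    have h4 := th_le (YY x)
    have h5 : ((Ioc (YY x) (YY x)).filter (fun p => Nat.Prime p ∧ Hit a x p)).card = 0 := by simp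
    rw [h5] at h2
    push_cast at h3
    simp only [Nat.cast_zero, mul_zero, add_zero] at h2
    linarith
  · obtain ⟨κ, R, nb, ε, g, hG⟩ : ∃ (κ R nb : ℕ) (ε g : ℝ), Good (Real.log x) κ R nb ε g := by
      rcases le_total (Real.log x) 84.5 with h | h
      · rcases le_total (Real.log x) 36.5 with h' | h'
        · exact good_finite1 _ hL h'
        · exact good_finite2 _ h' h
      · exact good_infinite _ (by linarith)
    obtain ⟨h1, h2, h3, h4⟩ := sieve_num x hL κ R nb ε g hG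
    obtain ⟨g1, g2, g3, g4, g5, g6, g7, g8, g9, g10, g11⟩ := hG
    have hKx : 6 * x ≤ κ * x := Nat.mul_le_mul_right x g1
    have h5 := log_choose_le a x (YY x) (κ * x) (mm x) (by omega) ha ha' (by omega) (mm_spec x) hy
    have h6 := sieve_hit a x (κ * x) (YY x) nb R ε hge ha ha' g5 g6 hKx h1 h2 g3 h3
    have h7 := th_le (x + 1)
    have h8 := th_le (κ * x)
    push_cast at h7 h8
    have h9 : 0 ≤ Real.log (YY x) := Real.log_natCast_nonneg _
    have h10 := mul_le_mul_of_nonneg_left h6 h9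
    linarith

end Pool.Agent.Lib.MP_bf4c7f_lp
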