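import Mathlib
import Pool.Agent.Lib.MP_bf4c7f_nt.Weights
import Pool.Agent.Lib.MP_bf4c7f_nt3.Cheb

/-!
# Large prime factors in Oppermann's intervals: definitions

`ex t = exp(2 π i t)`, `bet` is the periodic Bernoulli function of degree two, `trap p q` is the
periodic trapezoid which is `1` at distance at most `p` from the integers and `0` at distance at
least `q`.
-/

set_option autoImplicit false

namespace Pool.Agent.Lib.MP_bf4c7f_lp

open Finset

/-- `exp (2 π i t)` -/
noncomputable def ex (t : ℝ) : ℂ := Complex.exp (((2 * Real.pi * t : ℝ) : ℂ) * Complex.I)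

/-- the periodic Bernoulli function `B_2({t})` -/
noncomputable def bet (t : ℝ) : ℝ := Int.fract t ^ 2 - Int.fract t + 1 / 6

/-- periodic trapezoid -/
noncomputable def trap (p q t : ℝ) : ℝ :=
  p + q + (bet (t + p) + bet (t - p) - bet (t + q) - bet (t - q)) / (2 * (q - p))

/-- the majorant of the indicator function of the moduli `k` having a multiple in `(a, a+x)` -/
noncomputable def FF (a x ε : ℝ) (k : ℕ) : ℝ :=
  trap (x / (2 * k)) ((1 / 2 + ε) * x / k) ((a + x / 2) / k)

/-- the natural number `p` has a multiple in the open interval `(a, a+x)` -/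
def Hit (a x p : ℕ) : Prop := ∃ n, a < n ∧ n < a + x ∧ p ∣ n

instance (a x p : ℕ) : Decidable (Hit a x p) :=
  decidable_of_iff (∃ n ∈ Ioo a (a + x), p ∣ n) (by
    unfold Hit
    constructor
    · rintro ⟨n, hn, h⟩
      exact ⟨n, (mem_Ioo.1 hn).1, (mem_Ioo.1 hn).2, h⟩
    · rintro ⟨n, h1, h2, h⟩
      exact ⟨n, mem_Ioo.2 ⟨h1, h2⟩, h⟩)

/-- `⌊(x+1)^(15/13)⌋` -/
noncomputable def YY (x : ℕ) : ℕ := ⌊((x : ℝ) + 1) ^ ((15 : ℝ) / 13)⌋₊

end Pool.Agent.Lib.MP_bf4c7f_lp
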