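import Pool.Agent.Lib.MP_bf4c7f_lp.Core

/-! Final statements. -/

set_option autoImplicit false

namespace Pool.Agent.Lib.MP_bf4c7f_lp

open Finset

theorem oppermann (x : ℕ) (hx : 1 < x) :
    (∃ n p : ℕ, x ^ 2 - x < n ∧ n < x ^ 2 ∧ p.Prime ∧ p ∣ n ∧ x ^ 15 < p ^ 13) ∧
    (∃ n p : ℕ, x ^ 2 < n ∧ n < x ^ 2 + x ∧ p.Prime ∧ p ∣ n ∧ x ^ 15 < p ^ 13) := by
  have hxx : x ≤ x ^ 2 := by nlinarith
  have key : (∃ p, p.Prime ∧ Hit (x ^ 2 - x) x p ∧ x ^ 15 < p ^ 13) ∧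
      (∃ p, p.Prime ∧ Hit (x ^ 2) x p ∧ x ^ 15 < p ^ 13) := by
    rcases le_or_gt x 3 with h | h
    · exact oppermann_small x hx h
    · have e : x ^ 15 ≤ (x + 1) ^ 15 := Nat.pow_le_pow_left (by omega) 15
      obtain ⟨p, hp, h1, h2⟩ := core x (x ^ 2 - x) h le_rfl (by omega)
      obtain ⟨q, hq, h3, h4⟩ := core x (x ^ 2) h (by omega) (by omega)
      exact ⟨⟨p, hp, h1, e.trans_lt h2⟩, ⟨q, hq, h3, e.trans_lt h4⟩⟩
  obtain ⟨⟨p, hp, ⟨n, h1, h2, h3⟩, h4⟩, ⟨q, hq, ⟨m, h5, h6, h7⟩, h8⟩⟩ := key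
  exact ⟨⟨n, p, h1, by omega, hp, h3, h4⟩, ⟨m, q, h5, h6, hq, h7, h8⟩⟩

theorem sqrt_interval (n : ℕ) (hn : 8 ≤ n) :
    ∃ m p : ℕ, n < m ∧ (m - n) ^ 2 < n ∧ p.Prime ∧ p ∣ m ∧ n ^ 15 < p ^ 26 := by
  rcases lt_or_ge n 16 with h | h
  · exact sqrt_small n hn h
  · set x := Nat.sqrt n with hxd
    have h1 : x * x ≤ n := Nat.sqrt_le n
    have h2 : n ≤ x * x + x + x := Nat.sqrt_le_add n
    have h4 : 4 ≤ x := by
      rw [hxd, Nat.le_sqrt]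
      exact h
    obtain ⟨p, hp, ⟨m, h5, h6, h7⟩, h8⟩ := core x n h4
      (by rw [sq]; omega) (by rw [sq]; omega)
    refine ⟨m, p, h5, ?_, hp, h7, ?_⟩
    · have h9 : m - n < x := by omega
      calc (m - n) ^ 2 < x ^ 2 := Nat.pow_lt_pow_left h9 (by norm_num)
        _ = x * x := sq x
        _ ≤ n := h1
    · have h10 : n < (x + 1) ^ 2 := by nlinarith
      calc n ^ 15 ≤ ((x + 1) ^ 2) ^ 15 := Nat.pow_le_pow_left h10.le 15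
        _ = ((x + 1) ^ 15) ^ 2 := by ring
        _ < (p ^ 13) ^ 2 := Nat.pow_lt_pow_left h8 (by norm_num)
        _ = p ^ 26 := by ring

end Pool.Agent.Lib.MP_bf4c7f_lp
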