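import Pool.Agent.Lib.MP_bf4c7f_lp.Defs

/-! ROW FOUR: Fourier series of `bet` (from Mathlib's `hasSum_one_div_nat_pow_mul_cos`). -/

set_option autoImplicit false

namespace Pool.Agent.Lib.MP_bf4c7f_lp

open Finset

private theorem FOUR_bern (x : ℝ) :
    (Polynomial.map (algebraMap ℚ ℝ) (Polynomial.bernoulli (2 * 1))).eval x
      = x ^ 2 - x + 1 / 6 := by
  rw [mul_one, Polynomial.bernoulli, Finset.sum_range_succ, Finset.sum_range_succ,
    Finset.sum_range_succ, Finset.sum_range_zero]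
  simp only [Polynomial.map_add, Polynomial.map_monomial, Polynomial.eval_add,
    Polynomial.eval_monomial, bernoulli_zero, bernoulli_one, bernoulli_two, map_mul, map_one,
    Polynomial.map_zero, Polynomial.eval_zero]
  norm_num
  ring

/-- the `h = 0` term is `0` since `1 / 0 = 0`. -/
theorem hasSum_bet (t : ℝ) :
    HasSum (fun h : ℕ => Real.cos (2 * Real.pi * h * t) / (Real.pi ^ 2 * h ^ 2)) (bet t) := by
  have h1 := hasSum_one_div_nat_pow_mul_cos (k := 1) one_ne_zero
    (x := Int.fract t) ⟨Int.fract_nonneg t, (Int.fract_lt_one t).le⟩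
  rw [FOUR_bern] at h1
  have h2 := h1.mul_left (1 / Real.pi ^ 2)
  have hpi : Real.pi ≠ 0 := Real.pi_ne_zero
  have hf : (fun h : ℕ => Real.cos (2 * Real.pi * h * t) / (Real.pi ^ 2 * h ^ 2))
      = fun i : ℕ => 1 / Real.pi ^ 2
        * (1 / (i : ℝ) ^ (2 * 1) * Real.cos (2 * Real.pi * i * Int.fract t)) := by
    funext n
    have h3 : Real.cos (2 * Real.pi * n * Int.fract t) = Real.cos (2 * Real.pi * n * t) := by
      have h4 : 2 * Real.pi * n * Int.fract t
          = 2 * Real.pi * n * t - ((n * ⌊t⌋ : ℤ) : ℝ) * (2 * Real.pi) := by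
        rw [← Int.self_sub_floor]
        push_cast
        ring
      rw [h4, Real.cos_sub_int_mul_two_pi]
    rw [h3]
    by_cases hn : (n : ℝ) = 0
    · rw [hn]
      norm_num
    · rw [mul_one]
      field_simp
  have hv : bet t = 1 / Real.pi ^ 2 * ((-1 : ℝ) ^ (1 + 1) * (2 * Real.pi) ^ (2 * 1) / 2
      / ((2 * 1).factorial : ℝ) * (Int.fract t ^ 2 - Int.fract t + 1 / 6)) := by
    unfold bet
    norm_num
    field_simp
  rw [hf, hv]
  exact h2

/-- the four point combination occurring in `FF` -/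
noncomputable def comb (a x ε : ℝ) (k : ℕ) : ℝ :=
  bet ((a + x) / k) + bet (a / k) - bet ((a + x + ε * x) / k) - bet ((a - ε * x) / k)

/-- ROW FOUR (b): unfold; `(a + x/2)/k ± x/(2k)` and `(a + x/2)/k ± (1/2+ε)x/k`. -/
theorem FF_eq (a x ε : ℝ) (k : ℕ) (hx : 0 < x) (hε : 0 < ε) (hk : 0 < k) :
    FF a x ε k = (1 + ε) * x / k + k / (2 * ε * x) * comb a x ε k := by
  have hk' : (k : ℝ) ≠ 0 := by exact_mod_cast hk.ne'
  have e1 : (a + x / 2) / k + x / (2 * k) = (a + x) / k := by
    field_simp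
    ring
  have e2 : (a + x / 2) / k - x / (2 * k) = a / k := by
    field_simp
    ring
  have e3 : (a + x / 2) / k + (1 / 2 + ε) * x / k = (a + x + ε * x) / k := by
    field_simp
    ring
  have e4 : (a + x / 2) / k - (1 / 2 + ε) * x / k = (a - ε * x) / k := by
    field_simp
    ring
  unfold FF trap comb
  rw [e1, e2, e3, e4]
  have e5 : (1 / 2 + ε) * x / k - x / (2 * k) = ε * x / k := by
    field_simp
    ring
  have e6 : x / (2 * k) + (1 / 2 + ε) * x / k = (1 + ε) * x / k := by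
    field_simp
    ring
  rw [e5, e6]
  congr 1
  rw [show (2 : ℝ) * (ε * x / k) = (2 * ε * x) / k by ring, div_div_eq_mul_div]
  ring

end Pool.Agent.Lib.MP_bf4c7f_lp
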