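import Pool.Agent.Lib.MP_bf4c7f_lp.Vdc
import Pool.Agent.Lib.MP_bf4c7f_lp.Four
import Pool.Agent.Lib.MP_bf4c7f_lp.Abel

/-! ROW HARM: the contribution of one frequency on one block. -/

set_option autoImplicit false

namespace Pool.Agent.Lib.MP_bf4c7f_lp

open Finset

/-- data of a block: the multiples `k = e l` of `e` with `K < k ≤ 2K` (or a part of them) -/
structure Blk where
  a : ℝ
  x : ℝ
  ε : ℝ
  a0 : ℝ
  a1 : ℝ
  K : ℝ
  e : ℕ
  s : ℕ
  t : ℕ
  hx : 0 < x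
  hε : 0 < ε
  he : 0 < e
  ha0 : 0 < a0
  h0 : a0 ≤ a - ε * x
  h1 : a + x + ε * x ≤ a1
  hKe : 3 * e ≤ K
  hK : ∀ l ∈ Ioc s t, K < (e : ℝ) * l ∧ (e : ℝ) * l ≤ 2 * K

namespace Blk

variable (b : Blk)

/-- the contribution of the frequency `h` -/
noncomputable def T (h : ℕ) : ℝ :=
  ∑ l ∈ Ioc b.s b.t, ((b.e : ℝ) * l / (2 * b.ε * b.x)) *
    ((Real.cos (2 * Real.pi * h * ((b.a + b.x) / ((b.e * l : ℕ) : ℝ)))
      + Real.cos (2 * Real.pi * h * (b.a / ((b.e * l : ℕ) : ℝ)))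
      - Real.cos (2 * Real.pi * h * ((b.a + b.x + b.ε * b.x) / ((b.e * l : ℕ) : ℝ)))
      - Real.cos (2 * Real.pi * h * ((b.a - b.ε * b.x) / ((b.e * l : ℕ) : ℝ))))
      / (Real.pi ^ 2 * h ^ 2))

/-- bound for the exponential sums of frequency `h` -/
noncomputable def S (h : ℕ) : ℝ :=
  9.5 * √(h * b.a1 / b.K) + 8 * b.K ^ 2 / (Real.pi * (h * b.e * b.a0))

private theorem S_nonneg (h : ℕ) : 0 ≤ b.S h := by
  unfold S
  have h1 := b.ha0
  positivity

private theorem cos_ex (y : ℝ) : Real.cos (2 * Real.pi * y) = (ex y).re := by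
  unfold ex
  rw [Complex.exp_ofReal_mul_I_re]

private theorem sin_ex (y : ℝ) : Real.sin (2 * Real.pi * y) = (ex y).im := by
  unfold ex
  rw [Complex.exp_ofReal_mul_I_im]

/-- ROW HARM (a): every tail of the exponential sum at a point `u ∈ [a0, a1]`: `exp_sum_bound`
with `B = h u/e`, `M = K/e`. -/
theorem tail_bound (h : ℕ) (hh : 0 < h) (u : ℝ) (hu0 : b.a0 ≤ u) (hu1 : u ≤ b.a1) (r : ℕ)
    (hr : b.s ≤ r) :
    ‖∑ l ∈ Ioc r b.t, ex (h * (u / ((b.e * l : ℕ) : ℝ)))‖ ≤ b.S h := by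
  have he : (0 : ℝ) < b.e := by exact_mod_cast b.he
  have hh' : (0 : ℝ) < h := by exact_mod_cast hh
  have hu : 0 < u := b.ha0.trans_le hu0
  have hK : 0 < b.K := by
    have := b.hKe
    nlinarith
  have hM : 3 ≤ b.K / b.e := by
    rw [le_div_iff₀ he]
    exact b.hKe
  have key := exp_sum_bound (h * u / b.e) (b.K / b.e) (by positivity) hM r b.t (by
    intro l hl
    have hl' : l ∈ Ioc b.s b.t := by
      rw [Finset.mem_Ioc] at hl ⊢
      exact ⟨hr.trans_lt hl.1, hl.2⟩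
    obtain ⟨h1, h2⟩ := b.hK l hl'
    constructor
    · rw [div_lt_iff₀ he]
      linarith [mul_comm (b.e : ℝ) l]
    · rw [← mul_div_assoc, le_div_iff₀ he]
      linarith [mul_comm (b.e : ℝ) l])
  have h1 : ∑ l ∈ Ioc r b.t, ex (h * (u / ((b.e * l : ℕ) : ℝ))) =
      ∑ l ∈ Ioc r b.t, ex (h * u / b.e / l) := by
    refine Finset.sum_congr rfl fun l _ => ?_
    congr 1
    push_cast
    rw [div_div, mul_div_assoc]
  rw [h1]
  refine key.trans ?_
  unfold S
  refine add_le_add ?_ ?_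
  · refine mul_le_mul_of_nonneg_left (Real.sqrt_le_sqrt ?_) (by norm_num)
    have h2 : h * u / b.e / (b.K / b.e) = h * u / b.K := by field_simp
    rw [h2]
    gcongr
  · have h2 : 8 * (b.K / b.e) ^ 2 / (Real.pi * (h * u / b.e)) =
        8 * b.K ^ 2 / (Real.pi * (h * b.e * u)) := by field_simp
    rw [h2]
    have := Real.pi_pos
    have := b.ha0
    gcongr

/-- ROW HARM (b): `abel_mono` with the weight `e l/(2εx) ≤ K/(εx)` for each of the four cosines
(real parts of `ex`). -/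
theorem T_large (h : ℕ) (hh : 0 < h) :
    |b.T h| ≤ 4 * b.K / (Real.pi ^ 2 * b.ε * b.x * h ^ 2) * b.S h := by
  have he : (0 : ℝ) < b.e := by exact_mod_cast b.he
  have hh' : (0 : ℝ) < h := by exact_mod_cast hh
  have hK : 0 < b.K := by
    have := b.hKe
    nlinarith
  have hx := b.hx
  have hε := b.hε
  have hεx : 0 < b.ε * b.x := mul_pos hε hx
  have hS := S_nonneg b h
  have hpi := Real.pi_pos
  have key : ∀ u : ℝ, b.a0 ≤ u → u ≤ b.a1 →
      |∑ l ∈ Ioc b.s b.t, ((b.e : ℝ) * l / (2 * b.ε * b.x)) *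
        Real.cos (2 * Real.pi * h * (u / ((b.e * l : ℕ) : ℝ)))| ≤ b.K / (b.ε * b.x) * b.S h := by
    intro u hu0 hu1
    refine abel_mono (fun l : ℕ => (b.e : ℝ) * l / (2 * b.ε * b.x))
      (fun l : ℕ => Real.cos (2 * Real.pi * h * (u / ((b.e * l : ℕ) : ℝ)))) b.s b.t
      (b.K / (b.ε * b.x)) (b.S h) (by positivity) hS (fun l _ => by positivity) ?_ ?_ ?_
    · intro l hl
      obtain ⟨h1, h2⟩ := b.hK l hl
      rw [div_le_div_iff₀ (by positivity) (by positivity)]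
      nlinarith
    · intro l _ _
      gcongr
      exact Nat.le_succ l
    · intro r hr
      have h1 := tail_bound b h hh u hu0 hu1 r hr
      have h2 : ∑ l ∈ Ioc r b.t, Real.cos (2 * Real.pi * h * (u / ((b.e * l : ℕ) : ℝ))) =
          (∑ l ∈ Ioc r b.t, ex (h * (u / ((b.e * l : ℕ) : ℝ)))).re := by
        rw [Complex.re_sum]
        refine Finset.sum_congr rfl fun l _ => ?_
        rw [← cos_ex, mul_assoc (2 * Real.pi)]
      rw [h2]
      exact (Complex.abs_re_le_norm _).trans h1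
  have k1 := key (b.a + b.x) (by linarith [b.h0]) (by linarith [b.h1])
  have k2 := key b.a (by linarith [b.h0]) (by linarith [b.h1])
  have k3 := key (b.a + b.x + b.ε * b.x) (by linarith [b.h0]) (by linarith [b.h1])
  have k4 := key (b.a - b.ε * b.x) (by linarith [b.h0]) (by linarith [b.h1])
  have hT : b.T h = ((∑ l ∈ Ioc b.s b.t, ((b.e : ℝ) * l / (2 * b.ε * b.x)) *
        Real.cos (2 * Real.pi * h * ((b.a + b.x) / ((b.e * l : ℕ) : ℝ)))) +
      (∑ l ∈ Ioc b.s b.t, ((b.e : ℝ) * l / (2 * b.ε * b.x)) *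
        Real.cos (2 * Real.pi * h * (b.a / ((b.e * l : ℕ) : ℝ)))) -
      (∑ l ∈ Ioc b.s b.t, ((b.e : ℝ) * l / (2 * b.ε * b.x)) *
        Real.cos (2 * Real.pi * h * ((b.a + b.x + b.ε * b.x) / ((b.e * l : ℕ) : ℝ)))) -
      (∑ l ∈ Ioc b.s b.t, ((b.e : ℝ) * l / (2 * b.ε * b.x)) *
        Real.cos (2 * Real.pi * h * ((b.a - b.ε * b.x) / ((b.e * l : ℕ) : ℝ))))) *
      (1 / (Real.pi ^ 2 * h ^ 2)) := by
    unfold T
    rw [← Finset.sum_add_distrib, ← Finset.sum_sub_distrib, ← Finset.sum_sub_distrib,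
      Finset.sum_mul]
    refine Finset.sum_congr rfl fun l _ => ?_
    ring
  rw [hT, abs_mul, abs_of_pos (show (0 : ℝ) < 1 / (Real.pi ^ 2 * h ^ 2) by positivity)]
  have h4 : 4 * b.K / (Real.pi ^ 2 * b.ε * b.x * h ^ 2) * b.S h =
      4 * (b.K / (b.ε * b.x) * b.S h) * (1 / (Real.pi ^ 2 * h ^ 2)) := by
    field_simp
  rw [h4]
  refine mul_le_mul_of_nonneg_right ?_ (by positivity)
  rw [abs_le] at k1 k2 k3 k4 ⊢
  constructor <;> linarith [k1.1, k1.2, k2.1, k2.2, k3.1, k3.2, k4.1, k4.2]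

/-- ROW HARM (c): `cos A - cos C = 2 sin((A+C)/2) sin((C-A)/2)` for the pairs `(a+x, a+x+εx)` and
`(a, a-εx)`: with `k = e l` and `v = π h ε x/k ≤ π` the summand is
`sin v/v/(π h) * (sin(2πh(a+x+εx/2)/k) - sin(2πh(a-εx/2)/k))`; the weight `sin v/v/(πh)` is
nonnegative, nondecreasing in `k` (`sin_div_anti`) and at most `1/(πh)`: `abel_mono` twice. -/
theorem T_small (h : ℕ) (hh : 0 < h) (hH : h * (b.ε * b.x) ≤ b.K) :
    |b.T h| ≤ 2 / (Real.pi * h) * b.S h := by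
  have he : (0 : ℝ) < b.e := by exact_mod_cast b.he
  have hh' : (0 : ℝ) < h := by exact_mod_cast hh
  have hK : 0 < b.K := by
    have := b.hKe
    nlinarith
  have hx := b.hx
  have hε := b.hε
  have hεx : 0 < b.ε * b.x := mul_pos hε hx
  have hS := S_nonneg b h
  have hpi := Real.pi_pos
  let v : ℕ → ℝ := fun l => Real.pi * h * (b.ε * b.x) / ((b.e : ℝ) * l)
  have hl0 : ∀ l ∈ Ioc b.s b.t, (0 : ℝ) < l := by
    intro l hl
    have h1 := (b.hK l hl).1
    by_contra hneg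
    push Not at hneg
    nlinarith
  have hv0 : ∀ l ∈ Ioc b.s b.t, 0 < v l := by
    intro l hl
    have := hl0 l hl
    simp only [v]
    positivity
  have hvpi : ∀ l ∈ Ioc b.s b.t, v l ≤ Real.pi := by
    intro l hl
    have h1 := (b.hK l hl).1
    have := hl0 l hl
    simp only [v]
    rw [div_le_iff₀ (by positivity)]
    nlinarith
  have key : ∀ u : ℝ, b.a0 ≤ u → u ≤ b.a1 →
      |∑ l ∈ Ioc b.s b.t, (Real.sin (v l) / v l / (Real.pi * h)) *
        Real.sin (2 * Real.pi * h * (u / ((b.e * l : ℕ) : ℝ)))| ≤ 1 / (Real.pi * h) * b.S h := by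
    intro u hu0 hu1
    refine abel_mono (fun l : ℕ => Real.sin (v l) / v l / (Real.pi * h))
      (fun l : ℕ => Real.sin (2 * Real.pi * h * (u / ((b.e * l : ℕ) : ℝ)))) b.s b.t
      (1 / (Real.pi * h)) (b.S h) (by positivity) hS ?_ ?_ ?_ ?_
    · intro l hl
      have h1 := Real.sin_nonneg_of_nonneg_of_le_pi (hv0 l hl).le (hvpi l hl)
      have := hv0 l hl
      positivity
    · intro l hl
      have h1 : Real.sin (v l) / v l ≤ 1 := by
        rw [div_le_one (hv0 l hl)]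
        exact Real.sin_le (hv0 l hl).le
      gcongr
    · intro l hsl hlt
      have m1 : l ∈ Ioc b.s b.t := Finset.mem_Ioc.2 ⟨hsl, hlt.le⟩
      have m2 : l + 1 ∈ Ioc b.s b.t := Finset.mem_Ioc.2 ⟨hsl.trans (Nat.lt_succ_self _), hlt⟩
      have h1 : v (l + 1) ≤ v l := by
        have := hl0 l m1
        simp only [v]
        gcongr
        linarith
      have h2 := sin_div_anti (v (l + 1)) (v l) (hv0 _ m2) h1 (hvpi l m1)
      gcongr
    · intro r hr
      have h1 := tail_bound b h hh u hu0 hu1 r hr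
      have h2 : ∑ l ∈ Ioc r b.t, Real.sin (2 * Real.pi * h * (u / ((b.e * l : ℕ) : ℝ))) =
          (∑ l ∈ Ioc r b.t, ex (h * (u / ((b.e * l : ℕ) : ℝ)))).im := by
        rw [Complex.im_sum]
        refine Finset.sum_congr rfl fun l _ => ?_
        rw [← sin_ex, mul_assoc (2 * Real.pi)]
      rw [h2]
      exact (Complex.abs_im_le_norm _).trans h1
  have k1 := key (b.a + b.x + b.ε * b.x / 2) (by linarith [b.h0]) (by linarith [b.h1])
  have k2 := key (b.a - b.ε * b.x / 2) (by linarith [b.h0]) (by linarith [b.h1])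
  have hT : b.T h = (∑ l ∈ Ioc b.s b.t, (Real.sin (v l) / v l / (Real.pi * h)) *
        Real.sin (2 * Real.pi * h * ((b.a + b.x + b.ε * b.x / 2) / ((b.e * l : ℕ) : ℝ)))) -
      (∑ l ∈ Ioc b.s b.t, (Real.sin (v l) / v l / (Real.pi * h)) *
        Real.sin (2 * Real.pi * h * ((b.a - b.ε * b.x / 2) / ((b.e * l : ℕ) : ℝ)))) := by
    unfold T
    rw [← Finset.sum_sub_distrib]
    refine Finset.sum_congr rfl fun l hl => ?_
    have hl' := hl0 l hl
    have e1 : Real.cos (2 * Real.pi * h * ((b.a + b.x) / ((b.e * l : ℕ) : ℝ))) -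
        Real.cos (2 * Real.pi * h * ((b.a + b.x + b.ε * b.x) / ((b.e * l : ℕ) : ℝ))) =
        2 * Real.sin (2 * Real.pi * h * ((b.a + b.x + b.ε * b.x / 2) / ((b.e * l : ℕ) : ℝ))) *
          Real.sin (v l) := by
      rw [Real.cos_sub_cos]
      have a1 : (2 * Real.pi * h * ((b.a + b.x) / ((b.e * l : ℕ) : ℝ)) +
          2 * Real.pi * h * ((b.a + b.x + b.ε * b.x) / ((b.e * l : ℕ) : ℝ))) / 2 =
          2 * Real.pi * h * ((b.a + b.x + b.ε * b.x / 2) / ((b.e * l : ℕ) : ℝ)) := by ring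
      have a2 : (2 * Real.pi * h * ((b.a + b.x) / ((b.e * l : ℕ) : ℝ)) -
          2 * Real.pi * h * ((b.a + b.x + b.ε * b.x) / ((b.e * l : ℕ) : ℝ))) / 2 = -(v l) := by
        simp only [v]
        push_cast
        ring
      rw [a1, a2, Real.sin_neg]
      ring
    have e2 : Real.cos (2 * Real.pi * h * (b.a / ((b.e * l : ℕ) : ℝ))) -
        Real.cos (2 * Real.pi * h * ((b.a - b.ε * b.x) / ((b.e * l : ℕ) : ℝ))) =
        -(2 * Real.sin (2 * Real.pi * h * ((b.a - b.ε * b.x / 2) / ((b.e * l : ℕ) : ℝ))) *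
          Real.sin (v l)) := by
      rw [Real.cos_sub_cos]
      have a1 : (2 * Real.pi * h * (b.a / ((b.e * l : ℕ) : ℝ)) +
          2 * Real.pi * h * ((b.a - b.ε * b.x) / ((b.e * l : ℕ) : ℝ))) / 2 =
          2 * Real.pi * h * ((b.a - b.ε * b.x / 2) / ((b.e * l : ℕ) : ℝ)) := by ring
      have a2 : (2 * Real.pi * h * (b.a / ((b.e * l : ℕ) : ℝ)) -
          2 * Real.pi * h * ((b.a - b.ε * b.x) / ((b.e * l : ℕ) : ℝ))) / 2 = v l := by
        simp only [v]
        push_cast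
        ring
      rw [a1, a2]
      ring
    have e3 : (Real.cos (2 * Real.pi * h * ((b.a + b.x) / ((b.e * l : ℕ) : ℝ)))
        + Real.cos (2 * Real.pi * h * (b.a / ((b.e * l : ℕ) : ℝ)))
        - Real.cos (2 * Real.pi * h * ((b.a + b.x + b.ε * b.x) / ((b.e * l : ℕ) : ℝ)))
        - Real.cos (2 * Real.pi * h * ((b.a - b.ε * b.x) / ((b.e * l : ℕ) : ℝ)))) =
        2 * Real.sin (v l) *
          (Real.sin (2 * Real.pi * h * ((b.a + b.x + b.ε * b.x / 2) / ((b.e * l : ℕ) : ℝ))) -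
          Real.sin (2 * Real.pi * h * ((b.a - b.ε * b.x / 2) / ((b.e * l : ℕ) : ℝ)))) := by
      linarith [e1, e2]
    rw [e3]
    have e4 : (b.e : ℝ) * l / (2 * b.ε * b.x) = Real.pi * h / (2 * v l) := by
      simp only [v]
      field_simp
    rw [e4]
    have := (hv0 l hl).ne'
    field_simp
  rw [hT]
  have h5 : 2 / (Real.pi * h) * b.S h = 1 / (Real.pi * h) * b.S h + 1 / (Real.pi * h) * b.S h := by
    ring
  rw [h5]
  exact (abs_sub _ _).trans (add_le_add k1 k2)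

end Blk

end Pool.Agent.Lib.MP_bf4c7f_lp
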