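import Pool.Agent.Lib.MP_bf4c7f_lp.Defs

/-! Definitions for the numerical part. -/

set_option autoImplicit false

namespace Pool.Agent.Lib.MP_bf4c7f_lp

open Finset Pool.Agent.Lib.MP_bf4c7f

/-- the numerical condition on the parameters of the sieve at `L = log x` -/
def Good (L : ℝ) (κ R nb : ℕ) (ε g : ℝ) : Prop :=
  6 ≤ κ ∧ κ ≤ 8 ∧ 1 ≤ R ∧ 1 ≤ nb ∧ 0 < ε ∧ ε ≤ 1 / 5 ∧ 0 < g ∧ g ≤ GG R ∧
  90 * (R : ℝ) ^ 2 ≤ κ * Real.exp L ∧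
  2 / 13 * L + 0.000001 ≤ Real.log κ + nb * Real.log 2 ∧
  1.1056 * (1 + (κ : ℝ)) + 0.12 + 15 / 13 * (L + 0.000001) *
    (4 / 15 * (1 + ε) * (2 / 13 * L - Real.log κ + 0.000001) / g +
      164 * (nb : ℝ) * ((4 * (R : ℝ) + 14) / 15) ^ 2 * Real.exp (-L / 2) / √ε) ≤ L + 1

/-- `⌊(x^2+3x)^(1/3)⌋` -/
noncomputable def mm (x : ℕ) : ℕ := ⌊((x : ℝ) ^ 2 + 3 * x) ^ ((1 : ℝ) / 3)⌋₊

end Pool.Agent.Lib.MP_bf4c7f_lp
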