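import Pool.Agent.Lib.MP_bf4c7f_lp.NumDefs

/-! ROW NREG: one regime with a fixed `R`. -/

set_option autoImplicit false

namespace Pool.Agent.Lib.MP_bf4c7f_lp

open Finset Pool.Agent.Lib.MP_bf4c7f

private lemma nr_exp (La L c : ℝ) (hLa : 2 ≤ La) (hc : 0 ≤ c) (h : La ≤ L) :
    (L + c) * Real.exp (-L / 2) ≤ (La + c) * Real.exp (-La / 2) := by
  have h1 : Real.exp (-L / 2) = Real.exp (-La / 2) * Real.exp (-((L - La) / 2)) := by
    rw [← Real.exp_add]; congr 1; ring
  have h2 : 1 + (L - La) / 2 ≤ Real.exp ((L - La) / 2) := by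
    have := Real.add_one_le_exp ((L - La) / 2); linarith
  have h3 : (L + c) * Real.exp (-((L - La) / 2)) ≤ La + c := by
    rw [Real.exp_neg, ← div_eq_mul_inv, div_le_iff₀ (Real.exp_pos _)]
    have h4 : L + c ≤ (La + c) * (1 + (L - La) / 2) := by nlinarith
    exact h4.trans (mul_le_mul_of_nonneg_left h2 (by linarith))
  rw [h1]
  have := mul_le_mul_of_nonneg_left h3 (Real.exp_pos (-La / 2)).le
  linarith

/-- ROW NREG. Regimes with a fixed `R`: on `[La, Lb]` the condition is checked at the two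
end points: `(L + c) exp(-L/2)` is nonincreasing (`L ≥ 2`), so the error term is at most
`15/13 (La + c) E`, and the main term `15/13 (L+c) 4/15 (1+ε) (2/13 L - lk + c)/g` is convex in
`L` while the right hand side is affine. -/
theorem good_regime (La Lb : ℝ) (κ R nb : ℕ) (ε g lk E : ℝ) (h1 : 6 ≤ κ) (h2 : κ ≤ 8)
    (h3 : 1 ≤ R) (h4 : 1 ≤ nb) (h5 : 0 < ε) (h6 : ε ≤ 1 / 5) (h7 : 0 < g) (h8 : g ≤ GG R)
    (hLa : 17 ≤ La) (hR : 90 * (R : ℝ) ^ 2 ≤ κ * Real.exp La)
    (hlk : lk ≤ Real.log κ)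
    (hnb : 2 / 13 * Lb + 0.000001 ≤ lk + nb * Real.log 2)
    (hE : 164 * (nb : ℝ) * ((4 * (R : ℝ) + 14) / 15) ^ 2 * Real.exp (-La / 2) / √ε ≤ E)
    (ha : 1.1056 * (1 + (κ : ℝ)) + 0.12 + 15 / 13 * (La + 0.000001) *
      (4 / 15 * (1 + ε) * (2 / 13 * La - lk + 0.000001) / g + E) ≤ La + 1)
    (hb : 1.1056 * (1 + (κ : ℝ)) + 0.12 + 15 / 13 * (Lb + 0.000001) *
      (4 / 15 * (1 + ε) * (2 / 13 * Lb - lk + 0.000001) / g) + 15 / 13 * (La + 0.000001) * E
        ≤ Lb + 1) :
    ∀ L, La ≤ L → L ≤ Lb → Good L κ R nb ε g := by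
  intro L hL1 hL2
  refine ⟨h1, h2, h3, h4, h5, h6, h7, h8, ?_, ?_, ?_⟩
  · refine hR.trans (mul_le_mul_of_nonneg_left (Real.exp_le_exp.2 hL1) (by positivity))
  · linarith
  · set c : ℝ := 0.000001 with hc
    have hc0 : 0 ≤ c := by rw [hc]; norm_num
    have hse : 0 < √ε := Real.sqrt_pos.2 h5
    set Q : ℝ := 164 * (nb : ℝ) * ((4 * (R : ℝ) + 14) / 15) ^ 2 / √ε with hQ
    have hQ0 : 0 ≤ Q := by positivity
    have e1 : (L + c) * (164 * (nb : ℝ) * ((4 * (R : ℝ) + 14) / 15) ^ 2 *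
        Real.exp (-L / 2) / √ε) ≤ (La + c) * E := by
      have e2 : (L + c) * (164 * (nb : ℝ) * ((4 * (R : ℝ) + 14) / 15) ^ 2 *
          Real.exp (-L / 2) / √ε) = Q * ((L + c) * Real.exp (-L / 2)) := by
        rw [hQ]; ring
      have e3 : (La + c) * (164 * (nb : ℝ) * ((4 * (R : ℝ) + 14) / 15) ^ 2 *
          Real.exp (-La / 2) / √ε) = Q * ((La + c) * Real.exp (-La / 2)) := by
        rw [hQ]; ring
      rw [e2]
      refine (mul_le_mul_of_nonneg_left (nr_exp La L c (by linarith) hc0 hL1) hQ0).trans ?_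
      rw [← e3]
      exact mul_le_mul_of_nonneg_left hE (by linarith)
    have e4 : (L + c) * (4 / 15 * (1 + ε) * (2 / 13 * L - Real.log κ + c) / g) ≤
        (L + c) * (4 / 15 * (1 + ε) * (2 / 13 * L - lk + c) / g) := by
      apply mul_le_mul_of_nonneg_left _ (by linarith)
      apply div_le_div_of_nonneg_right _ h7.le
      apply mul_le_mul_of_nonneg_left _ (by positivity)
      linarith
    -- convexity
    set k : ℝ := 4 / 15 * (1 + ε) / g with hk
    have hk0 : 0 ≤ k := by positivity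
    have r1 : ∀ M : ℝ, 4 / 15 * (1 + ε) * (2 / 13 * M - lk + c) / g =
        k * (2 / 13 * M - lk + c) := by
      intro M; rw [hk]; ring
    rw [r1] at ha hb e4
    have e5 : 1.1056 * (1 + (κ : ℝ)) + 0.12 + 15 / 13 * ((L + c) *
        (k * (2 / 13 * L - lk + c))) + 15 / 13 * ((La + c) * E) ≤ L + 1 := by
      rcases eq_or_lt_of_le (hL1.trans hL2) with hab | hab
      · have : L = La := by linarith
        rw [this]
        linarith
      · have hA2 : 0 ≤ 15 / 13 * k * (2 / 13) := by positivity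
        have key : (Lb - La) * (1.1056 * (1 + (κ : ℝ)) + 0.12 + 15 / 13 * ((L + c) *
            (k * (2 / 13 * L - lk + c))) + 15 / 13 * ((La + c) * E) - (L + 1)) =
            (Lb - L) * (1.1056 * (1 + (κ : ℝ)) + 0.12 + 15 / 13 * (La + c) *
              (k * (2 / 13 * La - lk + c) + E) - (La + 1)) +
            (L - La) * (1.1056 * (1 + (κ : ℝ)) + 0.12 + 15 / 13 * (Lb + c) *
              (k * (2 / 13 * Lb - lk + c)) + 15 / 13 * (La + c) * E - (Lb + 1)) -
            15 / 13 * k * (2 / 13) * ((L - La) * (Lb - L) * (Lb - La)) := by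
          ring
        have t1 : (Lb - L) * (1.1056 * (1 + (κ : ℝ)) + 0.12 + 15 / 13 * (La + c) *
              (k * (2 / 13 * La - lk + c) + E) - (La + 1)) ≤ 0 :=
          mul_nonpos_of_nonneg_of_nonpos (by linarith) (by linarith)
        have t2 : (L - La) * (1.1056 * (1 + (κ : ℝ)) + 0.12 + 15 / 13 * (Lb + c) *
              (k * (2 / 13 * Lb - lk + c)) + 15 / 13 * (La + c) * E - (Lb + 1)) ≤ 0 :=
          mul_nonpos_of_nonneg_of_nonpos (by linarith) (by linarith)
        have t3 : 0 ≤ 15 / 13 * k * (2 / 13) * ((L - La) * (Lb - L) * (Lb - La)) := by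
          apply mul_nonneg hA2
          apply mul_nonneg (mul_nonneg (by linarith) (by linarith)) (by linarith)
        have t4 : (Lb - La) * (1.1056 * (1 + (κ : ℝ)) + 0.12 + 15 / 13 * ((L + c) *
            (k * (2 / 13 * L - lk + c))) + 15 / 13 * ((La + c) * E) - (L + 1)) ≤ 0 := by
          rw [key]; linarith
        by_contra hcon
        have hcon' := not_le.1 hcon
        have : 0 < (Lb - La) * (1.1056 * (1 + (κ : ℝ)) + 0.12 + 15 / 13 * ((L + c) *
            (k * (2 / 13 * L - lk + c))) + 15 / 13 * ((La + c) * E) - (L + 1)) :=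
          mul_pos (by linarith) (by linarith)
        linarith
    have e6 : 15 / 13 * (L + c) * (4 / 15 * (1 + ε) * (2 / 13 * L - Real.log κ + c) / g +
        164 * (nb : ℝ) * ((4 * (R : ℝ) + 14) / 15) ^ 2 * Real.exp (-L / 2) / √ε) =
        15 / 13 * ((L + c) * (4 / 15 * (1 + ε) * (2 / 13 * L - Real.log κ + c) / g)) +
        15 / 13 * ((L + c) * (164 * (nb : ℝ) * ((4 * (R : ℝ) + 14) / 15) ^ 2 *
          Real.exp (-L / 2) / √ε)) := by
      ring
    rw [e6]
    linarith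

end Pool.Agent.Lib.MP_bf4c7f_lp
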