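import Pool.Agent.Lib.MP_bf4c7f_lp.Defs

/-! ROW RANGEA: a harmonic sum. -/

set_option autoImplicit false

namespace Pool.Agent.Lib.MP_bf4c7f_lp

open Finset

private theorem RANGEA_sum (e K1 K2 : ℕ) (he : 0 < e) :
    ∑ k ∈ (Ioc K1 K2).filter (fun k => e ∣ k), (1 : ℝ) / k
      = (∑ l ∈ Ioc (K1 / e) (K2 / e), (1 : ℝ) / l) / e := by
  have he' : (e : ℝ) ≠ 0 := by exact_mod_cast he.ne'
  rw [Finset.sum_div]
  symm
  refine Finset.sum_bij (fun l _ => e * l) ?_ ?_ ?_ ?_
  · intro l hl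
    rw [mem_Ioc] at hl
    rw [mem_filter, mem_Ioc]
    refine ⟨⟨?_, ?_⟩, dvd_mul_right e l⟩
    · have := (Nat.div_lt_iff_lt_mul he).1 hl.1
      rwa [mul_comm] at this
    · have := (Nat.le_div_iff_mul_le he).1 hl.2
      rwa [mul_comm] at this
  · intro l _ l' _ h
    exact Nat.eq_of_mul_eq_mul_left he h
  · intro k hk
    rw [mem_filter, mem_Ioc] at hk
    obtain ⟨⟨h1, h2⟩, l, rfl⟩ := hk
    refine ⟨l, ?_, rfl⟩
    rw [mem_Ioc]
    refine ⟨?_, ?_⟩
    · rw [Nat.div_lt_iff_lt_mul he, mul_comm]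
      exact h1
    · rw [Nat.le_div_iff_mul_le he, mul_comm]
      exact h2
  · intro l _
    push_cast
    rw [div_div, mul_comm]

private theorem RANGEA_upper (s t : ℕ) (hs : 0 < s) (hst : s ≤ t) :
    ∑ l ∈ Ioc s t, (1 : ℝ) / l ≤ Real.log ((t : ℝ) / s) := by
  induction t, hst using Nat.le_induction with
  | base =>
    have : (s : ℝ) ≠ 0 := by exact_mod_cast hs.ne'
    simp [div_self this]
  | succ t hst ih =>
    have ht : (0 : ℝ) < t := by exact_mod_cast hs.trans_le hst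
    have hs' : (0 : ℝ) < s := by exact_mod_cast hs
    rw [Finset.sum_Ioc_succ_top hst]
    have h1 : (((t + 1 : ℕ) : ℝ)) / s = (t : ℝ) / s * (((t : ℝ) + 1) / t) := by
      push_cast
      field_simp
    rw [h1, Real.log_mul (by positivity) (by positivity)]
    have h2 := Real.one_sub_inv_le_log_of_pos (show (0 : ℝ) < ((t : ℝ) + 1) / t by positivity)
    have h3 : (1 : ℝ) - (((t : ℝ) + 1) / t)⁻¹ = 1 / ((t + 1 : ℕ) : ℝ) := by
      push_cast
      field_simp
      ring
    rw [h3] at h2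
    linarith

private theorem RANGEA_lower (s t : ℕ) (hst : s ≤ t) :
    Real.log (((t : ℝ) + 1) / (s + 1)) ≤ ∑ l ∈ Ioc s t, (1 : ℝ) / l := by
  induction t, hst using Nat.le_induction with
  | base =>
    have : (s : ℝ) + 1 ≠ 0 := by positivity
    simp [div_self this]
  | succ t hst ih =>
    rw [Finset.sum_Ioc_succ_top hst]
    have h1 : (((t + 1 : ℕ) : ℝ) + 1) / (s + 1)
        = ((t : ℝ) + 1) / (s + 1) * (((t : ℝ) + 1 + 1) / (t + 1)) := by
      push_cast
      field_simp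
    rw [h1, Real.log_mul (by positivity) (by positivity)]
    have h2 := Real.log_le_sub_one_of_pos (show (0 : ℝ) < ((t : ℝ) + 1 + 1) / (t + 1) by positivity)
    have h3 : ((t : ℝ) + 1 + 1) / (t + 1) - 1 = 1 / ((t + 1 : ℕ) : ℝ) := by
      push_cast
      field_simp
      ring
    rw [h3] at h2
    linarith

/-- ROW RANGEA.  The multiples of `e` in `(K1, K2]` are `e l`, `s < l ≤ t`, `s = ⌊K1/e⌋ ≥ 3`,
`t = ⌊K2/e⌋`, and `log((t+1)/(s+1)) ≤ ∑ 1/l ≤ log(t/s)`; with `r = e/K1 ≤ 1/3` the first is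
`≥ log(K2/K1) - r` and the second is `≤ log(K2/K1) + r/(1-r)`, `r/(1-r) ≤ 1.5 r`. -/
theorem harm_range (e K1 K2 : ℕ) (he : 0 < e) (h3 : 3 * e ≤ K1) (h12 : K1 ≤ K2) :
    |∑ k ∈ (Ioc K1 K2).filter (fun k => e ∣ k), (1 : ℝ) / k
      - Real.log ((K2 : ℝ) / K1) / e| ≤ 1.5 / K1 := by
  rw [RANGEA_sum e K1 K2 he, ← sub_div]
  set s := K1 / e with hs
  set t := K2 / e with ht
  have heR : (0 : ℝ) < e := by exact_mod_cast he
  have hK1n : 0 < K1 := by omega
  have hK1 : (0 : ℝ) < K1 := by exact_mod_cast hK1n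
  have hK2 : (0 : ℝ) < K2 := by exact_mod_cast hK1n.trans_le h12
  have h3R : 3 * (e : ℝ) ≤ K1 := by exact_mod_cast h3
  have hs3 : 3 ≤ s := (Nat.le_div_iff_mul_le he).2 h3
  have hst : s ≤ t := Nat.div_le_div_right h12
  have hsR : (0 : ℝ) < s := by
    have : 0 < s := by omega
    exact_mod_cast this
  have a1 : (t : ℝ) * e ≤ K2 := by exact_mod_cast Nat.div_mul_le_self K2 e
  have a2 : (K2 : ℝ) < (t + 1) * e := by
    have : K2 < (t + 1) * e := by
      rw [mul_comm]
      exact Nat.lt_mul_div_succ K2 he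
    exact_mod_cast this
  have a3 : (s : ℝ) * e ≤ K1 := by exact_mod_cast Nat.div_mul_le_self K1 e
  have a4 : (K1 : ℝ) < (s + 1) * e := by
    have : K1 < (s + 1) * e := by
      rw [mul_comm]
      exact Nat.lt_mul_div_succ K1 he
    exact_mod_cast this
  have hu := RANGEA_upper s t (by omega) hst
  have hl := RANGEA_lower s t hst
  set T0 := ∑ l ∈ Ioc s t, (1 : ℝ) / l with hT0
  have hKe : (0 : ℝ) < K1 - e := by linarith
  have hup : Real.log ((t : ℝ) / s) ≤ Real.log ((K2 : ℝ) / K1) + 1.5 * e / K1 := by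
    have b1 : (t : ℝ) / s ≤ (K2 : ℝ) / K1 * (K1 / (K1 - e)) := by
      have b2 : (K2 : ℝ) / K1 * (K1 / (K1 - e)) = K2 / (K1 - e) := by
        field_simp
      rw [b2, div_le_div_iff₀ hsR hKe]
      have b3 : (K1 : ℝ) - e ≤ s * e := by linarith
      calc (t : ℝ) * (K1 - e) ≤ t * (s * e) := mul_le_mul_of_nonneg_left b3 (Nat.cast_nonneg _)
        _ = (t * e) * s := by ring
        _ ≤ K2 * s := mul_le_mul_of_nonneg_right a1 hsR.le
    have htR : (0 : ℝ) < t := by
      have : 0 < t := by omega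
      exact_mod_cast this
    have b4 := Real.log_le_log (by positivity) b1
    rw [Real.log_mul (by positivity) (by positivity)] at b4
    have b5 := Real.log_le_sub_one_of_pos (show (0 : ℝ) < K1 / (K1 - e) by positivity)
    have b6 : (K1 : ℝ) / (K1 - e) - 1 ≤ 1.5 * e / K1 := by
      rw [div_sub_one hKe.ne', div_le_div_iff₀ hKe hK1]
      nlinarith
    linarith
  have hlo : Real.log ((K2 : ℝ) / K1) - 1.5 * e / K1
      ≤ Real.log (((t : ℝ) + 1) / (s + 1)) := by
    have b1 : (K2 : ℝ) / K1 * (K1 / (K1 + e)) ≤ ((t : ℝ) + 1) / (s + 1) := by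
      have b2 : (K2 : ℝ) / K1 * (K1 / (K1 + e)) = K2 / (K1 + e) := by
        field_simp
      rw [b2, div_le_div_iff₀ (by positivity) (by positivity)]
      calc (K2 : ℝ) * (s + 1) ≤ ((t + 1) * e) * (s + 1) :=
            mul_le_mul_of_nonneg_right a2.le (by positivity)
        _ = (t + 1) * (s * e + e) := by ring
        _ ≤ (t + 1) * (K1 + e) := mul_le_mul_of_nonneg_left (by linarith) (by positivity)
    have b4 := Real.log_le_log (by positivity) b1
    rw [Real.log_mul (by positivity) (by positivity)] at b4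
    have b5 := Real.one_sub_inv_le_log_of_pos (show (0 : ℝ) < K1 / (K1 + e) by positivity)
    have b6 : -(1.5 * e / K1) ≤ 1 - ((K1 : ℝ) / (K1 + e))⁻¹ := by
      rw [inv_div]
      have b7 : (1 : ℝ) - (K1 + e) / K1 = -(e / K1) := by
        field_simp
        ring
      rw [b7, neg_le_neg_iff]
      exact div_le_div_of_nonneg_right (by linarith) hK1.le
    linarith
  have hfin : |T0 - Real.log ((K2 : ℝ) / K1)| ≤ 1.5 * e / K1 := by
    rw [abs_le]
    constructor <;> linarith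
  rw [abs_div, abs_of_pos heR, div_le_iff₀ heR]
  refine hfin.trans (le_of_eq ?_)
  ring

end Pool.Agent.Lib.MP_bf4c7f_lp
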