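import Pool.Agent.Lib.MP_bf4c7f_lp.Block
import Pool.Agent.Lib.MP_bf4c7f_lp.RangeA

/-! ROW RANGEB: sum over the multiples of `e` in `(K1, K2]`. -/

set_option autoImplicit false

namespace Pool.Agent.Lib.MP_bf4c7f_lp

open Finset

private theorem rangeB_filter (e K1 K2 : ℕ) (he : 0 < e) :
    (Ioc K1 K2).filter (fun k => e ∣ k) = (Ioc (K1 / e) (K2 / e)).image (fun l => e * l) := by
  ext k
  simp only [mem_filter, mem_Ioc, mem_image]
  constructor
  · rintro ⟨⟨h1, h2⟩, l, rfl⟩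
    refine ⟨l, ⟨?_, ?_⟩, rfl⟩
    · rw [Nat.div_lt_iff_lt_mul he, mul_comm]
      exact h1
    · rw [Nat.le_div_iff_mul_le he, mul_comm]
      exact h2
  · rintro ⟨l, ⟨h1, h2⟩, rfl⟩
    rw [Nat.div_lt_iff_lt_mul he, mul_comm] at h1
    rw [Nat.le_div_iff_mul_le he, mul_comm] at h2
    exact ⟨⟨h1, h2⟩, dvd_mul_right _ _⟩

private theorem rangeB_block (a x ε a0 a1 : ℝ) (e K1 K2 : ℕ) (hx : 0 < x) (hε : 0 < ε)
    (he : 0 < e) (ha0 : 0 < a0) (h0 : a0 ≤ a - ε * x) (h1 : a + x + ε * x ≤ a1)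
    (h3 : 3 * e ≤ K1) (h2 : K2 ≤ 2 * K1) (hQ : 30 * (ε * x) ≤ K1) :
    |∑ k ∈ (Ioc K1 K2).filter (fun k => e ∣ k), (k : ℝ) / (2 * ε * x) * comb a x ε k| ≤
      19.95 * √(a1 / (ε * x)) + 8 / 3 * (K1 : ℝ) ^ 2 / a0 := by
  have hb := block_bound
    { a := a
      x := x
      ε := ε
      a0 := a0
      a1 := a1
      K := (K1 : ℝ)
      e := e
      s := K1 / e
      t := K2 / e
      hx := hx
      hε := hε
      he := he
      ha0 := ha0
      h0 := h0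
      h1 := h1
      hKe := by exact_mod_cast h3
      hK := by
        intro l hl
        rw [mem_Ioc] at hl
        obtain ⟨hl1, hl2⟩ := hl
        rw [Nat.div_lt_iff_lt_mul he, mul_comm] at hl1
        rw [Nat.le_div_iff_mul_le he, mul_comm] at hl2
        constructor
        · exact_mod_cast hl1
        · exact_mod_cast hl2.trans h2 } hQ
  rw [rangeB_filter e K1 K2 he, sum_image (fun i _ j _ hij => Nat.eq_of_mul_eq_mul_left he hij)]
  refine le_trans (le_of_eq ?_) hb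
  congr 1
  refine sum_congr rfl fun l _ => ?_
  push_cast
  ring

private theorem rangeB_sum (a x ε a0 a1 : ℝ) (e : ℕ) (hx : 0 < x) (hε : 0 < ε)
    (he : 0 < e) (ha0 : 0 < a0) (h0 : a0 ≤ a - ε * x) (h1 : a + x + ε * x ≤ a1) (nb : ℕ) :
    ∀ K1 K2 : ℕ, 3 * e ≤ K1 → K1 ≤ K2 → K2 ≤ K1 * 2 ^ nb → 30 * (ε * x) ≤ K1 →
    |∑ k ∈ (Ioc K1 K2).filter (fun k => e ∣ k), (k : ℝ) / (2 * ε * x) * comb a x ε k| ≤
      nb * (19.95 * √(a1 / (ε * x))) + 32 / 9 * ((K2 : ℝ) ^ 2 - (K1 : ℝ) ^ 2 / 4) / a0 := by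
  induction nb with
  | zero =>
    intro K1 K2 _ h12 hnb _
    have : K1 = K2 := by
      rw [pow_zero, mul_one] at hnb
      exact le_antisymm h12 hnb
    subst this
    rw [Ioc_self, filter_empty, sum_empty, abs_zero, Nat.cast_zero, zero_mul, zero_add]
    have : (0 : ℝ) ≤ (K1 : ℝ) ^ 2 := by positivity
    refine div_nonneg ?_ ha0.le
    linarith
  | succ nb ih =>
    intro K1 K2 h3 h12 hnb hQ
    have hA : 0 ≤ 19.95 * √(a1 / (ε * x)) := by positivity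
    have hKK : (K1 : ℝ) ≤ K2 := by exact_mod_cast h12
    rcases le_or_gt K2 (2 * K1) with h | h
    · have hb := rangeB_block a x ε a0 a1 e K1 K2 hx hε he ha0 h0 h1 h3 h hQ
      refine hb.trans ?_
      have e1 : 8 / 3 * (K1 : ℝ) ^ 2 / a0 ≤ 32 / 9 * ((K2 : ℝ) ^ 2 - (K1 : ℝ) ^ 2 / 4) / a0 := by
        have : (K1 : ℝ) ^ 2 ≤ (K2 : ℝ) ^ 2 := by gcongr
        refine div_le_div_of_nonneg_right ?_ ha0.le
        linarith
      have e2 : 0 ≤ (nb : ℝ) * (19.95 * √(a1 / (ε * x))) := by positivity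
      push_cast
      linarith
    · have hsplit : (Ioc K1 K2).filter (fun k => e ∣ k) =
          (Ioc K1 (2 * K1)).filter (fun k => e ∣ k) ∪
            (Ioc (2 * K1) K2).filter (fun k => e ∣ k) := by
        rw [← filter_union, Ioc_union_Ioc_eq_Ioc (by omega) h.le]
      have hdisj : Disjoint ((Ioc K1 (2 * K1)).filter (fun k => e ∣ k))
          ((Ioc (2 * K1) K2).filter (fun k => e ∣ k)) := by
        rw [disjoint_left]
        intro k hk1 hk2
        rw [mem_filter, mem_Ioc] at hk1 hk2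
        omega
      have hb := rangeB_block a x ε a0 a1 e K1 (2 * K1) hx hε he ha0 h0 h1 h3 le_rfl hQ
      have hK1 : (0 : ℝ) ≤ K1 := Nat.cast_nonneg _
      have hi := ih (2 * K1) K2 (by omega) h.le
        (by rw [pow_succ] at hnb; calc K2 ≤ K1 * (2 ^ nb * 2) := hnb
              _ = 2 * K1 * 2 ^ nb := by ring)
        (by push_cast; linarith)
      rw [hsplit, sum_union hdisj]
      refine (abs_add_le _ _).trans ((add_le_add hb hi).trans (le_of_eq ?_))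
      push_cast
      field_simp
      ring

/-- ROW RANGEB.  `FF_eq` splits `FF` into `(1+ε)x/k` (use `harm_range`) and
`k/(2εx) comb`.  Cut `(K1, K2]` into the blocks `(K, min (2K) K2]`, `K = K1 2^j`, `j < nb`; only
those with `K < K2` are nonempty; `block_bound` with `s = ⌊K/e⌋`, `t = ⌊min(2K,K2)/e⌋` for each;
`∑ K^2 ≤ 4/3 K2^2` and `8/3 * 4/3 ≤ 3.6`.  (An induction on `nb` with the stronger constant
`(32/9) (K2^2) - ...` or a `Finset.sum` over `range nb` both work.) -/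
theorem range_bound (a x ε a0 a1 : ℝ) (e K1 K2 nb : ℕ) (hx : 0 < x) (hε : 0 < ε) (he : 0 < e)
    (ha0 : 0 < a0) (h0 : a0 ≤ a - ε * x) (h1 : a + x + ε * x ≤ a1)
    (h3 : 3 * e ≤ K1) (h12 : K1 ≤ K2) (hnb : K2 ≤ K1 * 2 ^ nb) (hQ : 30 * (ε * x) ≤ K1) :
    |∑ k ∈ (Ioc K1 K2).filter (fun k => e ∣ k), FF a x ε k
      - (1 + ε) * x * Real.log ((K2 : ℝ) / K1) / e| ≤
      nb * (19.95 * √(a1 / (ε * x))) + 3.6 * (K2 : ℝ) ^ 2 / a0 + 1.5 * (1 + ε) * x / K1 := by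
  have hs := rangeB_sum a x ε a0 a1 e hx hε he ha0 h0 h1 nb K1 K2 h3 h12 hnb hQ
  have hh := harm_range e K1 K2 he h3 h12
  have hK1 : (0 : ℝ) < K1 := by
    have : 0 < K1 := by omega
    exact_mod_cast this
  have hFF : ∑ k ∈ (Ioc K1 K2).filter (fun k => e ∣ k), FF a x ε k =
      (1 + ε) * x * ∑ k ∈ (Ioc K1 K2).filter (fun k => e ∣ k), (1 : ℝ) / k +
        ∑ k ∈ (Ioc K1 K2).filter (fun k => e ∣ k), (k : ℝ) / (2 * ε * x) * comb a x ε k := by
    rw [mul_sum, ← sum_add_distrib]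
    refine sum_congr rfl fun k hk => ?_
    rw [mem_filter, mem_Ioc] at hk
    rw [FF_eq a x ε k hx hε (by omega)]
    ring
  have hsplit : ∑ k ∈ (Ioc K1 K2).filter (fun k => e ∣ k), FF a x ε k
      - (1 + ε) * x * Real.log ((K2 : ℝ) / K1) / e =
      ∑ k ∈ (Ioc K1 K2).filter (fun k => e ∣ k), (k : ℝ) / (2 * ε * x) * comb a x ε k +
      (1 + ε) * x * (∑ k ∈ (Ioc K1 K2).filter (fun k => e ∣ k), (1 : ℝ) / k
        - Real.log ((K2 : ℝ) / K1) / e) := by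
    rw [hFF]
    ring
  rw [hsplit]
  refine (abs_add_le _ _).trans ?_
  rw [abs_mul, abs_of_pos (by positivity : 0 < (1 + ε) * x)]
  have e1 : (1 + ε) * x * |∑ k ∈ (Ioc K1 K2).filter (fun k => e ∣ k), (1 : ℝ) / k
        - Real.log ((K2 : ℝ) / K1) / e| ≤ 1.5 * (1 + ε) * x / K1 := by
    calc _ ≤ (1 + ε) * x * (1.5 / K1) := by gcongr
      _ = 1.5 * (1 + ε) * x / K1 := by ring
  have e2 : 32 / 9 * ((K2 : ℝ) ^ 2 - (K1 : ℝ) ^ 2 / 4) / a0 ≤ 3.6 * (K2 : ℝ) ^ 2 / a0 := by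
    have h4 : (0 : ℝ) ≤ (K1 : ℝ) ^ 2 := by positivity
    have h5 : (0 : ℝ) ≤ (K2 : ℝ) ^ 2 := by positivity
    refine div_le_div_of_nonneg_right ?_ ha0.le
    norm_num
    linarith
  linarith

end Pool.Agent.Lib.MP_bf4c7f_lp
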