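import Pool.Agent.Lib.MP_bf4c7f_lp.Defs

/-! ROW SIEVEA: Selberg's sieve with general nonnegative data. -/

set_option autoImplicit false

namespace Pool.Agent.Lib.MP_bf4c7f_lp

open Finset Pool.Agent.Lib.MP_bf4c7f

open scoped ArithmeticFunction.Moebius in
private lemma sa_ind (k : ℕ) :
    (if Nat.Coprime k 30 then (1 : ℝ) else 0) =
      ∑ f ∈ (30 : ℕ).divisors, ((ArithmeticFunction.moebius f : ℤ) : ℝ) * (if f ∣ k then 1 else 0) := by
  have h30 : (30 : ℕ).divisors.filter (fun f => f ∣ k) = (k.gcd 30).divisors := by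
    ext f
    simp only [mem_filter, Nat.mem_divisors, Nat.dvd_gcd_iff]
    constructor
    · rintro ⟨⟨h1, _⟩, h2⟩
      exact ⟨⟨h2, h1⟩, (Nat.gcd_pos_of_pos_right k (by norm_num)).ne'⟩
    · rintro ⟨⟨h1, h2⟩, _⟩
      exact ⟨⟨h2, by norm_num⟩, h1⟩
  have h1 : ∑ f ∈ (30 : ℕ).divisors, ((ArithmeticFunction.moebius f : ℤ) : ℝ) *
      (if f ∣ k then 1 else 0) = ∑ f ∈ (k.gcd 30).divisors,
        ((ArithmeticFunction.moebius f : ℤ) : ℝ) := by
    rw [← h30, sum_filter]
    apply sum_congr rfl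
    intro f _
    split_ifs <;> simp
  rw [h1]
  have h4 : ∑ e ∈ (k.gcd 30).divisors, (ArithmeticFunction.moebius e : ℤ) =
      if k.gcd 30 = 1 then 1 else 0 := by
    have := congrArg (fun f : ArithmeticFunction ℤ => f (k.gcd 30))
      ArithmeticFunction.coe_zeta_mul_moebius
    simp only [ArithmeticFunction.coe_zeta_mul_apply, ArithmeticFunction.one_apply] at this
    exact this
  have h5 : ∑ e ∈ (k.gcd 30).divisors, ((ArithmeticFunction.moebius e : ℤ) : ℝ) =
      if k.gcd 30 = 1 then 1 else 0 := by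
    exact_mod_cast congrArg (fun z : ℤ => (z : ℝ)) h4
  rw [h5]

private lemma sa_mu30 (g : ℕ → ℝ) :
    ∑ f ∈ (30 : ℕ).divisors, ((ArithmeticFunction.moebius f : ℤ) : ℝ) * g f =
      g 1 - g 2 - g 3 - g 5 + g 6 + g 10 + g 15 - g 30 := by
  have hd : (30 : ℕ).divisors = {1, 2, 3, 5, 6, 10, 15, 30} := by decide +kernel
  have m1 : ArithmeticFunction.moebius 1 = 1 := by simp
  have m2 : ArithmeticFunction.moebius 2 = -1 :=
    ArithmeticFunction.moebius_apply_prime (by norm_num)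
  have m3 : ArithmeticFunction.moebius 3 = -1 :=
    ArithmeticFunction.moebius_apply_prime (by norm_num)
  have m5 : ArithmeticFunction.moebius 5 = -1 :=
    ArithmeticFunction.moebius_apply_prime (by norm_num)
  have m6 : ArithmeticFunction.moebius 6 = 1 := by
    rw [show (6 : ℕ) = 2 * 3 by norm_num,
      ArithmeticFunction.isMultiplicative_moebius.map_mul_of_coprime (by norm_num), m2, m3]
    norm_num
  have m10 : ArithmeticFunction.moebius 10 = 1 := by
    rw [show (10 : ℕ) = 2 * 5 by norm_num,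
      ArithmeticFunction.isMultiplicative_moebius.map_mul_of_coprime (by norm_num), m2, m5]
    norm_num
  have m15 : ArithmeticFunction.moebius 15 = 1 := by
    rw [show (15 : ℕ) = 3 * 5 by norm_num,
      ArithmeticFunction.isMultiplicative_moebius.map_mul_of_coprime (by norm_num), m3, m5]
    norm_num
  have m30 : ArithmeticFunction.moebius 30 = -1 := by
    rw [show (30 : ℕ) = 6 * 5 by norm_num,
      ArithmeticFunction.isMultiplicative_moebius.map_mul_of_coprime (by norm_num), m6, m5]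
    norm_num
  rw [hd]
  rw [sum_insert (by decide), sum_insert (by decide), sum_insert (by decide),
    sum_insert (by decide), sum_insert (by decide), sum_insert (by decide),
    sum_insert (by decide), sum_singleton, m1, m2, m3, m5, m6, m10, m15, m30]
  push_cast
  ring

private lemma sa_inner (F : ℕ → ℝ) (K1 K2 R : ℕ) (A E : ℝ)
    (hsum : ∀ e : ℕ, 0 < e → e ≤ 30 * R ^ 2 →
      |∑ k ∈ (Ioc K1 K2).filter (fun k => e ∣ k), F k - A / e| ≤ E)
    (l : ℕ) (hl : 0 < l) (hlR : l ≤ R ^ 2) (hc : Nat.Coprime l 30) :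
    |∑ k ∈ Ioc K1 K2, F k * (if Nat.Coprime k 30 ∧ l ∣ k then 1 else 0) -
      4 / 15 * A / l| ≤ 8 * E := by
  have hlR' : (0 : ℝ) < l := by exact_mod_cast hl
  have h1 : ∑ k ∈ Ioc K1 K2, F k * (if Nat.Coprime k 30 ∧ l ∣ k then 1 else 0) =
      ∑ f ∈ (30 : ℕ).divisors, ((ArithmeticFunction.moebius f : ℤ) : ℝ) *
        ∑ k ∈ (Ioc K1 K2).filter (fun k => f * l ∣ k), F k := by
    have h2 : ∀ k ∈ Ioc K1 K2, F k * (if Nat.Coprime k 30 ∧ l ∣ k then (1 : ℝ) else 0) =
        ∑ f ∈ (30 : ℕ).divisors, ((ArithmeticFunction.moebius f : ℤ) : ℝ) *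
          (if f * l ∣ k then F k else 0) := by
      intro k _
      by_cases hk : l ∣ k
      · have h3 : (if Nat.Coprime k 30 ∧ l ∣ k then (1 : ℝ) else 0) =
            if Nat.Coprime k 30 then 1 else 0 := by
          simp [hk]
        rw [h3, sa_ind, mul_sum]
        apply sum_congr rfl
        intro f hf
        have hf30 : f ∣ 30 := Nat.dvd_of_mem_divisors hf
        have hfl : Nat.Coprime f l := (Nat.Coprime.coprime_dvd_right hf30 hc).symm
        have h4 : f * l ∣ k ↔ f ∣ k := by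
          constructor
          · intro h; exact (dvd_mul_right f l).trans h
          · intro h; exact Nat.Coprime.mul_dvd_of_dvd_of_dvd hfl h hk
        by_cases h5 : f ∣ k
        · rw [if_pos h5, if_pos (h4.2 h5)]; ring
        · rw [if_neg h5, if_neg (fun h => h5 (h4.1 h))]; ring
      · rw [if_neg (fun h => hk h.2), mul_zero]
        symm
        apply sum_eq_zero
        intro f _
        rw [if_neg (fun h => hk ((dvd_mul_left l f).trans h)), mul_zero]
    rw [sum_congr rfl h2, sum_comm]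
    apply sum_congr rfl
    intro f _
    rw [← mul_sum, sum_filter]
  rw [h1, sa_mu30]
  have hb : ∀ f : ℕ, 0 < f → f ≤ 30 →
      |∑ k ∈ (Ioc K1 K2).filter (fun k => f * l ∣ k), F k - A / ((f : ℝ) * l)| ≤ E := by
    intro f hf0 hf
    have := hsum (f * l) (Nat.mul_pos hf0 hl) (Nat.mul_le_mul hf hlR)
    push_cast at this
    exact this
  have b1 := abs_le.1 (hb 1 (by norm_num) (by norm_num))
  have b2 := abs_le.1 (hb 2 (by norm_num) (by norm_num))
  have b3 := abs_le.1 (hb 3 (by norm_num) (by norm_num))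
  have b5 := abs_le.1 (hb 5 (by norm_num) (by norm_num))
  have b6 := abs_le.1 (hb 6 (by norm_num) (by norm_num))
  have b10 := abs_le.1 (hb 10 (by norm_num) (by norm_num))
  have b15 := abs_le.1 (hb 15 (by norm_num) (by norm_num))
  have b30 := abs_le.1 (hb 30 (by norm_num) (by norm_num))
  have hA : 4 / 15 * A / l = A / (((1 : ℕ) : ℝ) * l) - A / (((2 : ℕ) : ℝ) * l) -
      A / (((3 : ℕ) : ℝ) * l) - A / (((5 : ℕ) : ℝ) * l) + A / (((6 : ℕ) : ℝ) * l) +
      A / (((10 : ℕ) : ℝ) * l) + A / (((15 : ℕ) : ℝ) * l) - A / (((30 : ℕ) : ℝ) * l) := by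
    push_cast
    field_simp
    ring
  rw [hA, abs_le]
  constructor <;> linarith [b1.1, b1.2, b2.1, b2.2, b3.1, b3.2, b5.1, b5.2, b6.1, b6.2, b10.1,
    b10.2, b15.1, b15.2, b30.1, b30.2]

private lemma sa_GG_pos (R : ℕ) (hR : 1 ≤ R) : 0 < GG R := by
  unfold GG
  apply sum_pos'
  · intro k _; positivity
  · refine ⟨1, ?_, by simp⟩
    rw [mem_filter, mem_Icc]
    exact ⟨⟨le_rfl, hR⟩, squarefree_one, by norm_num⟩

private lemma sa_lam_one (R : ℕ) : lam R 1 = GG R := by
  unfold lam GG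
  simp

/-- ROW SIEVEA.  `F ≥ 0` on `(K1, K2]`, sums over the multiples of every `e ≤ 30 R^2` known up to
`E`.  Use the library `Pool.Agent.Lib.MP_bf4c7f_nt.{Selberg,Bounds,Weights}`: weight `W R k`
(support coprime to 30), `W_eq`, `main_S`, `sum_abs_lam`, `GG`; for a prime `p > R`, `p > 5`:
`W R p = (lam R 1)^2 = (GG R)^2`.  `∑ F k W R k = ∑ ∑ lam d lam d' ∑_{(k,30)=1, lcm | k} F k`, and
the inner sum is `∑_{f | 30} μ(f) ∑_{f lcm | k} F k = 4/15 A / lcm + O(8 E)`. -/
theorem sieve_general (F : ℕ → ℝ) (K1 K2 R : ℕ) (A E : ℝ) (hE : 0 ≤ E)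
    (hR : 1 ≤ R) (hRK : R ≤ K1) (h5 : 5 ≤ K1) (hF : ∀ k ∈ Ioc K1 K2, 0 ≤ F k)
    (hsum : ∀ e : ℕ, 0 < e → e ≤ 30 * R ^ 2 →
      |∑ k ∈ (Ioc K1 K2).filter (fun k => e ∣ k), F k - A / e| ≤ E) :
    ∑ p ∈ (Ioc K1 K2).filter Nat.Prime, F p ≤
      4 / 15 * A / GG R + 8 * E * ((4 * (R : ℝ) + 14) / 15) ^ 2 := by
  have hG := sa_GG_pos R hR
  -- primes
  have h1 : (∑ p ∈ (Ioc K1 K2).filter Nat.Prime, F p) * GG R ^ 2 ≤
      ∑ k ∈ Ioc K1 K2, F k * W R k := by
    rw [sum_mul]
    calc ∑ p ∈ (Ioc K1 K2).filter Nat.Prime, F p * GG R ^ 2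
        = ∑ p ∈ (Ioc K1 K2).filter Nat.Prime, F p * W R p := by
          apply sum_congr rfl
          intro p hp
          rw [mem_filter, mem_Ioc] at hp
          obtain ⟨⟨hp1, hp2⟩, hp3⟩ := hp
          congr 1
          unfold W ind30
          have hc : Nat.Coprime p 30 := by
            rw [Nat.Prime.coprime_iff_not_dvd hp3]
            intro h
            have h30 : (30 : ℕ) = 2 * 3 * 5 := by norm_num
            rw [h30, hp3.dvd_mul, hp3.dvd_mul] at h
            rcases h with (h | h) | h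
            · have := Nat.le_of_dvd (by norm_num) h; omega
            · have := Nat.le_of_dvd (by norm_num) h; omega
            · have := Nat.le_of_dvd (by norm_num) h; omega
          rw [if_pos hc, one_mul]
          have hf : (Icc 1 R).filter (fun d => d ∣ p) = {1} := by
            ext d
            rw [mem_filter, mem_Icc, mem_singleton]
            constructor
            · rintro ⟨⟨h1, h2⟩, h3⟩
              rcases (Nat.dvd_prime hp3).1 h3 with h | h
              · exact h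
              · omega
            · rintro rfl
              exact ⟨⟨le_rfl, hR⟩, one_dvd _⟩
          rw [hf, sum_singleton, sa_lam_one]
      _ ≤ ∑ k ∈ Ioc K1 K2, F k * W R k := by
          apply sum_le_sum_of_subset_of_nonneg (filter_subset _ _)
          intro k hk _
          exact mul_nonneg (hF k hk) (W_nonneg R k)
  -- expansion
  have h2 : ∑ k ∈ Ioc K1 K2, F k * W R k = ∑ d ∈ Icc 1 R, ∑ d' ∈ Icc 1 R,
      lam R d * lam R d' *
        ∑ k ∈ Ioc K1 K2, F k * (if Nat.Coprime k 30 ∧ d.lcm d' ∣ k then 1 else 0) := by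
    simp_rw [W_eq, mul_sum]
    rw [sum_comm]
    apply sum_congr rfl
    intro d _
    rw [sum_comm]
    apply sum_congr rfl
    intro d' _
    apply sum_congr rfl
    intro k _
    have : (Nat.Coprime k 30 ∧ d.lcm d' ∣ k) ↔ (Nat.Coprime k 30 ∧ d ∣ k ∧ d' ∣ k) := by
      rw [Nat.lcm_dvd_iff]
    simp only [this]
    ring
  have h3 : |∑ k ∈ Ioc K1 K2, F k * W R k - 4 / 15 * A * GG R| ≤
      8 * E * (∑ d ∈ Icc 1 R, |lam R d|) ^ 2 := by
    rw [h2, ← main_S R, mul_sum, ← sum_sub_distrib]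
    have e2 : 8 * E * (∑ d ∈ Icc 1 R, |lam R d|) ^ 2 =
        ∑ d ∈ Icc 1 R, ∑ d' ∈ Icc 1 R, 8 * E * (|lam R d| * |lam R d'|) := by
      rw [sq, sum_mul_sum, mul_sum]
      apply sum_congr rfl; intro d _
      rw [mul_sum]
    rw [e2]
    refine (abs_sum_le_sum_abs _ _).trans (sum_le_sum fun d hd => ?_)
    rw [mul_sum, ← sum_sub_distrib]
    refine (abs_sum_le_sum_abs _ _).trans (sum_le_sum fun d' hd' => ?_)
    by_cases s1 : SC d
    swap
    · rw [lam_eq_zero_of_not_SC s1]; simp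
    by_cases s2 : SC d'
    swap
    · rw [lam_eq_zero_of_not_SC s2]; simp
    rw [mem_Icc] at hd hd'
    have hl : Nat.Coprime (d.lcm d') 30 :=
      Nat.Coprime.coprime_dvd_left (Nat.lcm_dvd_mul d d') (Nat.Coprime.mul_left s1.2 s2.2)
    have hpos : 0 < d.lcm d' := Nat.lcm_pos hd.1 hd'.1
    have hle : d.lcm d' ≤ R ^ 2 := by
      calc d.lcm d' ≤ d * d' := Nat.le_of_dvd (Nat.mul_pos hd.1 hd'.1) (Nat.lcm_dvd_mul d d')
        _ ≤ R * R := Nat.mul_le_mul hd.2 hd'.2
        _ = R ^ 2 := (sq R).symm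
    have h6 := sa_inner F K1 K2 R A E hsum (d.lcm d') hpos hle hl
    have e1 : lam R d * lam R d' *
        ∑ k ∈ Ioc K1 K2, F k * (if Nat.Coprime k 30 ∧ d.lcm d' ∣ k then 1 else 0) -
        4 / 15 * A * (lam R d * lam R d' / ((d.lcm d' : ℕ) : ℝ)) =
        (lam R d * lam R d') *
        (∑ k ∈ Ioc K1 K2, F k * (if Nat.Coprime k 30 ∧ d.lcm d' ∣ k then 1 else 0) -
          4 / 15 * A / ((d.lcm d' : ℕ) : ℝ)) := by
      ring
    rw [e1, abs_mul, abs_mul]
    calc |lam R d| * |lam R d'| * _ ≤ |lam R d| * |lam R d'| * (8 * E) :=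
          mul_le_mul_of_nonneg_left h6 (by positivity)
      _ = _ := by ring
  have h4 := sum_abs_lam R
  have h4' : 0 ≤ ∑ d ∈ Icc 1 R, |lam R d| := sum_nonneg (fun _ _ => abs_nonneg _)
  have h7 : (∑ d ∈ Icc 1 R, |lam R d|) ^ 2 ≤ ((4 * (R : ℝ) + 14) / 15) ^ 2 * GG R ^ 2 := by
    rw [← mul_pow]
    exact pow_le_pow_left₀ h4' h4 2
  have h8 := (abs_le.1 h3).2
  have h9 : (∑ p ∈ (Ioc K1 K2).filter Nat.Prime, F p) * GG R ^ 2 ≤
      (4 / 15 * A / GG R + 8 * E * ((4 * (R : ℝ) + 14) / 15) ^ 2) * GG R ^ 2 := by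
    have e3 : (4 / 15 * A / GG R + 8 * E * ((4 * (R : ℝ) + 14) / 15) ^ 2) * GG R ^ 2 =
        4 / 15 * A * GG R + 8 * E * (((4 * (R : ℝ) + 14) / 15) ^ 2 * GG R ^ 2) := by
      field_simp
    rw [e3]
    have := mul_le_mul_of_nonneg_left h7 (by positivity : (0 : ℝ) ≤ 8 * E)
    linarith
  exact le_of_mul_le_mul_right h9 (by positivity)

end Pool.Agent.Lib.MP_bf4c7f_lp
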