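import Pool.Agent.Lib.MP_bf4c7f_lp.Defs

/-! ROW TRAP: the trapezoid; ROW FOUR: its Fourier series. -/

set_option autoImplicit false

namespace Pool.Agent.Lib.MP_bf4c7f_lp

open Finset

private lemma bet_add_int (t : ℝ) (m : ℤ) : bet (t + m) = bet t := by
  unfold bet
  rw [Int.fract_add_intCast]

private lemma bet_eq {s : ℝ} (h1 : -1 ≤ s) (h2 : s ≤ 1) : bet s = s ^ 2 - |s| + 1 / 6 := by
  rcases lt_or_ge s 0 with hs | hs
  · have hb : bet s = bet (s + 1) := by
      have := bet_add_int s 1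
      rw [Int.cast_one] at this
      exact this.symm
    have hf : Int.fract (s + 1) = s + 1 := Int.fract_eq_self.2 ⟨by linarith, by linarith⟩
    rw [hb, abs_of_neg hs]
    unfold bet
    rw [hf]
    ring
  · rw [abs_of_nonneg hs]
    rcases eq_or_lt_of_le h2 with h | h
    · subst h
      unfold bet
      rw [Int.fract_one]
      norm_num
    · have hf : Int.fract s = s := Int.fract_eq_self.2 ⟨hs, h⟩
      unfold bet
      rw [hf]

private lemma abs_pair (t p : ℝ) (hp : 0 ≤ p) : |t + p| + |t - p| = 2 * max |t| p := by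
  rcases le_total |t| p with h | h
  · rw [max_eq_right h]
    obtain ⟨h1, h2⟩ := abs_le.1 h
    rw [abs_of_nonneg (by linarith : 0 ≤ t + p), abs_of_nonpos (by linarith : t - p ≤ 0)]
    ring
  · rw [max_eq_left h]
    rcases le_total 0 t with ht | ht
    · rw [abs_of_nonneg ht] at h ⊢
      rw [abs_of_nonneg (by linarith : 0 ≤ t + p), abs_of_nonneg (by linarith : 0 ≤ t - p)]
      ring
    · rw [abs_of_nonpos ht] at h ⊢
      rw [abs_of_nonpos (by linarith : t + p ≤ 0), abs_of_nonpos (by linarith : t - p ≤ 0)]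
      ring

private lemma trap_formula (p q t : ℝ) (hp : 0 ≤ p) (hpq : p < q) (hq : q ≤ 1 / 2)
    (ht : |t| ≤ 1 / 2) : trap p q t = (max |t| q - max |t| p) / (q - p) := by
  obtain ⟨h1, h2⟩ := abs_le.1 ht
  have e1 := abs_pair t p hp
  have e2 := abs_pair t q (by linarith)
  have hd : q - p ≠ 0 := by intro h; linarith
  unfold trap
  rw [bet_eq (by linarith) (by linarith), bet_eq (by linarith) (by linarith),
    bet_eq (by linarith) (by linarith), bet_eq (by linarith) (by linarith)]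
  have e3 : max |t| p = (|t + p| + |t - p|) / 2 := by linarith
  have e4 : max |t| q = (|t + q| + |t - q|) / 2 := by linarith
  rw [e3, e4]
  field_simp
  ring

private lemma trap_sub_int (p q t : ℝ) (m : ℤ) : trap p q (t - m) = trap p q t := by
  have h : ∀ s : ℝ, bet (t - m + s) = bet (t + s) := by
    intro s
    have := bet_add_int (t - m + s) m
    rw [← this]
    congr 1
    ring
  unfold trap
  have e1 := h p
  have e2 := h (-p)
  have e3 := h q
  have e4 := h (-q)
  rw [← sub_eq_add_neg, ← sub_eq_add_neg] at e2 e4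
  rw [e1, e2, e3, e4]

/-- ROW TRAP.  Periodic of period 1 and even in `t`; for `|t| ≤ 1/2`: equal to `1` for `|t| ≤ p`,
`(q-|t|)/(q-p)` for `p ≤ |t| ≤ q`, `0` for `q ≤ |t|`.  (With `{t}` reduced to `[0,1)`: `bet` of the
four arguments is `u^2 - u + 1/6` at `u` or `u ± 1`.) -/
theorem trap_nonneg (p q t : ℝ) (hp : 0 ≤ p) (hpq : p < q) (hq : q ≤ 1 / 2) :
    0 ≤ trap p q t := by
  have ht : |t - (round t : ℤ)| ≤ 1 / 2 := abs_sub_round t
  rw [← trap_sub_int p q t (round t), trap_formula p q _ hp hpq hq ht]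
  apply div_nonneg
  · have := max_le_max (le_refl |t - (round t : ℤ)|) hpq.le
    linarith
  · linarith

theorem trap_eq_one (p q t : ℝ) (hp : 0 ≤ p) (hpq : p < q) (hq : q ≤ 1 / 2) (m : ℤ)
    (hm : |t - m| ≤ p) : trap p q t = 1 := by
  rw [← trap_sub_int p q t m, trap_formula p q _ hp hpq hq (by linarith),
    max_eq_right hm, max_eq_right (by linarith)]
  exact div_self (by intro h; linarith)

private lemma FF_pos (x ε : ℝ) (k : ℕ) (hx : 0 < x) (hε : 0 < ε)
    (hk : (1 + 2 * ε) * x ≤ k) : (0 : ℝ) < k :=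
  lt_of_lt_of_le (mul_pos (by linarith) hx) hk

private lemma FF_aux (x ε : ℝ) (k : ℕ) (hx : 0 < x) (hε : 0 < ε)
    (hk : (1 + 2 * ε) * x ≤ k) :
    0 ≤ x / (2 * k) ∧ x / (2 * k) < (1 / 2 + ε) * x / k ∧ (1 / 2 + ε) * x / k ≤ 1 / 2 := by
  have hk0 : (0 : ℝ) < k := FF_pos x ε k hx hε hk
  refine ⟨by positivity, ?_, ?_⟩
  · rw [← div_div]
    apply div_lt_div_of_pos_right _ hk0
    have := mul_pos hε hx
    linarith
  · rw [div_le_iff₀ hk0]
    linarith

/-- consequence: `FF` is nonnegative -/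
theorem FF_nonneg (a x ε : ℝ) (k : ℕ) (hx : 0 < x) (hε : 0 < ε)
    (hk : (1 + 2 * ε) * x ≤ k) : 0 ≤ FF a x ε k := by
  obtain ⟨h1, h2, h3⟩ := FF_aux x ε k hx hε hk
  exact trap_nonneg _ _ _ h1 h2 h3

/-- consequence: `FF = 1` at the moduli having a multiple in `(a, a+x)` -/
theorem FF_hit (a x k : ℕ) (ε : ℝ) (hx : 0 < x) (hε : 0 < ε)
    (hk : (1 + 2 * ε) * x ≤ k) (h : Hit a x k) : FF a x ε k = 1 := by
  have hxr : (0 : ℝ) < x := by exact_mod_cast hx
  obtain ⟨h1, h2, h3⟩ := FF_aux (x : ℝ) ε k hxr hε hk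
  have hk0 : (0 : ℝ) < k := FF_pos (x : ℝ) ε k hxr hε hk
  obtain ⟨n, hn1, hn2, m, rfl⟩ := h
  apply trap_eq_one _ _ _ h1 h2 h3 (m : ℤ)
  have e1 : (a : ℝ) < k * m := by exact_mod_cast hn1
  have e2 : (k : ℝ) * m < a + x := by exact_mod_cast hn2
  have e3 : ((a : ℝ) + x / 2) / k - ((m : ℤ) : ℝ) = (a + x / 2 - k * m) / k := by
    rw [Int.cast_natCast]
    field_simp
  rw [e3, abs_div, abs_of_pos hk0, ← div_div]
  apply div_le_div_of_nonneg_right _ hk0.le
  rw [abs_le]
  constructor <;> linarith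

end Pool.Agent.Lib.MP_bf4c7f_lp
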