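import Pool.Agent.Lib.MP_bf4c7f_lp.SieveA
import Pool.Agent.Lib.MP_bf4c7f_lp.RangeB
import Pool.Agent.Lib.MP_bf4c7f_lp.Trap

/-! ROW SIEVEB: the number of primes having a multiple in the interval. -/

set_option autoImplicit false

namespace Pool.Agent.Lib.MP_bf4c7f_lp

open Finset Pool.Agent.Lib.MP_bf4c7f

/-- ROW SIEVEB.  `sieve_general` with `F = FF a x ε`, `A = (1+ε) x log(K2/K1)`; `range_bound` with
`a0 = a - ε x ≥ 0.994 x^2`, `a1 = a + x + ε x ≤ 1.016 x^2`; `FF_nonneg`, `FF_hit`. -/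
theorem sieve_hit (a x K1 K2 nb R : ℕ) (ε : ℝ) (hx : 200 ≤ x) (ha : x ^ 2 - x ≤ a)
    (ha' : a ≤ x ^ 2 + 2 * x) (hε : 0 < ε) (hε' : ε ≤ 1 / 5)
    (hK1 : 6 * x ≤ K1) (h12 : K1 ≤ K2) (hnb : K2 ≤ K1 * 2 ^ nb)
    (hR : 1 ≤ R) (hR2 : 90 * R ^ 2 ≤ K1) :
    (((Ioc K1 K2).filter (fun p => Nat.Prime p ∧ Hit a x p)).card : ℝ) ≤
      4 / 15 * ((1 + ε) * x * Real.log ((K2 : ℝ) / K1)) / GG R +
      8 * (nb * (20.2 * √((x : ℝ) / ε)) + 3.7 * (K2 : ℝ) ^ 2 / (x : ℝ) ^ 2 + 1) *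
        ((4 * (R : ℝ) + 14) / 15) ^ 2 := by
  have hxR : (200 : ℝ) ≤ x := by exact_mod_cast hx
  have hx0 : (0 : ℝ) < x := by linarith
  have hxn : 0 < x := by omega
  have hK1R : 6 * (x : ℝ) ≤ K1 := by exact_mod_cast hK1
  have hK10 : (0 : ℝ) < K1 := by linarith
  have haR' : (a : ℝ) ≤ (x : ℝ) ^ 2 + 2 * x := by exact_mod_cast ha'
  have haR : (x : ℝ) ^ 2 - x ≤ a := by
    have h : x ^ 2 ≤ a + x := by omega
    have h' : (x : ℝ) ^ 2 ≤ a + x := by exact_mod_cast h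
    linarith
  have hx2 : 200 * (x : ℝ) ≤ (x : ℝ) ^ 2 := by nlinarith
  have hεx : ε * x ≤ x / 5 := by nlinarith
  have hεx0 : 0 < ε * x := mul_pos hε hx0
  have hlow : 0.994 * (x : ℝ) ^ 2 ≤ a - ε * x := by linarith
  have hup : (a : ℝ) + x + ε * x ≤ 1.016 * (x : ℝ) ^ 2 := by linarith
  have hx2pos : (0 : ℝ) < (x : ℝ) ^ 2 := by positivity
  have ha0 : (0 : ℝ) < a - ε * x := by nlinarith
  have hQ : 30 * (ε * x) ≤ K1 := by linarith
  have hbig : ∀ k : ℕ, K1 < k → (1 + 2 * ε) * x ≤ k := by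
    intro k hk
    have : (K1 : ℝ) < k := by exact_mod_cast hk
    nlinarith
  have hR2' : R ≤ K1 := by nlinarith
  have hE0 : (0 : ℝ) ≤ nb * (20.2 * √((x : ℝ) / ε)) + 3.7 * (K2 : ℝ) ^ 2 / (x : ℝ) ^ 2 + 1 := by
    positivity
  have hmain := sieve_general (fun k => FF a x ε k) K1 K2 R
    ((1 + ε) * x * Real.log ((K2 : ℝ) / K1))
    (nb * (20.2 * √((x : ℝ) / ε)) + 3.7 * (K2 : ℝ) ^ 2 / (x : ℝ) ^ 2 + 1) hE0 hR hR2'
    (by omega)
    (fun k hk => FF_nonneg a x ε k hx0 hε (hbig k (mem_Ioc.1 hk).1))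
    (by
      intro e he he2
      have h3 : 3 * e ≤ K1 := by
        calc 3 * e ≤ 3 * (30 * R ^ 2) := by omega
          _ = 90 * R ^ 2 := by ring
          _ ≤ K1 := hR2
      have hr := range_bound a x ε (a - ε * x) (a + x + ε * x) e K1 K2 nb hx0 hε he ha0 le_rfl
        le_rfl h3 h12 hnb hQ
      refine hr.trans ?_
      have hb1 : √(((a : ℝ) + x + ε * x) / (ε * x)) ≤ 1.01 * √((x : ℝ) / ε) := by
        rw [show (1.01 : ℝ) * √((x : ℝ) / ε) = √((1.01 : ℝ) ^ 2 * ((x : ℝ) / ε)) by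
          rw [Real.sqrt_mul (by norm_num), Real.sqrt_sq (by norm_num)]]
        apply Real.sqrt_le_sqrt
        rw [div_le_iff₀ hεx0]
        have : (1.01 : ℝ) ^ 2 * ((x : ℝ) / ε) * (ε * x) = (1.01 : ℝ) ^ 2 * (x : ℝ) ^ 2 := by
          field_simp
        rw [this]
        nlinarith
      have hsq0 : 0 ≤ √((x : ℝ) / ε) := Real.sqrt_nonneg _
      have hb1' : (nb : ℝ) * (19.95 * √(((a : ℝ) + x + ε * x) / (ε * x))) ≤
          nb * (20.2 * √((x : ℝ) / ε)) := by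
        apply mul_le_mul_of_nonneg_left _ (Nat.cast_nonneg nb)
        nlinarith
      have hb2 : 3.6 * (K2 : ℝ) ^ 2 / (a - ε * x) ≤ 3.7 * (K2 : ℝ) ^ 2 / (x : ℝ) ^ 2 := by
        rw [div_le_div_iff₀ ha0 hx2pos]
        have hk2 : (0 : ℝ) ≤ (K2 : ℝ) ^ 2 := by positivity
        have h4 : 3.6 * (x : ℝ) ^ 2 ≤ 3.7 * (a - ε * x) := by nlinarith
        nlinarith [mul_le_mul_of_nonneg_left h4 hk2]
      have hb3 : 1.5 * (1 + ε) * x / K1 ≤ 1 := by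
        rw [div_le_one hK10]
        nlinarith
      linarith)
  refine le_trans ?_ hmain
  have h1 : (((Ioc K1 K2).filter (fun p => Nat.Prime p ∧ Hit a x p)).card : ℝ) =
      ∑ p ∈ (Ioc K1 K2).filter (fun p => Nat.Prime p ∧ Hit a x p), FF a x ε p := by
    rw [Finset.cast_card]
    apply Finset.sum_congr rfl
    intro p hp
    rw [mem_filter, mem_Ioc] at hp
    exact (FF_hit a x p ε hxn hε (hbig p hp.1.1) hp.2.2).symm
  rw [h1]
  apply Finset.sum_le_sum_of_subset_of_nonneg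
  · intro p hp
    rw [mem_filter] at hp ⊢
    exact ⟨hp.1, hp.2.1⟩
  · intro p hp _
    rw [mem_filter, mem_Ioc] at hp
    exact FF_nonneg a x ε p hx0 hε (hbig p hp.1.1)

end Pool.Agent.Lib.MP_bf4c7f_lp
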