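import Pool.Agent.Lib.MP_bf4c7f_lp.KL

/-! ROW VDC: the exponential sum over `B / l`. -/

set_option autoImplicit false

namespace Pool.Agent.Lib.MP_bf4c7f_lp

open Finset

private theorem VDC_norm_ex (x : ℝ) : ‖ex x‖ = 1 := by
  unfold ex
  exact Complex.norm_exp_ofReal_mul_I _

private theorem VDC_triv (g : ℕ → ℝ) (s t : ℕ) : ‖∑ l ∈ Ioc s t, ex (g l)‖ ≤ ((t - s : ℕ) : ℝ) := by
  refine (norm_sum_le _ _).trans ?_
  simp [VDC_norm_ex]

private theorem VDC_cut (δ : ℕ → ℝ) (c : ℝ) (s t : ℕ) (hst : s < t)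
    (hanti : ∀ l, s < l → l + 1 < t → δ (l + 1) ≤ δ l) :
    ∃ u, s ≤ u ∧ u < t ∧ (∀ l, s < l → l ≤ u → l < t ∧ c < δ l) ∧
      (∀ l, u < l → l < t → δ l ≤ c) := by
  classical
  have hex : ∃ u, s ≤ u ∧ (t ≤ u + 1 ∨ δ (u + 1) ≤ c) := ⟨t - 1, by omega, Or.inl (by omega)⟩
  have h1 := Nat.find_spec hex
  have h2 : Nat.find hex ≤ t - 1 := Nat.find_min' hex ⟨by omega, Or.inl (by omega)⟩
  refine ⟨Nat.find hex, h1.1, by omega, ?_, ?_⟩
  · intro l hl hlu
    have h3 : ¬ (s ≤ l - 1 ∧ (t ≤ l - 1 + 1 ∨ δ (l - 1 + 1) ≤ c)) :=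
      Nat.find_min hex (m := l - 1) (by omega)
    have h4 : l - 1 + 1 = l := by omega
    rw [h4] at h3
    push Not at h3
    have h5 := h3 (by omega)
    exact ⟨h5.1, h5.2⟩
  · intro l hl
    induction l, hl using Nat.le_induction with
    | base =>
      intro hlt
      rcases h1.2 with h | h
      · omega
      · exact h
    | succ k hk ih =>
      intro hlt
      have h3 := ih (by omega)
      have h4 : Nat.find hex + 1 ≤ k := hk
      exact (hanti k (by omega) hlt).trans h3

private theorem VDC_dec (δ : ℕ → ℝ) (lam : ℝ) (s t : ℕ)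
    (hanti : ∀ l, s < l → l + 1 < t → δ (l + 1) + lam ≤ δ l) (a : ℕ) (ha : s < a) :
    ∀ n : ℕ, a + n < t → δ (a + n) + n * lam ≤ δ a := by
  intro n
  induction n with
  | zero => intro _; simp
  | succ n ih =>
    intro h
    have h1 := ih (by omega)
    have h2 := hanti (a + n) (by omega) (by omega)
    have h3 : a + (n + 1) = a + n + 1 := by omega
    rw [h3]
    push_cast
    linarith

private theorem VDC_gen (g : ℕ → ℝ) (lam θ : ℝ) (hlam : 0 < lam) (hθ0 : 0 < θ) (hθ1 : θ ≤ 1 / 2) :
    ∀ K s t : ℕ,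
      (∀ l, s < l → l + 1 < t → (g (l + 1) - g (l + 2)) + lam ≤ g l - g (l + 1)) →
      (∀ l, s < l → l < t → θ ≤ g l - g (l + 1)) →
      (∀ l, s < l → l < t → g l - g (l + 1) ≤ (K : ℝ) + 1 - θ) →
      ‖∑ l ∈ Ioc s t, ex (g l)‖ ≤ ((K : ℝ) + 1) * (2 / (Real.pi * θ)) + K * (2 * θ / lam + 1) := by
  intro K
  induction K with
  | zero =>
    intro s t h1 h2 h3
    have := kusmin_landau g s t 0 θ hθ0 hθ1 (fun l hl hl' => by linarith [h1 l hl hl'])
      (fun l hl hl' => by simpa using h2 l hl hl') (fun l hl hl' => by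
        have := h3 l hl hl'
        push_cast at this ⊢
        linarith)
    simpa using this
  | succ K ih =>
    intro s t h1 h2 h3
    have ha0 : 0 ≤ 2 / (Real.pi * θ) := by positivity
    have hb0 : 0 ≤ 2 * θ / lam + 1 := by positivity
    rcases Nat.lt_or_ge s t with hst | hst
    swap
    · rw [Ioc_eq_empty (by omega)]
      simp only [sum_empty, norm_zero]
      positivity
    set δ : ℕ → ℝ := fun l => g l - g (l + 1) with hδ
    have hanti : ∀ l, s < l → l + 1 < t → δ (l + 1) + lam ≤ δ l := fun l hl hl' => h1 l hl hl'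
    obtain ⟨u, hsu, hut, hu1, hu2⟩ := VDC_cut δ ((K : ℝ) + 1 + θ) s t hst
      (fun l hl hl' => by linarith [hanti l hl hl'])
    obtain ⟨v, huv, hvt, hv1, hv2⟩ := VDC_cut δ ((K : ℝ) + 1 - θ) u t hut
      (fun l hl hl' => by linarith [hanti l (by omega) hl'])
    have hsplit : ∑ l ∈ Ioc s t, ex (g l)
        = ∑ l ∈ Ioc s u, ex (g l) + ∑ l ∈ Ioc u v, ex (g l) + ∑ l ∈ Ioc v t, ex (g l) := by
      rw [sum_Ioc_consecutive _ hsu huv, sum_Ioc_consecutive _ (hsu.trans huv) hvt.le]
    -- first part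
    have p1 : ‖∑ l ∈ Ioc s u, ex (g l)‖ ≤ 2 / (Real.pi * θ) := by
      refine kusmin_landau g s u ((K : ℤ) + 1) θ hθ0 hθ1 ?_ ?_ ?_
      · intro l hl hl'
        linarith [h1 l hl (by omega)]
      · intro l hl hl'
        have := (hu1 l hl (by omega)).2
        push_cast
        simp only [hδ] at this
        linarith
      · intro l hl hl'
        have := h3 l hl (by omega)
        push_cast at this ⊢
        linarith
    -- second part
    have p2 : ‖∑ l ∈ Ioc u v, ex (g l)‖ ≤ 2 * θ / lam + 1 := by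
      refine (VDC_triv g u v).trans ?_
      rcases Nat.lt_or_ge u v with huv' | huv'
      · have q1 := VDC_dec δ lam s t hanti (u + 1) (by omega) (v - (u + 1)) (by omega)
        have e1 : u + 1 + (v - (u + 1)) = v := by omega
        rw [e1] at q1
        have q2 := hu2 (u + 1) (by omega) (by omega)
        have q3 := (hv1 v huv' le_rfl).2
        have q4 : ((v - u : ℕ) : ℝ) = ((v - (u + 1) : ℕ) : ℝ) + 1 := by
          have : v - u = v - (u + 1) + 1 := by omega
          rw [this]; push_cast; ring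
        rw [q4]
        have q5 : ((v - (u + 1) : ℕ) : ℝ) * lam ≤ 2 * θ := by linarith
        have q6 : ((v - (u + 1) : ℕ) : ℝ) ≤ 2 * θ / lam := by
          rw [le_div_iff₀ hlam]; exact q5
        linarith
      · have : v - u = 0 := by omega
        rw [this]
        simpa using hb0
    -- third part
    have p3 := ih v t (fun l hl hl' => h1 l (by omega) hl') (fun l hl hl' => h2 l (by omega) hl')
      (fun l hl hl' => by
        have := hv2 l hl hl'
        simpa [hδ] using this)
    rw [hsplit]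
    refine (norm_add_le _ _).trans ?_
    refine (add_le_add (norm_add_le _ _) le_rfl).trans ?_
    push_cast
    nlinarith [p1, p2, p3]

/-- ROW VDC. Second derivative test for `B / l` on `(M, 2M]`.  Write `G = B/M^2`,
`δ_l = B/l - B/(l+1) = B/(l(l+1))` (strictly decreasing), `λ = B/(4M^3)`; `δ_l < G`,
`δ_l ≥ G/4` for `l < t`, and `δ_(l-1) - δ_l = 2B/((l-1)l(l+1)) ≥ λ` for `l ≤ 2M`.
Case `G ≤ 3/4`: `kusmin_landau` on the whole range with `ν = 0`, `θ = G/4` gives
`2/(π G/4) = 8M^2/(πB)`.
Case `λ > 1/200`: trivially at most `M + 1` terms and `9.5 √(B/M) = 19 M √λ ≥ M + 1` (`M ≥ 3`).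
Case `G > 3/4`, `λ ≤ 1/200`: cut the range by `ν_l = round δ_l` (= `⌊δ_l + 1/2⌋`), every level set is
a range of consecutive `l`.  `ν = 0`: `kusmin_landau` with `θ = min (G/4) (1/2)`, at most
`8/(π 3/4) ≤ 3.4`.  `ν ≥ 1`: with `θ = √(2λ/π) ≤ 1/2` cut at `δ = ν + θ` and `δ = ν - θ`; the two
outer parts cost `2/(πθ)` each (intervals `[ν+θ, ν+1-θ]` and `[(ν-1)+θ, ν-θ]`), the inner one has at
most `2θ/λ + 1` terms; total at most `3.1916/√λ + 1`.  Number of `ν ≥ 1`: they satisfy
`ν < G + 1/2`, hence at most `4/3 G` of them (`G > 3/4`).  Total at most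
`4/3 G (3.1916/√λ + 1) + 3.4 ≤ 4/3 G (3.1916/√λ + 4.4) ≤ 4.67 G/√λ = 9.34 √(B/M)`. -/
theorem exp_sum_bound (B M : ℝ) (hB : 0 < B) (hM : 3 ≤ M) (s t : ℕ)
    (hs : ∀ l ∈ Ioc s t, M < l ∧ (l : ℝ) ≤ 2 * M) :
    ‖∑ l ∈ Ioc s t, ex (B / l)‖ ≤ 9.5 * √(B / M) + 8 * M ^ 2 / (Real.pi * B) := by
  have hM0 : 0 < M := by linarith
  have hpi := Real.pi_pos
  rcases Nat.lt_or_ge s t with hst | hst
  swap
  · rw [Ioc_eq_empty (by omega)]
    simp only [sum_empty, norm_zero]
    positivity
  have hMs : M < (s : ℝ) + 1 := by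
    have := (hs (s + 1) (mem_Ioc.2 ⟨by omega, by omega⟩)).1
    push_cast at this
    exact this
  have htM : (t : ℝ) ≤ 2 * M := (hs t (mem_Ioc.2 ⟨hst, le_rfl⟩)).2
  set G : ℝ := B / M ^ 2 with hG
  set lam : ℝ := B / (4 * M ^ 3) with hlam
  have hG0 : 0 < G := by positivity
  have hlam0 : 0 < lam := by positivity
  have hGl : G = 4 * M * lam := by rw [hG, hlam]; field_simp
  set g : ℕ → ℝ := fun l => B / l with hg
  have hlM : ∀ l : ℕ, s < l → M < (l : ℝ) := by
    intro l hl
    have : ((s : ℝ) + 1) ≤ l := by exact_mod_cast hl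
    linarith
  have hδ : ∀ l : ℕ, s < l → g l - g (l + 1) = B / ((l : ℝ) * (l + 1)) := by
    intro l hl
    have h0 : (0 : ℝ) < l := by linarith [hlM l hl]
    simp only [hg]
    push_cast
    field_simp
    ring
  have hup : ∀ l : ℕ, s < l → g l - g (l + 1) ≤ G := by
    intro l hl
    rw [hδ l hl, hG]
    have h0 := hlM l hl
    apply div_le_div_of_nonneg_left hB.le (by positivity)
    nlinarith
  have hlow : ∀ l : ℕ, s < l → l < t → G / 4 ≤ g l - g (l + 1) := by
    intro l hl hlt
    rw [hδ l hl, hG, div_div]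
    have h0 := hlM l hl
    have hl0 : (0 : ℝ) < l := by linarith
    have h1 : (l : ℝ) + 1 ≤ t := by exact_mod_cast hlt
    apply div_le_div_of_nonneg_left hB.le (by positivity)
    have h2 : (l : ℝ) ≤ 2 * M := by linarith
    have h3 : (l : ℝ) + 1 ≤ 2 * M := by linarith
    nlinarith
  have hdec : ∀ l : ℕ, s < l → l + 1 < t →
      (g (l + 1) - g (l + 2)) + lam ≤ g l - g (l + 1) := by
    intro l hl hlt
    have h0 := hlM l hl
    have h1 : (l : ℝ) + 2 ≤ t := by exact_mod_cast hlt
    have h2 : g (l + 1) - g (l + 2) = B / (((l : ℝ) + 1) * (l + 2)) := by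
      have := hδ (l + 1) (by omega)
      push_cast at this
      rw [show l + 2 = l + 1 + 1 from rfl, this]
      ring_nf
    rw [h2, hδ l hl]
    have h3 : B / ((l : ℝ) * (l + 1)) - B / (((l : ℝ) + 1) * (l + 2))
        = 2 * B / ((l : ℝ) * (l + 1) * (l + 2)) := by
      have : (0 : ℝ) < l := by linarith
      field_simp
      ring
    have h4 : lam ≤ 2 * B / ((l : ℝ) * (l + 1) * (l + 2)) := by
      have hl0 : (0 : ℝ) < l := by linarith
      have e : lam = 2 * B / ((2 * M) ^ 3) := by rw [hlam]; field_simp; ring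
      rw [e]
      apply div_le_div_of_nonneg_left (by positivity) (by positivity)
      have a1 : (l : ℝ) ≤ 2 * M := by linarith
      have a2 : (l : ℝ) + 1 ≤ 2 * M := by linarith
      have a3 : (l : ℝ) + 2 ≤ 2 * M := by linarith
      calc (l : ℝ) * (l + 1) * (l + 2) ≤ (2 * M) * (2 * M) * (2 * M) := by gcongr
        _ = (2 * M) ^ 3 := by ring
    linarith
  have hX : √(B / M) = 2 * M * √lam := by
    have : B / M = (2 * M * √lam) ^ 2 := by
      rw [mul_pow, Real.sq_sqrt hlam0.le, hlam]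
      field_simp
      ring
    rw [this, Real.sqrt_sq (by positivity)]
  have hr0 : 0 < √lam := Real.sqrt_pos.2 hlam0
  have hr2 : √lam ^ 2 = lam := Real.sq_sqrt hlam0.le
  have hT0 : 0 ≤ 8 * M ^ 2 / (Real.pi * B) := by positivity
  rcases le_or_gt G (3 / 4) with hG1 | hG1
  · have := kusmin_landau g s t 0 (G / 4) (by positivity) (by linarith)
      (fun l hl hl' => by linarith [hdec l hl hl'])
      (fun l hl hl' => by simpa using hlow l hl hl')
      (fun l hl hl' => by
        have := hup l hl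
        push_cast
        linarith)
    refine this.trans ?_
    have e : 2 / (Real.pi * (G / 4)) = 8 * M ^ 2 / (Real.pi * B) := by
      rw [hG]; field_simp; ring
    rw [e]
    have : 0 ≤ 9.5 * √(B / M) := by positivity
    linarith
  rcases lt_or_ge (1 / 200) lam with hl1 | hl1
  · refine (VDC_triv g s t).trans ?_
    have h1 : ((t - s : ℕ) : ℝ) ≤ M + 1 := by
      rw [Nat.cast_sub hst.le]; linarith
    have h2 : (0.07 : ℝ) ≤ √lam := by
      apply Real.le_sqrt_of_sq_le
      norm_num at hl1 ⊢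
      linarith
    rw [hX]
    nlinarith
  · set θ : ℝ := √(2 * lam / Real.pi) with hθ
    have hθ0 : 0 < θ := Real.sqrt_pos.2 (by positivity)
    have hθ2 : θ ^ 2 = 2 * lam / Real.pi := Real.sq_sqrt (by positivity)
    have hpi3 : (3.14 : ℝ) < Real.pi := by have := Real.pi_gt_d2; linarith
    set r : ℝ := √lam with hr
    have hr1 : r ≤ 0.0708 := by
      rw [hr]
      apply Real.sqrt_le_iff.2
      constructor
      · norm_num
      · norm_num at hl1 ⊢
        linarith
    have hθr : θ ≤ 0.8 * r := by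
      apply le_of_sq_le_sq _ (by positivity)
      rw [hθ2, mul_pow, hr2, div_le_iff₀ hpi]
      nlinarith
    have ha : 2 / (Real.pi * θ) = θ / lam := by
      rw [div_eq_div_iff (by positivity) hlam0.ne']
      have : Real.pi * θ ^ 2 = 2 * lam := by rw [hθ2]; field_simp
      nlinarith
    have hKa : θ * (θ / lam) = 2 / Real.pi := by
      have : θ * (θ / lam) = θ ^ 2 / lam := by ring
      rw [this, hθ2]; field_simp
    have h2pi : 2 / Real.pi ≤ 0.637 := by
      rw [div_le_iff₀ hpi]; linarith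
    set K : ℕ := ⌊G + θ⌋₊ with hK
    have hK1 : (K : ℝ) ≤ G + θ := Nat.floor_le (by positivity)
    have hK2 : G + θ < K + 1 := Nat.lt_floor_add_one _
    have := VDC_gen g lam θ hlam0 hθ0 (by linarith) K s t hdec
      (fun l hl hl' => by
        have := hlow l hl hl'
        linarith)
      (fun l hl hl' => by
        have := hup l hl
        linarith)
    refine this.trans ?_
    rw [ha, hX]
    have h2b : 2 * θ / lam = 2 * (θ / lam) := by ring
    rw [h2b]
    set A : ℝ := θ / lam with hA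
    have hA0 : 0 < A := by positivity
    -- A * r ≤ 0.8
    have hAr : A * r ≤ 0.8 := by
      have : A * r * r = θ := by
        rw [mul_assoc, ← pow_two, hr2, hA]; field_simp
      by_contra hcon
      push Not at hcon
      nlinarith
    have hMr : 3 / 16 < M * r * r := by
      have : G = 4 * (M * r * r) := by rw [hGl, ← hr2]; ring
      linarith
    have hGM : G = 4 * M * r * r := by rw [hGl, ← hr2]; ring
    have hlm : lam = r * r := by rw [← hr2]; ring
    -- bound on A
    have hAM : A ≤ 0.8 * (16 / 3) * (M * r) := by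
      have h1 : A * (3 / 16) ≤ A * (M * r * r) := by
        apply mul_le_mul_of_nonneg_left hMr.le hA0.le
      have h2 : A * (M * r * r) = (A * r) * (M * r) := by ring
      have h3 : (A * r) * (M * r) ≤ 0.8 * (M * r) := by
        apply mul_le_mul_of_nonneg_right hAr (by positivity)
      linarith
    have hAG : A * G ≤ 3.2 * (M * r) := by
      have h4 : A * G = 4 * ((A * r) * (M * r)) := by rw [hGM]; ring
      rw [h4]
      have h3 : (A * r) * (M * r) ≤ 0.8 * (M * r) := by
        apply mul_le_mul_of_nonneg_right hAr (by positivity)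
      linarith
    have hMr0 : 0 < M * r := by positivity
    have hG3 : G ≤ 0.2832 * (M * r) := by
      have h4 : G = 4 * (r * (M * r)) := by rw [hGM]; ring
      rw [h4]
      have h5 : r * (M * r) ≤ 0.0708 * (M * r) := mul_le_mul_of_nonneg_right hr1 hMr0.le
      linarith
    have h1M : 1 ≤ 0.3776 * (M * r) := by
      have : M * r * r ≤ M * r * 0.0708 := mul_le_mul_of_nonneg_left hr1 hMr0.le
      linarith
    have hbound : ((K : ℝ) + 1) * A + K * (2 * A + 1) ≤ (G + θ + 1) * A + (G + θ) * (2 * A + 1) := by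
      gcongr
    have hexp : (G + θ + 1) * A + (G + θ) * (2 * A + 1)
        = 3 * (A * G) + 3 * (θ * A) + A + G + θ := by ring
    have hθs : θ ≤ 0.06 := by linarith
    rw [hexp] at hbound
    have hfin : 9.5 * (2 * M * r) = 19 * (M * r) := by ring
    rw [hfin]
    have hq : θ * A = 2 / Real.pi := hKa
    rw [hq] at hbound
    linarith [hbound, hAG, hAM, hG3, h1M, h2pi, hθs, hT0, hMr0]

end Pool.Agent.Lib.MP_bf4c7f_lp
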